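import Pool.Agent.H88.AB.Cf
import Pool.Agent.H76.AB.Gc

/-!
Project MP_78d38b_ABX/MG: the relative condition over `K` for the twists by elements of `K` (no row).
-/

set_option autoImplicit false
set_option linter.unusedSectionVars false
open scoped Classical

open WithZero NumberField IsDedekindDomain H38RT
open H38T1 (SC sc scu rep eo la si Pri OddP tp unif ka)
open H76PP H36MX H76MQ H76MX H73P2

namespace H88AB

theorem dn_self {K : Type} [Field K] [NumberField K] (W : HeightOneSpectrum (𝓞 K)) : dn K W = W := by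
  apply HeightOneSpectrum.ext
  ext x
  change algebraMap (𝓞 K) (𝓞 K) x ∈ W.asIdeal ↔ x ∈ W.asIdeal
  exact Iff.rfl

/-- The relative condition over `K`: even orders outside `P`, local conditions of the twist by `d` at `P`. -/
def SelR {K : Type} [Field K] [NumberField K] (P : Finset (HeightOneSpectrum (𝓞 K))) (d A B : 𝓞 K)
    (δ : Fin 3 → K) : Prop :=
  (∀ (L : Type) [Field L] [NumberField L] [Algebra K L] (θ : L), Cub K L (A : K) (B : K) θ →
    ∀ w : HeightOneSpectrum (𝓞 L), dn K w ∉ P → eo w (sc (ev θ δ)) = 0) ∧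
  ∀ v ∈ P, LC (algebraMap K (v.adicCompletion K)) ((d : K) ^ 2 * A) ((d : K) ^ 3 * B)
    (fun i => δ i / (d : K) ^ (i : ℕ))

/-- **The relative conditions over `K`** (as `rel_localX`). -/
theorem selR {K : Type} [Field K] [NumberField K] {C : CfgX K} (hC : C.Ok)
    {q₀ : HeightOneSpectrum (𝓞 K)}
    {T : Finset (HeightOneSpectrum (𝓞 K))} (hT : ∀ v ∈ T, v ∉ C.S ∧ v ≠ q₀)
    {A B : 𝓞 K} {e : (u : HeightOneSpectrum (𝓞 K)) → Fin 3 → Kv u} (hF : FamX C q₀ T A B e)
    {L : Type} [Field L] [NumberField L] [Algebra K L] {θ : L} (hR : HR2 K L A B θ)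
    (Dt : XData C T A B e θ) {J : Finset (HeightOneSpectrum (𝓞 K))} (hJT : J ⊆ T) {D : 𝓞 K}
    (hD : H36MT.TwS C.S q₀ J (D : K)) {d : 𝓞 K} (hd0 : d ≠ 0)
    (hdo : ∀ v : HeightOneSpectrum (𝓞 K), v ∉ C.S → eo v (sc (d : K)) = 0)
    {x : (u : HeightOneSpectrum (𝓞 K)) → SC (Kv u)}
    (hx : ∀ u ∈ C.Z, H30MG.LocCl u (e u) (d : K) (x u))
    {P : Finset (HeightOneSpectrum (𝓞 K))} (hSP : C.S ⊆ P) (hJP : J ⊆ P)
    {δ : Fin 3 → K} (hδ : ev (algebraMap K L (D : K) * θ) δ ≠ 0)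
    (hsq : IsSquare (Algebra.norm K (ev (algebraMap K L (D : K) * θ) δ)))
    (hS : SelR P d (D ^ 2 * A) (D ^ 3 * B) δ) :
    Dt.X J (sc (ev (algebraMap K L (D : K) * θ) δ)) ∧
      ∀ u : {u // u ∈ C.Z}, LW (x u.1) (Dt.loc (sc (ev (algebraMap K L (D : K) * θ) δ)) u).1
        (Dt.loc (sc (ev (algebraMap K L (D : K) * θ) δ)) u).2 := by
  have h := Dt.h
  have hDK : (D : K) ≠ 0 := hD.ne
  have hDd : D ≠ 0 := fun h0 => hDK (RingOfIntegers.coe_eq_zero_iff.2 h0)
  have hdK : (d : K) ≠ 0 := fun h0 => hd0 (RingOfIntegers.coe_eq_zero_iff.1 h0)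
  have hdL : algebraMap K L (d : K) ≠ 0 := (map_ne_zero _).2 hdK
  have e1 : ((D ^ 2 * A : 𝓞 K) : K) = (D : K) ^ 2 * (A : K) := by push_cast; rfl
  have e2 : ((D ^ 3 * B : 𝓞 K) : K) = (D : K) ^ 3 * (B : K) := by push_cast; rfl
  obtain ⟨heo, hLC⟩ := hS
  rw [e1, e2] at hLC
  have heo' := heo L (algebraMap K L (D : K) * θ) (by
    rw [e1, e2]
    exact Cub.twist h hDK)
  obtain ⟨E, hEdef⟩ : ∃ E : 𝓞 K, E = D * d := ⟨_, rfl⟩
  have hE : E ≠ 0 := by
    rw [hEdef]
    exact mul_ne_zero hDd hd0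
  have hEK : (E : K) = (D : K) * (d : K) := by
    rw [hEdef]
    exact map_mul (algebraMap (𝓞 K) K) D d
  have hscE : (sc (E : K) : SC K) = sc (D : K) + sc (d : K) := by
    rw [hEK, H38T1.sc_mul hDK hdK]
  obtain ⟨dd, hdd⟩ : ∃ dd : Fin 3 → K, dd = fun i => δ i / (d : K) ^ (i : ℕ) := ⟨_, rfl⟩
  have hev : ev (algebraMap K L (E : K) * θ) dd = ev (algebraMap K L (D : K) * θ) δ := by
    rw [hdd, hEK]
    unfold ev
    simp only [Fin.val_zero, Fin.val_one, Fin.val_two, pow_zero, div_one, pow_one, map_div₀, map_pow,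
      map_mul]
    field_simp
  have hLC' : ∀ v ∈ P, LC (algebraMap K (v.adicCompletion K)) ((E : K) ^ 2 * A) ((E : K) ^ 3 * B) dd := by
    intro v hv
    have h1 := hLC v hv
    have e3 : (d : K) ^ 2 * ((D : K) ^ 2 * (A : K)) = (E : K) ^ 2 * (A : K) := by rw [hEK]; ring
    have e4 : (d : K) ^ 3 * ((D : K) ^ 3 * (B : K)) = (E : K) ^ 3 * (B : K) := by rw [hEK]; ring
    rw [e3, e4, ← hdd] at h1
    exact h1
  rw [← hev] at hδ hsq heo' ⊢
  refine ⟨⟨mem_HH.2 ⟨?_, ?_⟩, ?_⟩, ?_⟩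
  · rw [scm_sc _ hδ]
    exact (H38T1.sc_eq_zero (scm_ne _ hδ)).2 hsq
  · intro w hw
    have hwS : dn K w ∉ C.S := fun h1 => hw (Finset.mem_union_left _ h1)
    have hwJ : dn K w ∉ J := fun h1 => hw (Finset.mem_union_right _ h1)
    by_cases hwP : dn K w ∈ P
    · by_cases hwq : dn K w = q₀
      · refine even_unique h w (noRootAt_of ?_) hδ hsq
        rw [hwq]
        exact hF.irr
      · refine even_loc h hE (hF.sqf _ hwS) ?_ hδ (hLC' _ hwP)
        rw [hscE, H38T1.eo_add, hdo _ hwS, add_zero]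
        exact Sb_eo_even hDK (hD.even _ hwS hwJ hwq)
    · exact heo' w hwP
  · intro v hv
    obtain ⟨hvS, hvq⟩ := hT v (hJT hv)
    refine kum_T h hR (Sb_odd (Rl_six hC hvS)) (hF.sqf v hvS) (Dt.hT v (hJT hv)) hE ?_
      hδ hsq (hLC' v (hJP hv))
    rw [hscE, H38T1.eo_add, hdo v hvS, add_zero]
    exact Sb_eo_odd hDK (hD.odd v hv)
  · intro u
    rw [Dt.loc_apply]
    have hev' : ev θ (fun i => δ i * (D : K) ^ (i : ℕ)) = ev (algebraMap K L (E : K) * θ) dd := by
      rw [hev]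
      unfold ev
      simp only [Fin.val_zero, Fin.val_one, Fin.val_two, pow_zero, mul_one, pow_one, map_mul, map_pow]
      ring
    have h1 := condX_of_loc (K := K) (M := K) (r := 0) (by rw [pow_zero]; exact Module.finrank_self K)
      hd0 (hx u.1 u.2) (Dt.hs u.1 u.2) L θ Dt.h D hDd (hD.loc u.1 (Finset.mem_union_left _ u.2))
      (algebraMap K K (D : K) * (d : K)) rfl (fun i => δ i * (D : K) ^ (i : ℕ))
      (by rw [hev']; exact hδ) (by rw [hev']; exact hsq) (fun W hW => ?_)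
    · rw [hev'] at h1
      exact h1
    · rw [dn_self] at hW
      subst hW
      have h2 := hLC' _ (hSP (Finset.mem_union_left _ u.2))
      have e3 : (fun i : Fin 3 => algebraMap K K (δ i * (D : K) ^ (i : ℕ)) /
          (algebraMap K K (D : K) * (d : K)) ^ (i : ℕ)) = dd := by
        rw [hdd]
        funext i
        simp only [Algebra.algebraMap_self, RingHom.id_apply, mul_pow]
        field_simp
      rw [e3]
      simp only [Algebra.algebraMap_self, RingHom.id_apply]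
      rw [← hEK]
      exact h2

/-- The orders do not depend on the field `K(θ)`. -/
theorem eo_equiv {K L L' : Type} [Field K] [NumberField K] [Field L] [NumberField L] [Algebra K L]
    [Field L'] [NumberField L'] [Algebra K L'] {a b : K} {θ : L} {θ' : L'} (h : Cub K L a b θ)
    (h' : Cub K L' a b θ') {δ : Fin 3 → K} (hδ : ev θ δ ≠ 0) {P : Finset (HeightOneSpectrum (𝓞 K))}
    (he : ∀ w : HeightOneSpectrum (𝓞 L), dn K w ∉ P → eo w (sc (ev θ δ)) = 0)
    (w : HeightOneSpectrum (𝓞 L')) (hw : dn K w ∉ P) : eo w (sc (ev θ' δ)) = 0 := by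
  obtain ⟨φ, hφ⟩ := H36MT.Eq_hom h h'
  have hδ' : ev θ' δ ≠ 0 := by
    rw [← hφ]
    exact (map_ne_zero _).2 hδ
  have h1 := he (H36MT.Eq_mv φ w) (by rw [H36MT.Eq_dn]; exact hw)
  rw [H38T1.eo_sc hδ] at h1
  rw [H38T1.eo_sc hδ']
  unfold ord at h1 ⊢
  rw [H36MT.Eq_val, hφ] at h1
  exact h1

/-- From the vanishing of the classes with the relative conditions to `RelG` for the twist. -/
theorem relG_of {K : Type} [Field K] [NumberField K] {ι : Type*} {Sel : H76AB.SPred K ι}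
    {P : Finset (HeightOneSpectrum (𝓞 K))} {A B : 𝓞 K} (hG : H76AB.SelGood Sel P A B) {i : ι}
    {d : 𝓞 K} (hd : d ≠ 0)
    (hdo : ∀ v : HeightOneSpectrum (𝓞 K), v ∉ P → Even (ord (v.valuation K) (d : K)))
    (hS : ∀ δ, SelR P d A B δ → Sel P i A B δ) : H36MT.RelG K P (d ^ 2 * A) (d ^ 3 * B) := by
  have hdK : (d : K) ≠ 0 := fun h0 => hd (RingOfIntegers.coe_eq_zero_iff.1 h0)
  have e1 : ((d ^ 2 * A : 𝓞 K) : K) = (d : K) ^ 2 * (A : K) := by push_cast; rfl
  have e2 : ((d ^ 3 * B : 𝓞 K) : K) = (d : K) ^ 3 * (B : K) := by push_cast; rfl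
  refine ⟨hG.two, ?_, ?_, ?_, ?_⟩
  · have h1 : 4 * (d ^ 2 * A) ^ 3 + 27 * (d ^ 3 * B) ^ 2 = d ^ 6 * (4 * A ^ 3 + 27 * B ^ 2) := by
      ring
    rw [h1]
    exact mul_ne_zero (pow_ne_zero 6 hd) hG.ne
  · rw [e1, e2]
    intro t ht
    apply hG.irr (t / (d : K))
    have h7 : (d : K) ^ 3 * ((t / (d : K)) ^ 3 + (A : K) * (t / (d : K)) + (B : K)) = 0 := by
      field_simp
      linear_combination ht
    exact (mul_eq_zero.1 h7).resolve_left (pow_ne_zero 3 hdK)
  · intro v hv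
    rw [e1, e2]
    exact nice_mul (hG.nice v hv) hdK (hdo v hv)
  · intro L _ _ _ θ' h' δ' hR
    rw [e1, e2] at h' hR
    have hdL : algebraMap K L (d : K) ≠ 0 := (map_ne_zero _).2 hdK
    have h0 : Cub K L (A : K) (B : K) (θ' / algebraMap K L (d : K)) := by
      have h1 := Cub.twist h' (D := (d : K)⁻¹) (inv_ne_zero hdK)
      have e3 : (d : K)⁻¹ ^ 2 * ((d : K) ^ 2 * (A : K)) = (A : K) := by field_simp
      have e4 : (d : K)⁻¹ ^ 3 * ((d : K) ^ 3 * (B : K)) = (B : K) := by field_simp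
      have e5 : algebraMap K L (d : K)⁻¹ * θ' = θ' / algebraMap K L (d : K) := by
        rw [map_inv₀, div_eq_inv_mul]
      rw [e3, e4, e5] at h1
      exact h1
    have hev : ev (θ' / algebraMap K L (d : K)) (fun i => δ' i * (d : K) ^ (i : ℕ)) = ev θ' δ' := by
      unfold ev
      simp only [Fin.val_zero, Fin.val_one, Fin.val_two, pow_zero, mul_one, pow_one, map_mul, map_pow]
      field_simp
    have hne : ev (θ' / algebraMap K L (d : K)) (fun i => δ' i * (d : K) ^ (i : ℕ)) ≠ 0 := by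
      rw [hev]
      exact hR.ne
    rw [← hev]
    refine hG.rel i L _ h0 _ hne (by rw [hev]; exact hR.sq) (hS _ ⟨?_, ?_⟩)
    · intro L'' _ _ _ θ'' h'' w hw
      refine eo_equiv h0 h'' hne (P := P) (fun w' hw' => ?_) w hw
      rw [hev]
      exact hR.even w' (by rw [dn_self]; exact hw')
    · intro v hv
      have h1 := hR.loc v hv (algebraMap K (v.adicCompletion K)) (fun x => rfl)
      have e3 : (fun i : Fin 3 => δ' i * (d : K) ^ (i : ℕ) / (d : K) ^ (i : ℕ)) = δ' := by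
        funext i
        rw [mul_div_cancel_right₀ _ (pow_ne_zero _ hdK)]
      rw [e3]
      exact h1

end H88AB
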