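import Pool.Agent.H88.AB.Fn
import Pool.Agent.H36.MG.Gt

/-!
Project MP_78d38b_ABX/MG: the curve over the layers of `L F₀` (no row).
-/

set_option autoImplicit false
set_option linter.unusedSectionVars false
open scoped Classical

open WithZero NumberField IsDedekindDomain H38RT
open H38T1 (SC sc scu rep eo la si Pri OddP tp unif ka)
open H76PP H36MX H76MQ H76MX H73P2 H76AB

namespace H88AB

section Gal

variable {K N : Type} [Field K] [NumberField K] [Field N] [NumberField N] [Algebra K N] [IsGalois K N]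
  {U : Subgroup (N ≃ₐ[K] N)} [hU : U.Normal] {z : N ≃ₐ[K] N}

theorem fixU {x : N} (hx : ∀ u ∈ U, u x = x) (g : N ≃ₐ[K] N) : ∀ u ∈ U, u (g x) = g x := by
  intro u hu
  have h1 : g⁻¹ * u * g ∈ U := by
    have h2 := hU.conj_mem u hu g⁻¹
    rwa [inv_inv] at h2
  have h2 := hx _ h1
  have h3 : (g⁻¹ * u * g) x = g⁻¹ (u (g x)) := rfl
  rw [h3] at h2
  have h4 := congrArg g h2
  have h5 : g (g⁻¹ (u (g x))) = u (g x) := g.apply_symm_apply _
  rwa [h5] at h4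

theorem zg_comm (hzc : ∀ y, z * y * z⁻¹ * y⁻¹ ∈ U) {x : N} (hx : ∀ u ∈ U, u x = x)
    (g : N ≃ₐ[K] N) : z (g x) = g (z x) := by
  have h1 := hzc g
  have h2 := fixU (fixU hx z) g _ h1
  have h3 : (z * g * z⁻¹ * g⁻¹) (g (z x)) = z (g (z⁻¹ (g⁻¹ (g (z x))))) := rfl
  have h4 : g⁻¹ (g (z x)) = z x := g.symm_apply_apply _
  have h5 : z⁻¹ (z x) = x := z.symm_apply_apply _
  rw [h3, h4, h5] at h2
  exact h2

theorem gal_M (hzc : ∀ y, z * y * z⁻¹ * y⁻¹ ∈ U) {M : IntermediateField K N}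
    (hM : ∀ x, x ∈ M ↔ (∀ u ∈ U, u x = x) ∧ z x = x) : IsGalois K M := by
  have h1 : Normal K M := by
    rw [IntermediateField.normal_iff_forall_map_le']
    rintro σ _ ⟨x, hx, rfl⟩
    obtain ⟨h2, h3⟩ := (hM x).1 hx
    refine (hM _).2 ⟨fixU h2 σ, ?_⟩
    have h4 := zg_comm hzc h2 σ
    rw [h3] at h4
    exact h4
  exact ⟨⟩

theorem stw_M (hzc : ∀ y, z * y * z⁻¹ * y⁻¹ ∈ U) {M : IntermediateField K N}
    (hM : ∀ x, x ∈ M ↔ (∀ u ∈ U, u x = x) ∧ z x = x) {ρ : N} (hρ0 : ρ ≠ 0)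
    (hρ : ∀ u ∈ U, u ρ = ρ) (hz : z ρ = -ρ) {μ : M} (hμ : (μ : N) = ρ ^ 2) : Stw K μ := by
  have _ := gal_M hzc hM
  intro g
  obtain ⟨σ, hσ⟩ : ∃ σ : N ≃ₐ[K] N, ∀ x : M, σ (x : N) = ((g x : M) : N) :=
    ⟨g.liftNormal N, fun x => g.liftNormal_commutes N x⟩
  have hσ0 : σ ρ ≠ 0 := (map_ne_zero σ).2 hρ0
  have hzσ : z (σ ρ) = -σ ρ := by
    rw [zg_comm hzc hρ σ, hz, map_neg]
  have ht : σ ρ / ρ ∈ M := by
    refine (hM _).2 ⟨fun u hu => ?_, ?_⟩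
    · rw [map_div₀, fixU hρ σ u hu, hρ u hu]
    · rw [map_div₀, hzσ, hz, neg_div_neg_eq]
  refine ⟨⟨σ ρ / ρ, ht⟩, ?_, ?_⟩
  · intro h0
    exact div_ne_zero hσ0 hρ0 (congrArg Subtype.val h0)
  · apply Subtype.ext
    have h1 : ((μ * (⟨σ ρ / ρ, ht⟩ : M) ^ 2 : M) : N) = (μ : N) * (σ ρ / ρ) ^ 2 := rfl
    rw [h1, ← hσ, hμ, map_pow]
    field_simp

end Gal

/-- The local classes of `μ` at the places of `C.Z`. -/
def LocZ {K : Type} [Field K] [NumberField K] (C : CfgX K) (Lp : LPred K)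
    (x : (u : HeightOneSpectrum (𝓞 K)) → SC (Kv u)) {M : Type} [Field M] [NumberField M] [Algebra K M]
    (μ : M) : Prop :=
  ∀ u ∈ C.Z, ∀ (A B : 𝓞 K) (e : Fin 3 → Kv u),
    Spl (algebraMap K (Kv u) (A : K)) (algebraMap K (Kv u) (B : K)) e → Lp u A B e →
      H30MG.LocCl u e μ (x u)

/-- The configuration for `F₀`. -/
structure Conf {K : Type} [Field K] [NumberField K] (F₀ : Type) [Field F₀] [NumberField F₀]
    [Algebra K F₀] (C : CfgX K) (Lp : LPred K) {ι : Type*}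
    (x : (u : HeightOneSpectrum (𝓞 K)) → ι → SC (Kv u)) : Prop where
  ok : C.Ok
  ram : ∀ V : HeightOneSpectrum (𝓞 F₀), dn K V ∉ C.S → ¬ Ram K V
  low : ∀ (N : IntermediateField K F₀) [NumberField N], IsGalois K N →
    (∀ v : HeightOneSpectrum (𝓞 K), (2 : 𝓞 K) ∈ v.asIdeal → Sp K N v) → ∀ v ∈ C.Z, Sp K N v
  el : ∀ d : 𝓞 K, d ≠ 0 → IsSquare (algebraMap K F₀ (d : K)) →
    ∃ i, LocZ C Lp (fun u => x u i) (d : K)
  pr : ∀ (L0 N : Type) [Field L0] [NumberField L0] [Field N] [NumberField N] [Algebra K L0]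
    [Algebra K N] [Algebra L0 N] [Algebra F₀ N] [IsScalarTower K L0 N] [IsScalarTower K F₀ N]
    [IsGalois K L0] [IsGalois K N], (∃ r : ℕ, Module.finrank K N = 2 ^ r) →
    (∀ g : N ≃ₐ[K] N, (∀ x : L0, g (algebraMap L0 N x) = algebraMap L0 N x) →
      (∀ y : F₀, g (algebraMap F₀ N y) = algebraMap F₀ N y) → g = 1) →
    (∀ v ∈ C.Z, Sp K L0 v) → ∀ (U : Subgroup (N ≃ₐ[K] N)) [U.Normal] (z : N ≃ₐ[K] N), z ∉ U →
    z ^ 2 ∈ U → (∀ y, z * y * z⁻¹ * y⁻¹ ∈ U) →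
    (∀ x, x ∉ U → (∀ y, x * y * x⁻¹ * y⁻¹ ∈ U) → x ^ 2 ∈ U → x * z⁻¹ ∈ U) →
    ∀ (M : IntermediateField K N) [NumberField M], (∀ x, x ∈ M ↔ (∀ u ∈ U, u x = x) ∧ z x = x) →
    ∀ ρ : N, ρ ≠ 0 → (∀ u ∈ U, u ρ = ρ) → z ρ = -ρ → ∀ μ : M, (μ : N) = ρ ^ 2 →
      ∃ i, LocZ C Lp (fun u => x u i) μ

section Main

variable {K : Type} [Field K] [NumberField K] {F₀ : Type} [Field F₀] [NumberField F₀]
  [Algebra K F₀] [IsGalois K F₀] {C : CfgX K} {Lp : LPred K} {ι : Type*}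
  {x : (u : HeightOneSpectrum (𝓞 K)) → ι → SC (Kv u)}

theorem Conf.elOk (hc : Conf F₀ C Lp x) {d : 𝓞 K} (hd : d ≠ 0)
    (hs : IsSquare (algebraMap K F₀ (d : K))) : ∃ i, ElOk C Lp (fun u => x u i) d := by
  obtain ⟨i, hi⟩ := hc.el d hd hs
  refine ⟨i, hd, fun v hv => ?_, hi⟩
  have hdK : (d : K) ≠ 0 := fun h0 => hd (RingOfIntegers.coe_eq_zero_iff.1 h0)
  obtain ⟨V, hV⟩ := exists_above (L := F₀) v
  obtain ⟨s, hs⟩ := hs
  have h1 := unram_even (K := K) (M := K) (N := F₀) (hc.ram V (by rw [hV]; exact hv)) hdK (ρ := s)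
    (by rw [sq]; exact hs.symm)
  rw [hV] at h1
  exact h1

theorem pg_of {A B : K} {M : Type} [Field M] [NumberField M] [Algebra K M] {μ : M}
    (h : Finite (⟨0, 0, 0, μ ^ 2 * algebraMap K M A, μ ^ 3 * algebraMap K M B⟩ :
      WeierstrassCurve M).toAffine.Point ∧
    Pool.Agent.H10.Sha2Trivial M
      (⟨0, 0, 0, μ ^ 2 * algebraMap K M A, μ ^ 3 * algebraMap K M B⟩ : WeierstrassCurve M)) :
    H36MG.PG K A B μ := ⟨H14T1.bdd_of_sha2 h.2, h.1⟩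

/-- The curve over the layers. -/
theorem pg_layer (hc : Conf F₀ C Lp x) {S : Finset (HeightOneSpectrum (𝓞 K))} (hCS : C.S ⊆ S)
    {p : 𝓞 K × 𝓞 K}
    (hspl : ∀ u ∈ C.Z, ∃ e : Fin 3 → Kv u,
      Spl (algebraMap K (Kv u) (p.1 : K)) (algebraMap K (Kv u) (p.2 : K)) e)
    (hG : SelGood (SelG C Lp x {v | Sp K F₀ v}) S p.1 p.2) {L : Type} [Field L] [Algebra K L]
    (hL : H30MQ.AdmM K L S p) {L0 : IntermediateField K L} [NumberField L0] [IsGalois K L0]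
    {N : Type} [Field N] [NumberField N] [Algebra K N] [Algebra L0 N] [Algebra F₀ N]
    [IsScalarTower K L0 N] [IsScalarTower K F₀ N] [IsGalois K N]
    (hg : ∀ g : N ≃ₐ[K] N, (∀ x : L0, g (algebraMap L0 N x) = algebraMap L0 N x) →
      (∀ y : F₀, g (algebraMap F₀ N y) = algebraMap F₀ N y) → g = 1)
    (hdeg : ∃ r : ℕ, Module.finrank K N = 2 ^ r) : H36MG.PG K (p.1 : K) (p.2 : K) (1 : N) := by
  obtain ⟨r, hr⟩ := hdeg
  have hne : 4 * (p.1 : K) ^ 3 + 27 * (p.2 : K) ^ 2 ≠ 0 := by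
    intro h
    apply hG.ne
    apply RingOfIntegers.coe_injective
    rw [map_zero, ← h]
    simp only [map_add, map_mul, map_pow, map_ofNat]
  have hZ : ∀ v ∈ C.Z, Sp K L0 v := by
    intro v hv
    have hvS : v ∈ S := hCS (Finset.mem_union_left _ hv)
    rcases hL.loc v with ⟨ι, hι⟩ | ⟨-, h⟩ | ⟨h, -⟩
    · exact ⟨ι.comp (algebraMap L0 L), fun y => hι y⟩
    · exfalso
      obtain ⟨e, he⟩ := hspl v hv
      obtain ⟨t, ht⟩ := root_of_spl he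
      exact h t ht
    · exact absurd hvS h
  refine H36MG.gt_all hr hne ?_ ?_
  · -- the curve over `K`
    obtain ⟨i, hi⟩ := hc.el 1 one_ne_zero ⟨1, by
      rw [mul_one]
      have h1 : ((1 : 𝓞 K) : K) = 1 := map_one _
      rw [h1, map_one]⟩
    have h1 : ((1 : 𝓞 K) : K) = 1 := map_one _
    refine pg_of (triv_G hG (i := i) (M := K) (μ := 1) ⟨inferInstance, ⟨0, ?_⟩, one_ne_zero, ?_, ?_, ?_⟩
      fun g => ⟨1, one_ne_zero, by rw [map_one, one_pow, mul_one]⟩)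
    · rw [pow_zero]
      exact Module.finrank_self K
    · intro V _ hb
      exfalso
      rcases hb with hb | hb
      · exact H36MT.not_ram V hb
      · apply hb
        rw [(H38T1.sc_eq_zero one_ne_zero).2 ⟨1, (mul_one 1).symm⟩, H38T1.eo_zero]
    · intro v _ _ _
      exact Or.inr ⟨algebraMap K _, fun x => rfl, ⟨1, by rw [map_one, mul_one]⟩⟩
    · rw [← h1]
      exact hi
  · intro U _ z hzU hz2 hzc hmono M _ hM ρ hρ0 hρ hz μ hμ
    have _ := gal_M hzc hM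
    obtain ⟨i, hi⟩ := hc.pr L0 N ⟨r, hr⟩ hg hZ U z hzU hz2 hzc hmono M hM ρ hρ0 hρ hz μ hμ
    have hμ0 : μ ≠ 0 := by
      rintro rfl
      have h1 : ((0 : M) : N) = 0 := rfl
      rw [h1] at hμ
      exact pow_ne_zero 2 hρ0 hμ.symm
    have hMdeg : ∃ r : ℕ, Module.finrank K M = 2 ^ r := by
      have h5 := Module.finrank_mul_finrank K M N
      rw [hr] at h5
      obtain ⟨s, -, hs⟩ := (Nat.dvd_prime_pow Nat.prime_two).1 (Dvd.intro _ h5)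
      exact ⟨s, hs⟩
    exact pg_of (triv_G hG (i := i) (pairOk_of hc.ram hL hg hMdeg hμ0 (ρ := ρ) hμ.symm hi)
      (stw_M hzc hM hρ0 hρ hz hμ))

end Main

end H88AB
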