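import Pool.Agent.H76.AB.Gc
import Pool.Agent.H73.P2.Gd
import Pool.Agent.H36.CY.Ld

/-!
Project MP_78d38b_ABX/MG: the positive proportion theorem `final_countG` with the splitting of the cubic at the places
of `C.Z` in the conclusion (no row; copy of `Pool/Agent/H76/AB/Gc.lean`).
-/

set_option autoImplicit false
set_option linter.unusedSectionVars false
open scoped Classical

open WithZero NumberField IsDedekindDomain H38RT
open H38T1 (SC sc scu rep eo la si Pri OddP tp unif ka)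
open H76PP H36MX H76MQ H76MX H76AB

namespace H88AB

/-- **The positive proportion theorem** for the abstract conditions `Sel`. -/
theorem final_countG2 (K : Type) [Field K] [NumberField K] {C : CfgX K} (hC : C.Ok) (hH : Hilb K)
    (hcs : ConicSplit K) {ι : Type*} {x : (u : HeightOneSpectrum (𝓞 K)) → ι → SC (Kv u)}
    {W : Submodule (ZMod 2) C.V} (hW : TargetG C x W) {Lp : LPred K} {Sel : SPred K ι}
    {m : Ideal (𝓞 K)} {e : ℕ} {A₀ B₀ : 𝓞 K} (hcl : ClassG C Lp m e A₀ B₀)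
    {Z : Set (HeightOneSpectrum (𝓞 K))} (hZ : Z.Infinite) (hSel : SelHyp C x Lp Sel Z) :
    ∃ (Sg : Finset (HeightOneSpectrum (𝓞 K))) (c X₀ : ℝ), C.S ⊆ Sg ∧
      (∀ v ∈ Sg, v ∈ C.S ∨ v ∈ Z) ∧ 0 < c ∧ ∀ X : ℝ, X₀ ≤ X →
      ∃ G : Finset (𝓞 K × 𝓞 K),
        (∀ p ∈ G, p ∈ Bx K X ∧ ((∀ s : K →+* ℝ, 0 < s (p.1 : K)) ∧
          (∀ v ∈ C.R, ∀ t : 𝓞 K, t ^ 3 + p.1 * t + p.2 ∉ v.asIdeal) ∧
          (∀ u ∈ C.Z, ∃ e : Fin 3 → Kv u,
            Spl (algebraMap K (Kv u) (p.1 : K)) (algebraMap K (Kv u) (p.2 : K)) e) ∧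
          ∀ P : Finset (HeightOneSpectrum (𝓞 K)), Sg ⊆ P → SelGood Sel P p.1 p.2)) ∧
        (∀ p ∈ G, ∀ q ∈ G, p.1 ^ 3 * q.2 ^ 2 = q.1 ^ 3 * p.2 ^ 2 → p = q) ∧
        c * ((Bx K X).ncard : ℝ) ≤ (G.card : ℝ) := by
  have H : Blocks K := blocks_of_HR2 K fun h hd => hr2 h hd
  have hm0 := hcl.bot
  have he := hcl.two
  have hmS := hcl.inS
  have hm := hcl.out
  have hSv : ∀ v : HeightOneSpectrum (𝓞 K), (2 : 𝓞 K) ∈ v.asIdeal → v ∈ C.S := fun v hv =>
    Finset.mem_union_left _ (hC.mem2 v hv)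
  obtain ⟨m', hm'0, hm't, hm'm, hm'S, -⟩ := H36MT.exists_mod hm0 C.S
  obtain ⟨Z', hZ'Z, hZ', hZ'm, hZr⟩ := H30CY.aux_set_in K hm'0 hZ
  have hmZ : ∀ v ∈ Z', ¬ m ≤ v.asIdeal ∧ (6 : 𝓞 K) ∉ v.asIdeal := fun v hv =>
    ⟨fun h => (hZ'm v hv).1 (hm'm.trans h), (hZ'm v hv).2⟩
  have hS6 : ∀ v : HeightOneSpectrum (𝓞 K), ¬ m ≤ v.asIdeal → v ∉ C.S := by
    intro v hv hvS
    exact hv ((hmS v hvS).1.trans (Ideal.pow_le_self (by omega)))
  obtain ⟨q₀, T, b, k, c, X₀, hq₀, hT, hdis, hk0, hk, hc, hmain⟩ :=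
    H36MX.count_main K hSv he hZ' hm0 hmZ hmS hm (Module.finrank ℚ K + 2 * C.Z.card)
  obtain ⟨Ta, hTa⟩ : ∃ Ta : Finset (HeightOneSpectrum (𝓞 K)), Ta = (Finset.range k).biUnion T :=
    ⟨_, rfl⟩
  rw [← hTa] at hmain
  have hTa' : ∀ v ∈ Ta, v ∈ Z' ∧ v ≠ q₀ := by
    intro v hv
    rw [hTa, Finset.mem_biUnion] at hv
    obtain ⟨l, -, hl⟩ := hv
    exact hT l v hl
  have hT0 : T 0 ⊆ Ta := by
    intro v hv
    rw [hTa, Finset.mem_biUnion]
    exact ⟨0, Finset.mem_range.2 hk0, hv⟩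
  obtain ⟨c', X₁, hc', h⟩ := H30CY.count_genS H (S := C.S) (e := e) (q₀ := q₀) (T := Ta) (m' := m')
    (fun J hJ => H36MT.exists_twistS hm'0 hm't hm'S (hZ'm q₀ hq₀).1 fun p hp =>
      hZr q₀ hq₀ p (hTa' p (hJ hp)).1 (hTa' p (hJ hp)).2)
    (fun p => (p.1 - A₀ ∈ m ∧ p.2 - B₀ ∈ m ∧ ∀ s : K →+* ℝ, 0 < s (p.1 : K)) ∧
      ∀ l < k, GoodSt (C.S ∪ (Finset.range l).biUnion T) (T l) (b l) p.1 p.2)
    (fun p => (∀ s : K →+* ℝ, 0 < s (p.1 : K)) ∧
      (∀ v ∈ C.R, ∀ t : 𝓞 K, t ^ 3 + p.1 * t + p.2 ∉ v.asIdeal) ∧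
      (∀ u ∈ C.Z, ∃ e : Fin 3 → Kv u,
        Spl (algebraMap K (Kv u) (p.1 : K)) (algebraMap K (Kv u) (p.2 : K)) e) ∧
      ∀ P : Finset (HeightOneSpectrum (𝓞 K)), C.S ∪ insert q₀ Ta ⊆ P →
        SelGood Sel P p.1 p.2) hc (by
      intro X hX
      refine (hmain X hX).trans ?_
      have hfin : {p : 𝓞 K × 𝓞 K | p ∈ Bx K X ∧ H36MT.FamS C.S e q₀ Ta p.1 p.2 ∧
          ((p.1 - A₀ ∈ m ∧ p.2 - B₀ ∈ m ∧ ∀ s : K →+* ℝ, 0 < s (p.1 : K)) ∧
          ∀ l < k, GoodSt (C.S ∪ (Finset.range l).biUnion T) (T l) (b l) p.1 p.2) ∧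
          ¬ H36MT.BadS C.S Ta p.1 p.2}.Finite := (H.fin X).subset fun p hp => hp.1
      refine Nat.cast_le.2 (Set.ncard_le_ncard ?_ hfin)
      rintro p ⟨h1, h2, h3, h4⟩
      refine ⟨h1, h2, ⟨h3, h4⟩, ?_⟩
      have h5 := h4 0 hk0
      rw [Finset.range_zero, Finset.biUnion_empty, Finset.union_empty] at h5
      exact good_not_bad hT0 h5)
    (by
      rintro p hF ⟨hP, hG⟩ -
      obtain ⟨hP1, hP2, hP3⟩ := hP
      have hloc : ∀ u : HeightOneSpectrum (𝓞 K), ∃ e : Fin 3 → Kv u, u ∈ C.Z →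
          Spl (algebraMap K (Kv u) (p.1 : K)) (algebraMap K (Kv u) (p.2 : K)) e ∧
            Lp u p.1 p.2 e := by
        intro u
        by_cases hu : u ∈ C.Z
        · obtain ⟨e, he⟩ := hcl.loc p.1 p.2 hP1 hP2 u hu
          exact ⟨e, fun _ => he⟩
        · exact ⟨fun _ => 0, fun h => absurd h hu⟩
      choose ee hee using hloc
      have hpos : ∀ s : K →+* ℝ, 0 < s ((dsc p.1 p.2 : 𝓞 K) : K) := by
        intro s
        have e1 : ((dsc p.1 p.2 : 𝓞 K) : K) = 4 * (p.1 : K) ^ 3 + 27 * (p.2 : K) ^ 2 := by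
          unfold dsc
          simp only [map_add, map_mul, map_pow, map_ofNat]
        rw [e1, map_add, map_mul, map_mul, map_pow, map_pow, map_ofNat, map_ofNat]
        have h1 := hP3 s
        positivity
      have hFX : FamX C q₀ Ta p.1 p.2 ee := ⟨fun u hu => (hee u hu).1,
        hcl.res p.1 p.2 hP1 hP2, hF.irr, hF.typ, hF.sqf, hpos⟩
      have hF' := hF
      rw [hTa] at hFX hF'
      obtain ⟨J, hJ, hg⟩ := main_localG hC hH hcs hW hSel (hS6 q₀ (hmZ q₀ hq₀).1) (hZ'Z hq₀) hk0 T b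
        (fun i _ j _ hij => hdis i j hij)
        (fun v hv => by
          rw [← hTa] at hv
          exact ⟨hS6 v (hmZ v (hTa' v hv).1).1, (hTa' v hv).2, hZ'Z (hTa' v hv).1⟩) hF' hFX
        (fun u hu => (hee u hu).2) hG hk
      rw [← hTa] at hJ hg
      refine ⟨J, hJ, fun D hDm hD => ⟨?_, ?_, ?_, ?_⟩⟩
      · intro s
        change 0 < s ((D ^ 2 * p.1 : 𝓞 K) : K)
        have e1 : ((D ^ 2 * p.1 : 𝓞 K) : K) = (D : K) ^ 2 * (p.1 : K) := by push_cast; rfl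
        rw [e1, map_mul, map_pow]
        exact mul_pos (pow_pos (hD.pos s) 2) (hP3 s)
      · have hDm' := hm'm hDm
        refine hcl.res (D ^ 2 * p.1) (D ^ 3 * p.2) ?_ ?_
        · have e1 : D ^ 2 * p.1 - A₀ = (p.1 - A₀) + (D - 1) * ((D + 1) * p.1) := by ring
          rw [e1]
          exact m.add_mem hP1 (m.mul_mem_right _ hDm')
        · have e1 : D ^ 3 * p.2 - B₀ = (p.2 - B₀) + (D - 1) * ((D ^ 2 + D + 1) * p.2) := by ring
          rw [e1]
          exact m.add_mem hP2 (m.mul_mem_right _ hDm')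
      · have hDm' := hm'm hDm
        intro u hu
        obtain ⟨e, he, -⟩ := hcl.loc (D ^ 2 * p.1) (D ^ 3 * p.2) (by
          have e1 : D ^ 2 * p.1 - A₀ = (p.1 - A₀) + (D - 1) * ((D + 1) * p.1) := by ring
          rw [e1]
          exact m.add_mem hP1 (m.mul_mem_right _ hDm')) (by
          have e1 : D ^ 3 * p.2 - B₀ = (p.2 - B₀) + (D - 1) * ((D ^ 2 + D + 1) * p.2) := by ring
          rw [e1]
          exact m.add_mem hP2 (m.mul_mem_right _ hDm')) u hu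
        exact ⟨e, he⟩
      · intro P hP
        exact hg D hD P (Finset.subset_union_left.trans hP)
          (((Finset.subset_insert _ _).trans Finset.subset_union_right).trans hP)
          (hP (Finset.mem_union_right _ (Finset.mem_insert_self _ _))))
  refine ⟨C.S ∪ insert q₀ Ta, c', X₁, Finset.subset_union_left, fun v hv => ?_, hc', h⟩
  rcases Finset.mem_union.1 hv with h1 | h1
  · exact Or.inl h1
  · right
    rcases Finset.mem_insert.1 h1 with h2 | h2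
    · rw [h2]
      exact hZ'Z hq₀
    · exact hZ'Z (hTa' v h2).1


/-- A cubic which splits over the completion has a root modulo `v`. -/
theorem root_of_spl {K : Type} [Field K] [NumberField K] {v : HeightOneSpectrum (𝓞 K)} {A B : 𝓞 K}
    {e : Fin 3 → Kv v} (h : Spl (algebraMap K (Kv v) (A : K)) (algebraMap K (Kv v) (B : K)) e) :
    ∃ t : 𝓞 K, t ^ 3 + A * t + B ∈ v.asIdeal := by
  by_contra hcon
  push Not at hcon
  have hr := h.root 0
  have hA : Valued.v (algebraMap K (Kv v) (A : K)) ≤ 1 := by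
    rw [H36CY.val_coe]
    exact v.valuation_le_one A
  have hB : Valued.v (algebraMap K (Kv v) (B : K)) ≤ 1 := by
    rw [H36CY.val_coe]
    exact v.valuation_le_one B
  have he : Valued.v (e 0) ≤ 1 := by
    by_contra hc
    rw [not_le] at hc
    have h0 : 0 < Valued.v (e 0) := zero_lt_one.trans hc
    have h1 : (e 0) ^ 3 = -(algebraMap K (Kv v) (A : K) * e 0 + algebraMap K (Kv v) (B : K)) := by
      linear_combination hr
    have h2 : Valued.v (e 0) ^ 3 ≤ Valued.v (e 0) := by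
      rw [← map_pow, h1, Valuation.map_neg]
      refine (Valuation.map_add _ _ _).trans (max_le ?_ (hB.trans hc.le))
      rw [map_mul]
      exact mul_le_of_le_one_left' hA
    have h3 : Valued.v (e 0) * 1 < Valued.v (e 0) * Valued.v (e 0) ^ 2 :=
      mul_lt_mul_of_pos_left (one_lt_pow₀ hc two_ne_zero) h0
    rw [mul_one, ← pow_succ'] at h3
    exact absurd h3 (not_lt.2 h2)
  obtain ⟨k, hk⟩ := H36CY.near_coe v (e 0) one_ne_zero
  rw [map_one] at hk
  have hk1 : Valued.v (algebraMap K (Kv v) k) ≤ 1 := by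
    have e1 : algebraMap K (Kv v) k = (algebraMap K (Kv v) k - e 0) + e 0 := by ring
    rw [e1]
    exact (Valuation.map_add _ _ _).trans (max_le hk.le he)
  have hk2 : v.valuation K k ≤ 1 := by
    rw [← H36CY.val_coe]
    exact hk1
  have h4 := Tf_unit v hcon hk2
  rw [← H36CY.val_coe] at h4
  have e1 : algebraMap K (Kv v) (k ^ 3 + (A : K) * k + (B : K)) =
      (algebraMap K (Kv v) k - e 0) * ((algebraMap K (Kv v) k) ^ 2 + algebraMap K (Kv v) k * e 0 +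
        (e 0) ^ 2 + algebraMap K (Kv v) (A : K)) := by
    rw [map_add, map_add, map_mul, map_pow]
    linear_combination hr
  rw [e1, map_mul] at h4
  have h5 : Valued.v ((algebraMap K (Kv v) k) ^ 2 + algebraMap K (Kv v) k * e 0 +
        (e 0) ^ 2 + algebraMap K (Kv v) (A : K)) ≤ 1 := by
    refine (Valuation.map_add _ _ _).trans (max_le ((Valuation.map_add _ _ _).trans (max_le
      ((Valuation.map_add _ _ _).trans (max_le ?_ ?_)) ?_)) hA)
    · rw [map_pow]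
      exact pow_le_one' hk1 2
    · rw [map_mul]
      exact mul_le_one' hk1 he
    · rw [map_pow]
      exact pow_le_one' he 2
  have h6 : Valued.v (algebraMap K (Kv v) k - e 0) * Valued.v ((algebraMap K (Kv v) k) ^ 2 +
      algebraMap K (Kv v) k * e 0 + (e 0) ^ 2 + algebraMap K (Kv v) (A : K)) < 1 :=
    mul_lt_one_of_lt_of_le hk h5
  exact absurd h4 h6.ne

end H88AB
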