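import Mathlib

/-!
Project MP_78d38b_ABX/MG: the finite layers of a compositum `F' = L F₀` (no row).
-/

set_option autoImplicit false
set_option linter.unusedSectionVars false
open scoped Classical

namespace H88AB

open IntermediateField

section Layer

variable {K L F₀ F' : Type} [Field K] [CharZero K] [Field L] [Field F₀] [Field F'] [Algebra K L]
  [Algebra K F₀] [Algebra K F'] [Algebra L F'] [Algebra F₀ F'] [IsScalarTower K L F']
  [IsScalarTower K F₀ F'] [FiniteDimensional K F₀] [IsGalois K F₀] [IsGalois K L]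

/-- The elements of the compositum lie in finite layers. -/
theorem mem_layer (hgen : IntermediateField.adjoin L (Set.range (algebraMap F₀ F')) = ⊤) (α : F') :
    ∃ U : Finset L, α ∈ IntermediateField.adjoin K
      ((algebraMap L F') '' (U : Set L) ∪ Set.range (algebraMap F₀ F')) := by
  have h1 : α ∈ IntermediateField.adjoin K (Set.range (algebraMap L F') ∪
      Set.range (algebraMap F₀ F')) := by
    let E : IntermediateField L F' :=
      { (IntermediateField.adjoin K (Set.range (algebraMap L F') ∪
          Set.range (algebraMap F₀ F'))).toSubfield with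
        algebraMap_mem' := fun x => IntermediateField.subset_adjoin K _ (Or.inl ⟨x, rfl⟩) }
    have h2 : IntermediateField.adjoin L (Set.range (algebraMap F₀ F')) ≤ E := by
      rw [IntermediateField.adjoin_le_iff]
      intro x hx
      exact IntermediateField.subset_adjoin K _ (Or.inr hx)
    have h3 : α ∈ E := by
      apply h2
      rw [hgen]
      exact IntermediateField.mem_top
    exact h3
  obtain ⟨T, hT, hα⟩ := IntermediateField.exists_finset_of_mem_adjoin h1
  have h4 : ∀ t : F', ∃ x : L, (∃ y : L, algebraMap L F' y = t) → algebraMap L F' x = t := by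
    intro t
    by_cases h : ∃ y : L, algebraMap L F' y = t
    · exact ⟨h.choose, fun _ => h.choose_spec⟩
    · exact ⟨0, fun h' => absurd h' h⟩
  choose f hf using h4
  refine ⟨T.image f, ?_⟩
  refine IntermediateField.adjoin.mono K _ _ ?_ hα
  intro t ht
  rcases hT ht with h5 | h5
  · left
    refine ⟨f t, ?_, hf t h5⟩
    rw [Finset.coe_image]
    exact ⟨t, ht, rfl⟩
  · exact Or.inr h5

/-- Every finite subextension of the compositum lies in the compositum of `F₀` and a finite layer. -/
theorem exists_layer (hgen : IntermediateField.adjoin L (Set.range (algebraMap F₀ F')) = ⊤)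
    (M : IntermediateField K F') [FiniteDimensional K M] :
    ∃ (L0 : IntermediateField K L) (N : IntermediateField K F'), FiniteDimensional K L0 ∧
      Normal K L0 ∧ FiniteDimensional K N ∧ Normal K N ∧ M ≤ N ∧
      (∀ x : L, x ∈ L0 → algebraMap L F' x ∈ N) ∧ (∀ y : F₀, algebraMap F₀ F' y ∈ N) ∧
      N ≤ IntermediateField.adjoin K
        ((algebraMap L F') '' (L0 : Set L) ∪ Set.range (algebraMap F₀ F')) := by
  obtain ⟨α, hα⟩ := Field.exists_primitive_element K M
  obtain ⟨U, hU⟩ := mem_layer (K := K) hgen (α : F')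
  have hLalg : Algebra.IsAlgebraic K L := inferInstance
  let L1 : IntermediateField K L := IntermediateField.adjoin K (U : Set L)
  have hL1 : FiniteDimensional K L1 := IntermediateField.finiteDimensional_adjoin
    (S := (U : Set L)) fun x _ => Algebra.IsIntegral.isIntegral x
  let L0 : IntermediateField K L := IntermediateField.normalClosure K L1 L
  have hL10 : L1 ≤ L0 := IntermediateField.le_normalClosure L1
  have hL0n : Normal K L0 := inferInstance
  have hL0f : FiniteDimensional K L0 := inferInstance
  let iL : L →ₐ[K] F' := IsScalarTower.toAlgHom K L F'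
  let iF : F₀ →ₐ[K] F' := IsScalarTower.toAlgHom K F₀ F'
  let NL : IntermediateField K F' := L0.map iL
  let NF : IntermediateField K F' := iF.fieldRange
  have hNLn : Normal K NL := Normal.of_algEquiv (L0.equivMap iL)
  have hNLf : FiniteDimensional K NL := (L0.equivMap iL).toLinearEquiv.finiteDimensional
  have hNFn : Normal K NF := Normal.of_algEquiv (AlgHom.equivFieldRange iF)
  have hNFf : FiniteDimensional K NF :=
    (AlgHom.equivFieldRange iF).toLinearEquiv.finiteDimensional
  have hx : ∀ x : L, x ∈ L0 → algebraMap L F' x ∈ NL ⊔ NF := fun x hx =>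
    (le_sup_left : NL ≤ NL ⊔ NF) ⟨x, hx, rfl⟩
  have hy : ∀ y : F₀, algebraMap F₀ F' y ∈ NL ⊔ NF := fun y =>
    (le_sup_right : NF ≤ NL ⊔ NF) ⟨y, rfl⟩
  refine ⟨L0, NL ⊔ NF, hL0f, hL0n, inferInstance, inferInstance, ?_, hx, hy, ?_⟩
  · have h1 : (α : F') ∈ NL ⊔ NF := by
      have h2 : IntermediateField.adjoin K ((algebraMap L F') '' (U : Set L) ∪
          Set.range (algebraMap F₀ F')) ≤ NL ⊔ NF := by
        rw [IntermediateField.adjoin_le_iff]
        rintro x (⟨u, hu, rfl⟩ | ⟨y, rfl⟩)
        · exact hx u (hL10 (IntermediateField.subset_adjoin K _ hu))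
        · exact hy y
      exact h2 hU
    intro x hxM
    have h3 : (⟨x, hxM⟩ : M) ∈ IntermediateField.adjoin K {α} := by
      rw [hα]
      exact IntermediateField.mem_top
    have h4 : IntermediateField.adjoin K {α} ≤ (NL ⊔ NF).comap M.val := by
      rw [IntermediateField.adjoin_le_iff]
      intro y hy'
      rw [Set.mem_singleton_iff] at hy'
      subst hy'
      exact h1
    exact h4 h3
  · rw [sup_le_iff]
    constructor
    · rintro _ ⟨x, hx', rfl⟩
      exact IntermediateField.subset_adjoin K _ (Or.inl ⟨x, hx', rfl⟩)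
    · rintro _ ⟨y, rfl⟩
      exact IntermediateField.subset_adjoin K _ (Or.inr ⟨y, rfl⟩)

end Layer

/-- The degree of the compositum of two extensions of two-power degree. -/
theorem layer_deg {K L0 F₀ N : Type} [Field K] [Field L0] [Field F₀] [Field N] [Algebra K L0]
    [Algebra K F₀] [Algebra K N] [Algebra L0 N] [Algebra F₀ N] [IsScalarTower K L0 N]
    [IsScalarTower K F₀ N] [FiniteDimensional K N] [IsGalois K N] [FiniteDimensional K L0]
    [FiniteDimensional K F₀] [IsGalois K L0] [IsGalois K F₀] {a b : ℕ}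
    (ha : Module.finrank K L0 = 2 ^ a) (hb : Module.finrank K F₀ = 2 ^ b)
    (hg : ∀ g : N ≃ₐ[K] N, (∀ x : L0, g (algebraMap L0 N x) = algebraMap L0 N x) →
      (∀ y : F₀, g (algebraMap F₀ N y) = algebraMap F₀ N y) → g = 1) :
    ∃ r : ℕ, Module.finrank K N = 2 ^ r := by
  have key : ∀ (E : Type) [Field E] [Algebra K E] [Algebra E N] [IsScalarTower K E N]
      [FiniteDimensional K E] [IsGalois K E] (c : ℕ), Module.finrank K E = 2 ^ c →
      ∀ (g : N ≃ₐ[K] N) (m : ℕ) (x : E), (g ^ (2 ^ c * m)) (algebraMap E N x) = algebraMap E N x := by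
    intro E _ _ _ _ _ _ c hc g m x
    have h1 : (AlgEquiv.restrictNormalHom E g) ^ (2 ^ c) = 1 := by
      rw [← hc, ← IsGalois.card_aut_eq_finrank K E]
      exact pow_card_eq_one'
    have h2 : AlgEquiv.restrictNormalHom E (g ^ (2 ^ c * m)) = 1 := by
      rw [map_pow, pow_mul, h1, one_pow]
    have h3 := AlgEquiv.restrictNormal_commutes (g ^ (2 ^ c * m)) E x
    have h4 : (g ^ (2 ^ c * m)).restrictNormal E = 1 := h2
    rw [h4] at h3
    exact h3.symm
  have hp : IsPGroup 2 (N ≃ₐ[K] N) := by
    intro g
    refine ⟨a + b, hg _ (fun x => ?_) (fun y => ?_)⟩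
    · rw [pow_add]
      exact key L0 a ha g (2 ^ b) x
    · rw [pow_add, mul_comm]
      exact key F₀ b hb g (2 ^ a) y
  have _ : Fact (Nat.Prime 2) := ⟨Nat.prime_two⟩
  obtain ⟨n, hn⟩ := (IsPGroup.iff_card (p := 2) (G := N ≃ₐ[K] N)).1 hp
  exact ⟨n, by rw [← IsGalois.card_aut_eq_finrank K N, hn]⟩

end H88AB
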