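import Pool.Agent.H88.AB.Fi
import Pool.Agent.H88.AB.Gd
import Pool.Agent.H88.AB.Ly
import Pool.Agent.H30.MQ.Fh
import Pool.Agent.H30.ZO.Nh
import Pool.Agent.H36.AB.Ur
import Pool.Agent.H76.AB.Fr

/-!
Project MP_78d38b_ABX/MG: the pairs in the layers of `L F₀` (no row).
-/

set_option autoImplicit false
set_option linter.unusedSectionVars false
open scoped Classical

open WithZero NumberField IsDedekindDomain H38RT
open H38T1 (SC sc scu rep eo la si Pri OddP tp unif ka)
open H76PP H36MX H76MQ H76MX H73P2 H76AB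

namespace H88AB

/-- `v` splits completely. -/
def Sp (K L : Type) [Field K] [NumberField K] [Field L] [Algebra K L]
    (v : HeightOneSpectrum (𝓞 K)) : Prop :=
  ∃ ι : L →+* v.adicCompletion K, ∀ x : K,
    ι (algebraMap K L x) = algebraMap K (v.adicCompletion K) x

theorem split_unram {K L0 : Type} [Field K] [NumberField K] [Field L0] [NumberField L0] [Algebra K L0]
    [IsGalois K L0] {V : HeightOneSpectrum (𝓞 L0)} (h : Sp K L0 (dn K V)) : ¬ Ram K V := by
  obtain ⟨ι, hι⟩ := h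
  rw [H36AB.inertia_iff, eq_bot_iff, ← H76AB.dec_split ι hι rfl]
  intro σ hσ
  refine H76AB.stb_of_mem fun x => ?_
  have h1 : σ • x - x ∈ V.asIdeal := hσ x
  exact ⟨fun hx => by
    have h2 := V.asIdeal.add_mem h1 hx
    rwa [sub_add_cancel] at h2, fun hx => by
    have h2 := V.asIdeal.sub_mem hx h1
    rwa [sub_sub_cancel] at h2⟩

theorem unram_even {K M N : Type} [Field K] [NumberField K] [Field M] [NumberField M] [Field N]
    [NumberField N] [Algebra K M] [Algebra K N] [Algebra M N] [IsScalarTower K M N]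
    {W : HeightOneSpectrum (𝓞 N)} (h : ¬ Ram K W) {μ : M} (hμ : μ ≠ 0) {ρ : N}
    (hρ : ρ ^ 2 = algebraMap M N μ) : eo (dn M W) (sc μ) = 0 := by
  obtain ⟨h1, -⟩ := unram_mid (k := M) h
  rw [H38T1.eo_sc hμ, ZMod.intCast_eq_zero_iff_even, ← h1 μ hμ, ← hρ]
  refine ⟨ord (W.valuation N) ρ, ?_⟩
  unfold ord
  rw [map_pow, log_pow, nsmul_eq_mul]
  push_cast
  ring

/-- **The pairs of the layers are admissible.** -/
theorem pairOk_of {K : Type} [Field K] [NumberField K] {C : CfgX K} {Lp : LPred K}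
    {x : (u : HeightOneSpectrum (𝓞 K)) → SC (Kv u)} {F₀ : Type} [Field F₀] [NumberField F₀]
    [Algebra K F₀] [IsGalois K F₀]
    (hF : ∀ V : HeightOneSpectrum (𝓞 F₀), dn K V ∉ C.S → ¬ Ram K V)
    {S : Finset (HeightOneSpectrum (𝓞 K))} {p : 𝓞 K × 𝓞 K} {L : Type} [Field L] [Algebra K L]
    (hL : H30MQ.AdmM K L S p) {L0 : IntermediateField K L} [NumberField L0] [IsGalois K L0]
    {M N : Type} [Field M] [NumberField M] [Field N] [NumberField N] [Algebra K M] [Algebra K N]
    [Algebra M N] [IsScalarTower K M N] [Algebra L0 N] [Algebra F₀ N] [IsScalarTower K L0 N]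
    [IsScalarTower K F₀ N] [IsGalois K N] [IsGalois K M]
    (hg : ∀ g : N ≃ₐ[K] N, (∀ x : L0, g (algebraMap L0 N x) = algebraMap L0 N x) →
      (∀ y : F₀, g (algebraMap F₀ N y) = algebraMap F₀ N y) → g = 1)
    (hdeg : ∃ r : ℕ, Module.finrank K M = 2 ^ r) {μ : M} (hμ : μ ≠ 0) {ρ : N}
    (hρ : ρ ^ 2 = algebraMap M N μ)
    (hloc : ∀ u ∈ C.Z, ∀ (A B : 𝓞 K) (e : Fin 3 → Kv u),
      Spl (algebraMap K (Kv u) (A : K)) (algebraMap K (Kv u) (B : K)) e → Lp u A B e →
        H30MG.LocCl u e μ (x u)) :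
    PairOk C Lp x {v | Sp K F₀ v} S p.1 p.2 M μ := by
  have hres : ∀ v : HeightOneSpectrum (𝓞 K), Sp K L v → Sp K L0 v := by
    rintro v ⟨ι, hι⟩
    exact ⟨ι.comp (algebraMap L0 L), fun y => hι y⟩
  refine ⟨inferInstance, hdeg, hμ, ?_, ?_, hloc⟩
  · intro V hV hb
    obtain ⟨W, hW⟩ := exists_above (L := N) V
    have hKW : dn K W = dn K V := by
      rw [← hW]
      exact (dn_dn W).symm
    have hF' : ¬ Ram K (dn F₀ W) := hF _ (by rw [dn_dn, hKW]; exact hV)
    have key : ¬ Ram K (dn L0 W) → False := by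
      intro h1
      have h2 := H36AB.unram_comp hg h1 hF'
      rcases hb with hb | hb
      · apply h2
        refine H30ZO.ram_up (M := M) ?_
        rw [hW]
        exact hb
      · apply hb
        rw [← hW]
        exact unram_even h2 hμ hρ
    rcases hL.loc (dn K V) with h | ⟨-, h⟩ | ⟨hvS, h⟩
    · exfalso
      refine key (split_unram ?_)
      rw [dn_dn, hKW]
      exact hres _ h
    · exact h
    · exfalso
      refine key fun hr => h ⟨L0, inferInstance, dn L0 W, ?_, hr⟩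
      rw [dn_dn, hKW]
  · intro v hvS hvZ _
    rcases hL.loc v with h | ⟨-, h⟩ | ⟨h, -⟩
    · right
      obtain ⟨ι, hι⟩ := H36AB.split_comp hg (algebraMap K (v.adicCompletion K)) (hres v h) hvZ
      refine ⟨ι.comp (algebraMap M N), fun y => ?_, ι ρ, ?_⟩
      · rw [RingHom.comp_apply, ← IsScalarTower.algebraMap_apply K M N, hι]
      · rw [RingHom.comp_apply, ← hρ, map_pow, sq]
    · exact Or.inl h
    · exact absurd hvS h

end H88AB
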