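import Mathlib

/-!
Project MP_78d38b_ABX/MG: the finite layers of a compositum `F' = L F`, both possibly infinite (no row).
-/

set_option autoImplicit false
set_option linter.unusedSectionVars false
open scoped Classical

namespace H88AB

open IntermediateField

section Layer

variable {K L F F' : Type} [Field K] [CharZero K] [Field L] [Field F] [Field F'] [Algebra K L]
  [Algebra K F] [Algebra K F'] [Algebra L F'] [Algebra F F'] [IsScalarTower K L F']
  [IsScalarTower K F F'] [IsGalois K F] [IsGalois K L]

/-- The elements of the compositum lie in finite layers. -/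
theorem mem_layer2 (hgen : IntermediateField.adjoin L (Set.range (algebraMap F F')) = ⊤) (α : F') :
    ∃ (U : Finset L) (U' : Finset F), α ∈ IntermediateField.adjoin K
      ((algebraMap L F') '' (U : Set L) ∪ (algebraMap F F') '' (U' : Set F)) := by
  have h1 : α ∈ IntermediateField.adjoin K (Set.range (algebraMap L F') ∪
      Set.range (algebraMap F F')) := by
    let E : IntermediateField L F' :=
      { (IntermediateField.adjoin K (Set.range (algebraMap L F') ∪
          Set.range (algebraMap F F'))).toSubfield with
        algebraMap_mem' := fun x => IntermediateField.subset_adjoin K _ (Or.inl ⟨x, rfl⟩) }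
    have h2 : IntermediateField.adjoin L (Set.range (algebraMap F F')) ≤ E := by
      rw [IntermediateField.adjoin_le_iff]
      intro x hx
      exact IntermediateField.subset_adjoin K _ (Or.inr hx)
    have h3 : α ∈ E := by
      apply h2
      rw [hgen]
      exact IntermediateField.mem_top
    exact h3
  obtain ⟨T, hT, hα⟩ := IntermediateField.exists_finset_of_mem_adjoin h1
  have h4 : ∀ t : F', ∃ x : L, (∃ y : L, algebraMap L F' y = t) → algebraMap L F' x = t := by
    intro t
    by_cases h : ∃ y : L, algebraMap L F' y = t
    · exact ⟨h.choose, fun _ => h.choose_spec⟩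
    · exact ⟨0, fun h' => absurd h' h⟩
  have h4' : ∀ t : F', ∃ x : F, (∃ y : F, algebraMap F F' y = t) → algebraMap F F' x = t := by
    intro t
    by_cases h : ∃ y : F, algebraMap F F' y = t
    · exact ⟨h.choose, fun _ => h.choose_spec⟩
    · exact ⟨0, fun h' => absurd h' h⟩
  choose f hf using h4
  choose f' hf' using h4'
  refine ⟨T.image f, T.image f', ?_⟩
  refine IntermediateField.adjoin.mono K _ _ ?_ hα
  intro t ht
  rcases hT ht with h5 | h5
  · left
    refine ⟨f t, ?_, hf t h5⟩
    rw [Finset.coe_image]
    exact ⟨t, ht, rfl⟩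
  · right
    refine ⟨f' t, ?_, hf' t h5⟩
    rw [Finset.coe_image]
    exact ⟨t, ht, rfl⟩

/-- Every finite subextension of the compositum lies in the compositum of finite layers. -/
theorem exists_layer2 (hgen : IntermediateField.adjoin L (Set.range (algebraMap F F')) = ⊤)
    (M : IntermediateField K F') [FiniteDimensional K M] :
    ∃ T : IntermediateField K F, FiniteDimensional K T ∧
      ∀ M0 : IntermediateField K F, T ≤ M0 → FiniteDimensional K M0 → Normal K M0 →
      ∃ (L0 : IntermediateField K L) (N : IntermediateField K F'), FiniteDimensional K L0 ∧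
        Normal K L0 ∧ FiniteDimensional K N ∧ Normal K N ∧ M ≤ N ∧
        (∀ x : L, x ∈ L0 → algebraMap L F' x ∈ N) ∧ (∀ y : F, y ∈ M0 → algebraMap F F' y ∈ N) ∧
        N ≤ IntermediateField.adjoin K
          ((algebraMap L F') '' (L0 : Set L) ∪ (algebraMap F F') '' (M0 : Set F)) := by
  obtain ⟨α, hα⟩ := Field.exists_primitive_element K M
  obtain ⟨U, U', hU⟩ := mem_layer2 (K := K) hgen (α : F')
  have hLalg : Algebra.IsAlgebraic K L := inferInstance
  have hFalg : Algebra.IsAlgebraic K F := inferInstance
  let T : IntermediateField K F := IntermediateField.adjoin K (U' : Set F)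
  have hT : FiniteDimensional K T := IntermediateField.finiteDimensional_adjoin
    (S := (U' : Set F)) fun x _ => Algebra.IsIntegral.isIntegral x
  refine ⟨T, hT, fun M0 hTM0 hM0f hM0n => ?_⟩
  let L1 : IntermediateField K L := IntermediateField.adjoin K (U : Set L)
  have hL1 : FiniteDimensional K L1 := IntermediateField.finiteDimensional_adjoin
    (S := (U : Set L)) fun x _ => Algebra.IsIntegral.isIntegral x
  let L0 : IntermediateField K L := IntermediateField.normalClosure K L1 L
  have hL10 : L1 ≤ L0 := IntermediateField.le_normalClosure L1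
  have hL0n : Normal K L0 := inferInstance
  have hL0f : FiniteDimensional K L0 := inferInstance
  let iL : L →ₐ[K] F' := IsScalarTower.toAlgHom K L F'
  let iF : F →ₐ[K] F' := IsScalarTower.toAlgHom K F F'
  let NL : IntermediateField K F' := L0.map iL
  let NF : IntermediateField K F' := M0.map iF
  have hNLn : Normal K NL := Normal.of_algEquiv (L0.equivMap iL)
  have hNLf : FiniteDimensional K NL := (L0.equivMap iL).toLinearEquiv.finiteDimensional
  have hNFn : Normal K NF := Normal.of_algEquiv (M0.equivMap iF)
  have hNFf : FiniteDimensional K NF := (M0.equivMap iF).toLinearEquiv.finiteDimensional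
  have hx : ∀ x : L, x ∈ L0 → algebraMap L F' x ∈ NL ⊔ NF := fun x hx =>
    (le_sup_left : NL ≤ NL ⊔ NF) ⟨x, hx, rfl⟩
  have hy : ∀ y : F, y ∈ M0 → algebraMap F F' y ∈ NL ⊔ NF := fun y hy =>
    (le_sup_right : NF ≤ NL ⊔ NF) ⟨y, hy, rfl⟩
  refine ⟨L0, NL ⊔ NF, hL0f, hL0n, inferInstance, inferInstance, ?_, hx, hy, ?_⟩
  · have h1 : (α : F') ∈ NL ⊔ NF := by
      have h2 : IntermediateField.adjoin K ((algebraMap L F') '' (U : Set L) ∪
          (algebraMap F F') '' (U' : Set F)) ≤ NL ⊔ NF := by
        rw [IntermediateField.adjoin_le_iff]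
        rintro x (⟨u, hu, rfl⟩ | ⟨u, hu, rfl⟩)
        · exact hx u (hL10 (IntermediateField.subset_adjoin K _ hu))
        · exact hy u (hTM0 (IntermediateField.subset_adjoin K _ hu))
      exact h2 hU
    intro x hxM
    have h3 : (⟨x, hxM⟩ : M) ∈ IntermediateField.adjoin K {α} := by
      rw [hα]
      exact IntermediateField.mem_top
    have h4 : IntermediateField.adjoin K {α} ≤ (NL ⊔ NF).comap M.val := by
      rw [IntermediateField.adjoin_le_iff]
      intro y hy'
      rw [Set.mem_singleton_iff] at hy'
      subst hy'
      exact h1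
    exact h4 h3
  · rw [sup_le_iff]
    constructor
    · rintro _ ⟨x, hx', rfl⟩
      exact IntermediateField.subset_adjoin K _ (Or.inl ⟨x, hx', rfl⟩)
    · rintro _ ⟨y, hy', rfl⟩
      exact IntermediateField.subset_adjoin K _ (Or.inr ⟨y, hy', rfl⟩)

end Layer

section Split

variable {K : Type} [Field K]

/-- An algebraic extension all of whose finite Galois layers embed into `C` embeds into `C`. -/
theorem emb_of_layers {F : Type} [Field F] [Algebra K F] [IsGalois K F] {C : Type} [Field C]
    [Algebra K C]
    (h : ∀ T : IntermediateField K F, FiniteDimensional K T → IsGalois K T →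
      Nonempty (T →ₐ[K] C)) : Nonempty (F →ₐ[K] C) := by
  let Ω := AlgebraicClosure C
  have hFalg : Algebra.IsAlgebraic K F := inferInstance
  let j : F →ₐ[K] Ω := IsAlgClosed.lift
  let c : C →ₐ[K] Ω := IsScalarTower.toAlgHom K C Ω
  have key : ∀ x : F, j x ∈ c.fieldRange := by
    intro x
    let T1 : IntermediateField K F := IntermediateField.adjoin K {x}
    have hT1 : FiniteDimensional K T1 :=
      IntermediateField.adjoin.finiteDimensional (Algebra.IsIntegral.isIntegral x)
    let T : IntermediateField K F := IntermediateField.normalClosure K T1 F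
    have hTf : FiniteDimensional K T := inferInstance
    have hTn : Normal K T := inferInstance
    have hTg : IsGalois K T := ⟨⟩
    have hxT : x ∈ T := IntermediateField.le_normalClosure T1
      (IntermediateField.subset_adjoin K _ rfl)
    obtain ⟨i⟩ := h T hTf hTg
    have hrng : ∀ f g : T →ₐ[K] Ω, f.fieldRange ≤ g.fieldRange := by
      rintro f g _ ⟨y, rfl⟩
      let _ : Algebra T Ω := g.toRingHom.toAlgebra
      have hg : ∀ z : T, algebraMap T Ω z = g z := fun _ => rfl
      have _ : IsScalarTower K T Ω := IsScalarTower.of_algebraMap_eq fun z => by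
        rw [hg, AlgHom.commutes]
      exact ⟨f.restrictNormal T y, f.restrictNormal_commutes T y⟩
    have h1 : (c.comp i).fieldRange = (j.comp T.val).fieldRange :=
      le_antisymm (hrng _ _) (hrng _ _)
    have h2 : j x ∈ (j.comp T.val).fieldRange := ⟨⟨x, hxT⟩, rfl⟩
    rw [← h1] at h2
    obtain ⟨y, hy⟩ := h2
    exact ⟨i y, hy⟩
  let e := AlgEquiv.ofInjectiveField c
  exact ⟨(e.symm : c.range →ₐ[K] C).comp (j.codRestrict c.range key)⟩

end Split

end H88AB
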