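import Pool.Agent.H88.AB.Fm
import Pool.Agent.H88.AB.Lz
import Pool.Agent.H30.PN.Sp

/-!
Project MP_78d38b_MG: the main theorem for a finite or infinite extension `F / K`, from the configurations of its
finite layers (no row).
-/

set_option autoImplicit false
set_option linter.unusedSectionVars false
open scoped Classical

open WithZero NumberField IsDedekindDomain H38RT
open H38T1 (SC sc scu rep eo la si Pri OddP tp unif ka)
open H76PP H36MX H76MQ H76MX H73P2 H76AB

namespace H88AB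

section Sub

variable {K : Type} [Field K] [NumberField K] {C : CfgX K} {Lp : LPred K} {ι : Type*}
  {x : (u : HeightOneSpectrum (𝓞 K)) → ι → SC (Kv u)}

theorem ne_K {p : 𝓞 K × 𝓞 K} (hne : 4 * p.1 ^ 3 + 27 * p.2 ^ 2 ≠ 0) :
    4 * (p.1 : K) ^ 3 + 27 * (p.2 : K) ^ 2 ≠ 0 := by
  intro h
  apply hne
  apply RingOfIntegers.coe_injective
  rw [map_zero, ← h]
  simp only [map_add, map_mul, map_pow, map_ofNat]

theorem pg_sub {F₀ : Type} [Field F₀] [NumberField F₀]
    [Algebra K F₀] [IsGalois K F₀] (hc : Conf F₀ C Lp x)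
    (hdegF : ∃ r : ℕ, Module.finrank K F₀ = 2 ^ r)
    {S : Finset (HeightOneSpectrum (𝓞 K))} (hCS : C.S ⊆ S) {p : 𝓞 K × 𝓞 K}
    (hspl : ∀ u ∈ C.Z, ∃ e : Fin 3 → Kv u,
      Spl (algebraMap K (Kv u) (p.1 : K)) (algebraMap K (Kv u) (p.2 : K)) e)
    (hG : SelGood (SelG C Lp x {v | Sp K F₀ v}) S p.1 p.2) {L F' : Type} [Field L] [Field F']
    [Algebra K L] [Algebra K F'] [Algebra L F'] [IsScalarTower K L F'] (iF : F₀ →ₐ[K] F')
    (hL : H30MQ.AdmM K L S p) {L0 : IntermediateField K L} [FiniteDimensional K L0] [Normal K L0]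
    {N : IntermediateField K F'} [FiniteDimensional K N] [Normal K N]
    (hLN : ∀ x : L, x ∈ L0 → algebraMap L F' x ∈ N) (hFN : ∀ y : F₀, iF y ∈ N)
    (hNle : N ≤ IntermediateField.adjoin K ((algebraMap L F') '' (L0 : Set L) ∪ Set.range iF))
    [NumberField N] : H36MG.PG K (p.1 : K) (p.2 : K) (1 : N) := by
  have _ : NumberField L0 := NumberField.of_module_finite K L0
  have _ : IsGalois K L0 := ⟨⟩
  have _ : IsGalois K N := ⟨⟩
  let jL : L0 →+* N := ((algebraMap L F').comp (algebraMap L0 L)).codRestrict N.toSubfield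
    fun y => hLN _ y.2
  let jF : F₀ →+* N := (iF : F₀ →+* F').codRestrict N.toSubfield fun y => hFN y
  let _ : Algebra L0 N := jL.toAlgebra
  let _ : Algebra F₀ N := jF.toAlgebra
  have hLc : ∀ y : L0, ((algebraMap L0 N y : N) : F') = algebraMap L F' (y : L) := fun _ => rfl
  have hFc : ∀ y : F₀, ((algebraMap F₀ N y : N) : F') = iF y := fun _ => rfl
  have hKc : ∀ y : K, ((algebraMap K N y : N) : F') = algebraMap K F' y := fun _ => rfl
  have _ : IsScalarTower K L0 N := IsScalarTower.of_algebraMap_eq fun y => Subtype.ext (by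
    rw [hLc, hKc, IsScalarTower.algebraMap_apply K L F']
    rfl)
  have _ : IsScalarTower K F₀ N := IsScalarTower.of_algebraMap_eq fun y => Subtype.ext (by
    rw [hFc, hKc, AlgHom.commutes])
  have hg : ∀ g : N ≃ₐ[K] N, (∀ x : L0, g (algebraMap L0 N x) = algebraMap L0 N x) →
      (∀ y : F₀, g (algebraMap F₀ N y) = algebraMap F₀ N y) → g = 1 := by
    intro g h1 h2
    let E : IntermediateField K F' := (IntermediateField.fixedField (Subgroup.zpowers g)).map N.val
    have hE : IntermediateField.adjoin K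
        ((algebraMap L F') '' (L0 : Set L) ∪ Set.range iF) ≤ E := by
      rw [IntermediateField.adjoin_le_iff]
      have hfix : ∀ w : N, g w = w → w ∈ IntermediateField.fixedField (Subgroup.zpowers g) := by
        intro w hw
        rw [IntermediateField.mem_fixedField_iff]
        rintro f hf
        obtain ⟨n, rfl⟩ := Subgroup.mem_zpowers_iff.1 hf
        have h3 : g ∈ MulAction.stabilizer (N ≃ₐ[K] N) w := hw
        exact Subgroup.zpow_mem _ h3 n
      rintro w (⟨y, hy, rfl⟩ | ⟨y, rfl⟩)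
      · exact ⟨algebraMap L0 N ⟨y, hy⟩, hfix _ (h1 _), rfl⟩
      · exact ⟨algebraMap F₀ N y, hfix _ (h2 _), rfl⟩
    ext w
    obtain ⟨w', hw', hww⟩ := hE (hNle w.2)
    have h3 : w' = w := Subtype.ext hww
    subst h3
    rw [AlgEquiv.one_apply]
    exact congrArg Subtype.val
      ((IntermediateField.mem_fixedField_iff (Subgroup.zpowers g) w').1 hw' g
        (Subgroup.mem_zpowers g))
  have _ : FiniteDimensional K F₀ := Module.Finite.of_restrictScalars_finite ℚ K F₀
  obtain ⟨a, ha⟩ := hL.deg L0 inferInstance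
  obtain ⟨b, hb⟩ := hdegF
  exact pg_layer hc hCS hspl hG hL (L0 := L0) (N := N) hg (layer_deg ha hb hg)

theorem selGood_mono {Z Z' : Set (HeightOneSpectrum (𝓞 K))} (hZ : Z ⊆ Z')
    {S : Finset (HeightOneSpectrum (𝓞 K))} {A B : 𝓞 K} (h : SelGood (SelG C Lp x Z) S A B) :
    SelGood (SelG C Lp x Z') S A B := by
  refine ⟨h.two, h.ne, h.irr, h.nice, ?_⟩
  intro i L _ _ _ θ hθ δ hδ hsq hS
  refine h.rel i L θ hθ δ hδ hsq ?_
  rcases hS with ⟨M, _, _, _, μ, hM, hl⟩ | hS
  · exact Or.inl ⟨M, _, _, _, μ, ⟨hM.gal, hM.deg, hM.ne, hM.bad,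
      fun v hv hvZ => hM.spl v hv (hZ hvZ), hM.loc⟩, hl⟩
  · exact Or.inr hS

end Sub

/-- Configurations for all finite layers of `F`. -/
def ConfL {K : Type} [Field K] [NumberField K] (F : Type) [Field F] [Algebra K F] (C : CfgX K)
    (Lp : LPred K) {ι : Type*} (x : (u : HeightOneSpectrum (𝓞 K)) → ι → SC (Kv u)) : Prop :=
  ∀ T : IntermediateField K F, FiniteDimensional K T → ∃ M : IntermediateField K F, T ≤ M ∧
    ∃ _ : NumberField M, IsGalois K M ∧ Conf M C Lp x

/-- The conclusion for the curve of `p`. -/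
structure Cnc (K F : Type) [Field K] [NumberField K] [Field F] [Algebra K F]
    (S : Finset (HeightOneSpectrum (𝓞 K))) (p : 𝓞 K × 𝓞 K) : Prop where
  ne : 4 * p.1 ^ 3 + 27 * p.2 ^ 2 ≠ 0
  adm : ∀ N : IntermediateField K F, IsGalois K N →
    (∀ v : HeightOneSpectrum (𝓞 K), (2 : 𝓞 K) ∈ v.asIdeal → Sp K N v) → H30MQ.AdmM K N S p
  triv : ∀ (L : Type) [Field L] [Algebra K L], H30MQ.AdmM K L S p → ∀ d : 𝓞 K, d ≠ 0 →
    IsSquare (algebraMap K F (d : K)) → H30ZO.PF K L (d ^ 2 * p.1, d ^ 3 * p.2)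
  fin : ∀ (L F' : Type) [Field L] [Field F'] [Algebra K L] [Algebra K F'] [Algebra L F']
    [Algebra F F'] [IsScalarTower K L F'] [IsScalarTower K F F'], H30MQ.AdmM K L S p →
    IntermediateField.adjoin L (Set.range (algebraMap F F')) = ⊤ →
    ∀ (M : IntermediateField K F') [NumberField M] (m : M), m ≠ 0 → IsSquare (m : F') →
      Finite (H36MG.twM K (p.1 : K) (p.2 : K) m).toAffine.Point ∧
      H14T1.TwoPartFinite M (H36MG.twM K (p.1 : K) (p.2 : K) m)

/-- A positive proportion of the curves satisfies the conclusion. -/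
def PosP (K F : Type) [Field K] [NumberField K] [Field F] [Algebra K F] : Prop :=
  ∃ (S : Finset (HeightOneSpectrum (𝓞 K))) (c X₀ : ℝ), 0 < c ∧ ∀ X : ℝ, X₀ ≤ X →
    ∃ G : Finset (𝓞 K × 𝓞 K), (∀ p ∈ G, p ∈ Bx K X ∧ Cnc K F S p) ∧
      (∀ p ∈ G, ∀ q ∈ G, p.1 ^ 3 * q.2 ^ 2 = q.1 ^ 3 * p.2 ^ 2 → p = q) ∧
      c * ((Bx K X).ncard : ℝ) ≤ (G.card : ℝ)

section Conc

variable {K : Type} [Field K] [NumberField K] {F : Type} [Field F]
  [Algebra K F] [IsGalois K F] {C : CfgX K} {Lp : LPred K} {ι : Type*}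
  {x : (u : HeightOneSpectrum (𝓞 K)) → ι → SC (Kv u)}

theorem sp_layer {M : IntermediateField K F} {v : HeightOneSpectrum (𝓞 K)} (h : Sp K F v) :
    Sp K M v := by
  obtain ⟨ι, hι⟩ := h
  exact ⟨ι.comp (algebraMap M F), fun y => hι y⟩

theorem fin_L (hc : ConfL F C Lp x)
    (hdeg : ∀ (M : IntermediateField K F) [NumberField M], IsGalois K M →
      ∃ r : ℕ, Module.finrank K M = 2 ^ r)
    {S : Finset (HeightOneSpectrum (𝓞 K))} (hCS : C.S ⊆ S) {p : 𝓞 K × 𝓞 K}
    (hspl : ∀ u ∈ C.Z, ∃ e : Fin 3 → Kv u,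
      Spl (algebraMap K (Kv u) (p.1 : K)) (algebraMap K (Kv u) (p.2 : K)) e)
    (hG : SelGood (SelG C Lp x {v | Sp K F v}) S p.1 p.2) {L F' : Type} [Field L] [Field F']
    [Algebra K L] [Algebra K F'] [Algebra L F'] [Algebra F F'] [IsScalarTower K L F']
    [IsScalarTower K F F'] (hL : H30MQ.AdmM K L S p)
    (hgen : IntermediateField.adjoin L (Set.range (algebraMap F F')) = ⊤)
    (M : IntermediateField K F') [NumberField M] (m : M) (hm : m ≠ 0) (hs : IsSquare (m : F')) :
    Finite (H36MG.twM K (p.1 : K) (p.2 : K) m).toAffine.Point ∧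
      H14T1.TwoPartFinite M (H36MG.twM K (p.1 : K) (p.2 : K) m) := by
  have hgalL := hL.gal
  have _ : FiniteDimensional K M := Module.Finite.of_restrictScalars_finite ℚ K M
  obtain ⟨s, hs⟩ := hs
  have hsM : IsIntegral K s := by
    have h1 : IsIntegral K (m : F') := (Algebra.IsIntegral.isIntegral (R := K) m).map M.val
    rw [hs, ← sq] at h1
    exact h1.of_pow two_pos
  let Ms : IntermediateField K F' := IntermediateField.adjoin K {s}
  have hMs : FiniteDimensional K Ms := IntermediateField.adjoin.finiteDimensional hsM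
  obtain ⟨T, hT, hlay⟩ := exists_layer2 (K := K) (L := L) hgen (M ⊔ Ms)
  obtain ⟨M0, hTM0, hM0nf, hM0g, hM0c⟩ := hc T hT
  have hM0f : FiniteDimensional K M0 := Module.Finite.of_restrictScalars_finite ℚ K M0
  obtain ⟨L0, N, hL0f, hL0n, hNf, hNn, hMN, hLN, hFN, hNle⟩ := hlay M0 hTM0 hM0f inferInstance
  have _ : NumberField N := NumberField.of_module_finite K N
  have _ : IsGalois K N := ⟨⟩
  have hZ : {v | Sp K F v} ⊆ {v | Sp K M0 v} := fun v hv => sp_layer hv
  let iF : M0 →ₐ[K] F' := (IsScalarTower.toAlgHom K F F').comp M0.val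
  have hrg : (algebraMap F F') '' (M0 : Set F) = Set.range iF := by
    ext w
    constructor
    · rintro ⟨y, hy, rfl⟩
      exact ⟨⟨y, hy⟩, rfl⟩
    · rintro ⟨y, rfl⟩
      exact ⟨y, y.2, rfl⟩
  have hN : H36MG.PG K (p.1 : K) (p.2 : K) (1 : N) :=
    pg_sub hM0c (hdeg M0 hM0g) hCS hspl (selGood_mono hZ hG) iF hL hLN (fun y => hFN y y.2) (by
      rw [← hrg]
      exact hNle)
  have hMN' : M ≤ N := le_sup_left.trans hMN
  have hsN : s ∈ N := (le_sup_right.trans hMN) (IntermediateField.subset_adjoin K _ rfl)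
  let iM : M →+* N := (algebraMap M F').codRestrict N.toSubfield fun y => hMN' y.2
  let _ : Algebra M N := iM.toAlgebra
  have hMc : ∀ y : M, ((algebraMap M N y : N) : F') = (y : F') := fun _ => rfl
  have _ : IsScalarTower K M N := IsScalarTower.of_algebraMap_eq fun y => Subtype.ext (by
    rw [hMc]
    rfl)
  exact H36MG.pg_down (ne_K hG.ne) hN M hm ⟨⟨s, hsN⟩, Subtype.ext (by
    rw [hMc, hs]
    rfl)⟩

theorem sp_low (hc : ConfL F C Lp x) {N : IntermediateField K F} (hN : IsGalois K N)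
    (h2 : ∀ v : HeightOneSpectrum (𝓞 K), (2 : 𝓞 K) ∈ v.asIdeal → Sp K N v)
    {v : HeightOneSpectrum (𝓞 K)} (hv : v ∈ C.Z) : Sp K N v := by
  obtain ⟨j⟩ := emb_of_layers (K := K) (F := N) (C := v.adicCompletion K) (fun T hT hTg => by
    let T' : IntermediateField K F := T.map N.val
    have hT'f : FiniteDimensional K T' := (T.equivMap N.val).toLinearEquiv.finiteDimensional
    obtain ⟨M, hTM, hMnf, hMg, hMc⟩ := hc T' hT'f
    let φ : T →ₐ[K] M := (N.val.comp T.val).codRestrict M.toSubalgebra fun y =>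
      hTM ⟨(y : N), y.2, rfl⟩
    let e : T ≃ₐ[K] φ.fieldRange := AlgEquiv.ofInjectiveField φ
    have hRg : IsGalois K φ.fieldRange := IsGalois.of_algEquiv e
    have _ : FiniteDimensional K φ.fieldRange := e.toLinearEquiv.finiteDimensional
    have _ : NumberField φ.fieldRange := NumberField.of_module_finite K φ.fieldRange
    have hsp : ∀ u : HeightOneSpectrum (𝓞 K), (2 : 𝓞 K) ∈ u.asIdeal → Sp K φ.fieldRange u := by
      intro u hu
      obtain ⟨ι, hι⟩ := h2 u hu
      refine ⟨(ι.comp (algebraMap T N)).comp (e.symm : φ.fieldRange →+* T), fun y => ?_⟩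
      have h1 : (e.symm : φ.fieldRange →+* T) (algebraMap K φ.fieldRange y) = algebraMap K T y :=
        e.symm.commutes y
      rw [RingHom.comp_apply, RingHom.comp_apply, h1, ← IsScalarTower.algebraMap_apply K T N, hι]
    obtain ⟨ι, hι⟩ := hMc.low φ.fieldRange hRg hsp v hv
    refine ⟨{ (ι.comp (e : T →+* φ.fieldRange)) with commutes' := fun y => ?_ }⟩
    have h1 : (e : T →+* φ.fieldRange) (algebraMap K T y) = algebraMap K φ.fieldRange y :=
      e.commutes y
    change ι ((e : T →+* φ.fieldRange) (algebraMap K T y)) = _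
    rw [h1]
    exact hι y)
  exact ⟨j, fun y => j.commutes y⟩

theorem adm_L (hc : ConfL F C Lp x)
    (hdeg : ∀ (M : IntermediateField K F) [NumberField M], IsGalois K M →
      ∃ r : ℕ, Module.finrank K M = 2 ^ r)
    {S : Finset (HeightOneSpectrum (𝓞 K))} (hCS : C.S ⊆ S)
    (hSZ : ∀ v ∈ S, v ∈ C.S ∨ Sp K F v) {p : 𝓞 K × 𝓞 K}
    (hR : ∀ v ∈ C.R, ∀ t : 𝓞 K, t ^ 3 + p.1 * t + p.2 ∉ v.asIdeal) (N : IntermediateField K F)
    (hN : IsGalois K N)
    (hN2 : ∀ v : HeightOneSpectrum (𝓞 K), (2 : 𝓞 K) ∈ v.asIdeal → Sp K N v) :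
    H30MQ.AdmM K N S p := by
  refine ⟨hN, ?_, ?_⟩
  · intro T _ hTg
    let e := T.equivMap N.val
    have _ : IsGalois K (T.map N.val) := IsGalois.of_algEquiv e
    have _ : FiniteDimensional K T := Module.Finite.of_restrictScalars_finite ℚ K T
    have _ : FiniteDimensional K (T.map N.val) := e.toLinearEquiv.finiteDimensional
    have _ : NumberField (T.map N.val) := NumberField.of_module_finite K _
    obtain ⟨r, hr⟩ := hdeg (T.map N.val) inferInstance
    exact ⟨r, by rw [← hr]; exact e.toLinearEquiv.finrank_eq⟩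
  · intro v
    by_cases hv2 : (2 : 𝓞 K) ∈ v.asIdeal
    · exact Or.inl (hN2 v hv2)
    by_cases hvR : v ∈ C.R
    · exact Or.inr (Or.inl ⟨hv2, hR v hvR⟩)
    by_cases hvS : v ∈ S
    · left
      rcases hSZ v hvS with h5 | h5
      · rcases Finset.mem_union.1 h5 with h6 | h6
        · exact sp_low hc hN hN2 h6
        · exact absurd h6 hvR
      · exact sp_layer h5
    · refine Or.inr (Or.inr ⟨hvS, ?_⟩)
      rintro ⟨T, hT, V, hV, hr⟩
      have _ : FiniteDimensional K T := Module.Finite.of_restrictScalars_finite ℚ K T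
      have _ : FiniteDimensional K (T.map N.val) :=
        (T.equivMap N.val).toLinearEquiv.finiteDimensional
      obtain ⟨M, hTM, hMnf, hMg, hMc⟩ := hc (T.map N.val) inferInstance
      let φ : T →ₐ[K] M := (N.val.comp T.val).codRestrict M.toSubalgebra fun y =>
        hTM ⟨(y : N), y.2, rfl⟩
      let _ : Algebra T M := (φ : T →+* M).toAlgebra
      have hφ : ∀ y : T, algebraMap T M y = φ y := fun _ => rfl
      have _ : IsScalarTower K T M := IsScalarTower.of_algebraMap_eq fun y => by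
        rw [hφ, AlgHom.commutes]
      obtain ⟨W, hW⟩ := exists_above (L := M) V
      have h5 : dn K W = v := by
        rw [← hV, ← hW]
        exact (dn_dn W).symm
      refine hMc.ram W (by rw [h5]; exact fun h6 => hvS (hCS h6)) (H30ZO.ram_up (M := T) ?_)
      rw [hW]
      exact hr

theorem el_L (hc : ConfL F C Lp x) {d : 𝓞 K} (hd : d ≠ 0)
    (hs : IsSquare (algebraMap K F (d : K))) : ∃ i, ElOk C Lp (fun u => x u i) d := by
  obtain ⟨s, hs⟩ := hs
  let T : IntermediateField K F := IntermediateField.adjoin K {s}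
  have hT : FiniteDimensional K T :=
    IntermediateField.adjoin.finiteDimensional (Algebra.IsIntegral.isIntegral s)
  obtain ⟨M, hTM, hMnf, hMg, hMc⟩ := hc T hT
  have hsM : s ∈ M := hTM (IntermediateField.subset_adjoin K _ rfl)
  exact hMc.elOk hd ⟨⟨s, hsM⟩, Subtype.ext hs⟩

/-- **The main theorem** from the configurations. -/
theorem main_L (hH : Hilb K) (hcs : ConicSplit K) (hok : C.Ok) (hc : ConfL F C Lp x)
    (hdeg : ∀ (M : IntermediateField K F) [NumberField M], IsGalois K M →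
      ∃ r : ℕ, Module.finrank K M = 2 ^ r)
    (hZ : {v : HeightOneSpectrum (𝓞 K) | Sp K F v}.Infinite)
    {W : Submodule (ZMod 2) C.V} (hW : TargetG C x W) {m : Ideal (𝓞 K)} {E : ℕ} {A₀ B₀ : 𝓞 K}
    (hcl : ClassG C Lp m E A₀ B₀) : PosP K F := by
  obtain ⟨S, c, X₀, hCS, hSZ, hc0, h⟩ := final_countG2 K hok hH hcs hW hcl hZ
    (selHyp_G hok (Lp := Lp) (x := x))
  refine ⟨S, c, X₀, hc0, fun X hX => ?_⟩
  obtain ⟨G, h1, h3, h4⟩ := h X hX
  refine ⟨G, fun p hp => ?_, h3, h4⟩
  obtain ⟨g1, g2, g3, g5, g4⟩ := h1 p hp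
  have hG := g4 S subset_rfl
  refine ⟨g1, hG.ne, ?_, ?_, ?_⟩
  · intro N hN hN2
    exact adm_L hc hdeg hCS hSZ g3 N hN hN2
  · intro L _ _ hL d hd hs
    obtain ⟨i, hi⟩ := el_L hc hd hs
    exact H30MQ.pf_of_adm g2 hd (fun P hP => relG_G (hCS.trans hP) (g4 P hP) hi) hL
  · intro L F' _ _ _ _ _ _ _ _ hL hgen M _ m hm hs
    exact fin_L hc hdeg hCS g5 hG hL hgen M m hm hs

end Conc

end H88AB
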