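import Pool.Agent.H88.AB.Df
import Pool.Agent.H73.P2.Hf

/-!
Project MP_78d38b_ABX/MG: from the local condition over `M` and the descent along `K_u → M_W` to `CondX` (no row).
-/

set_option autoImplicit false
set_option linter.unusedSectionVars false
open scoped Classical

open WithZero NumberField IsDedekindDomain H38RT
open H38T1 (SC sc scu rep eo la si Pri OddP tp unif ka)
open H76PP H36MX H76MX

namespace H88AB

theorem ev_ne {K L M LM : Type} [Field K] [Field L] [Algebra K L] [Field M] [Algebra K M] [Field LM]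
    [Algebra M LM] {a b : M} {θ : L} {θM : LM} (hM : Cub M LM a b θM) {δ : Fin 3 → K}
    (hδ : ev θ δ ≠ 0) : ev θM (fun i => algebraMap K M (δ i)) ≠ 0 := by
  intro h0
  apply hδ
  obtain ⟨e0, e1, e2⟩ := hM.li _ _ _ h0
  have hinj : ∀ y : K, algebraMap K M y = 0 → y = 0 := fun y hy =>
    (map_eq_zero (algebraMap K M)).1 hy
  unfold ev
  rw [hinj _ e0, hinj _ e1, hinj _ e2]
  simp

theorem spl_map {F F' : Type} [Field F] [Field F'] (j : F →+* F') {a b : F} {e : Fin 3 → F}
    (h : Spl a b e) : Spl (j a) (j b) (fun i => j (e i)) := by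
  have hne : ∀ {x y : F}, x ≠ y → j x ≠ j y := fun hxy h0 => hxy (j.injective h0)
  refine ⟨?_, ?_, ?_, hne h.ne01, hne h.ne02, hne h.ne12, ?_, ?_⟩
  · rw [← map_add, ← map_add, h.s1, map_zero]
  · rw [← h.s2]
    simp only [map_add, map_mul]
  · rw [← map_neg, ← h.s3]
    simp only [map_mul]
  · obtain ⟨s, hs⟩ := h.sq0
    refine ⟨j s, ?_⟩
    rw [← map_mul, ← hs]
    simp only [map_sub, map_mul]
  · obtain ⟨s, hs⟩ := h.sq2
    refine ⟨j s, ?_⟩
    rw [← map_mul, ← hs]
    simp only [map_sub, map_mul]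

/-- **The local condition over `K`.** -/
theorem condX_of {K M : Type} [Field K] [NumberField K] [Field M] [NumberField M] [Algebra K M]
    {r : ℕ} (hr : Module.finrank K M = 2 ^ r) {u : HeightOneSpectrum (𝓞 K)}
    {W : HeightOneSpectrum (𝓞 M)} (hW : dn K W = u) (j : Kv u →+* Kv W)
    (hj : ∀ x : K, j (algebraMap K (Kv u) x) = algebraMap M (Kv W) (algebraMap K M x))
    {A B : 𝓞 K} {e : Fin 3 → Kv u} {A' B' : 𝓞 M} (hA' : (A' : M) = algebraMap K M (A : K))
    (hB' : (B' : M) = algebraMap K M (B : K)) {μ : 𝓞 M} (hμ : μ ≠ 0) {xW : SC (Kv W)}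
    (hc : CondAt W A' B' (fun i => j (e i)) μ xW) {x : SC (Kv u)} (hx : Dsc j xW x) :
    CondX K M u A B e μ x := by
  intro hs L _ _ _ θ h D hD0 hDsq E hE δ hδ hsq hLC
  obtain ⟨m, hm, hmu⟩ := hDsq
  have hirr : ∀ t : K, t ^ 3 + (A : K) * t + (B : K) ≠ 0 := by
    intro t ht
    have h1 : (θ - algebraMap K L t) * (algebraMap K L ((A : K) + t ^ 2) + algebraMap K L t * θ +
        algebraMap K L 1 * θ ^ 2) = 0 := by
      have h2 := congrArg (algebraMap K L) ht
      simp only [map_add, map_mul, map_pow, map_zero, map_one] at h2 ⊢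
      linear_combination h.root - h2
    rcases mul_eq_zero.1 h1 with h2 | h2
    · have h3 := h.li (-t) 1 0 (by
        simp only [map_neg, map_one, map_zero]
        linear_combination h2)
      exact one_ne_zero h3.2.1
    · exact one_ne_zero (h.li _ _ _ h2).2.2
  obtain ⟨LM, _, _, _, θM, hM⟩ := H24PD.exists_cub (K := M)
    (H73P2.noroot (K := K) (N := M) (k := M) hr hirr)
  rw [← hA', ← hB'] at hM
  have hsM : Spl (algebraMap M (Kv W) (A' : M)) (algebraMap M (Kv W) (B' : M)) (fun i => j (e i)) := by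
    have h1 := spl_map j hs
    rw [hj, hj, ← hA', ← hB'] at h1
    exact h1
  have hDK : (D : K) ≠ 0 := fun h0 => hD0 (RingOfIntegers.coe_eq_zero_iff.1 h0)
  have hμM : (μ : M) ≠ 0 := fun h0 => hμ (RingOfIntegers.coe_eq_zero_iff.1 h0)
  have hDM : algebraMap K M (D : K) ≠ 0 := (map_ne_zero _).2 hDK
  obtain ⟨D', hD'⟩ : ∃ D' : 𝓞 M, (D' : M) = algebraMap K M (D : K) :=
    ⟨algebraMap (𝓞 K) (𝓞 M) D, rfl⟩
  have hD'0 : D' ≠ 0 := by
    rintro rfl
    apply hDM
    rw [← hD']
    exact map_zero _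
  have hDmu : ((D' * μ : 𝓞 M) : M) = E := by
    rw [hE, ← hD']
    exact map_mul (algebraMap (𝓞 M) M) D' μ
  have hE0 : E ≠ 0 := by
    rw [hE]
    exact mul_ne_zero hDM hμM
  have hEL : algebraMap M LM E ≠ 0 := (map_ne_zero _).2 hE0
  have hDsq' : ∃ m : M, m ≠ 0 ∧ W.valuation M ((D' : M) * m ^ 2 - 1) < W.valuation M 4 := by
    refine ⟨algebraMap K M m, (map_ne_zero _).2 hm, ?_⟩
    have h4 : (4 : K) ≠ 0 := by norm_num
    have h4' : (4 : M) ≠ 0 := by norm_num
    have h5 : (dn K W).valuation K (((D : K) * m ^ 2 - 1) / 4) < 1 := by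
      rw [hW, map_div₀]
      exact (div_lt_one₀ (zero_lt_iff.2 ((Valuation.ne_zero_iff _).2 h4))).2 hmu
    have h6 := val_lt h5
    rw [map_div₀, map_div₀, map_ofNat, map_sub, map_mul, map_pow, map_one, ← hD'] at h6
    exact (div_lt_one₀ (zero_lt_iff.2 ((Valuation.ne_zero_iff _).2 h4'))).1 h6
  obtain ⟨δM, hδM⟩ : ∃ δM : Fin 3 → M, δM = fun i => algebraMap K M (δ i) / E ^ (i : ℕ) := ⟨_, rfl⟩
  have hev : ev (algebraMap M LM E * θM) δM = ev θM (fun i => algebraMap K M (δ i)) := by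
    rw [hδM]
    unfold ev
    simp only [Fin.val_zero, Fin.val_one, Fin.val_two, pow_zero, div_one, pow_one, map_div₀, map_pow]
    field_simp
  have hne : ev θM (fun i => algebraMap K M (δ i)) ≠ 0 := ev_ne hM hδ
  have hnorm : IsSquare (Algebra.norm M (ev θM (fun i => algebraMap K M (δ i)))) := by
    rw [Te_norm hM]
    rw [Te_norm h] at hsq
    obtain ⟨c, hc⟩ := hsq
    refine ⟨algebraMap K M c, ?_⟩
    have h1 := Te_nf_map (algebraMap K M) (A : K) (B : K) δ
    rw [hA', hB', h1, hc, map_mul]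
  have h1 := hc hsM LM θM hM D' hD'0 hDsq' δM (by rw [hDmu, hev]; exact hne)
    (by rw [hDmu, hev]; exact hnorm) (by
      rw [hDmu, hδM, hA', hB']
      exact hLC W hW)
  rw [hDmu, hev] at h1
  have hrh : ∀ k : Fin 3, rh hM (algebraMap M (Kv W)) (hsM.root k)
      (ev θM (fun i => algebraMap K M (δ i))) = j (rh h (algebraMap K (Kv u)) (hs.root k) (ev θ δ)) := by
    intro k
    unfold ev
    simp only [map_add, map_mul, map_pow, rh_algebraMap, rh_theta, hj]
  have hlcl : ∀ k : Fin 3, lcl hM (algebraMap M (Kv W)) hsM k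
      (sc (ev θM (fun i => algebraMap K M (δ i)))) =
      scm (j : Kv u →* Kv W) (lcl h (algebraMap K (Kv u)) hs k (sc (ev θ δ))) := by
    intro k
    rw [lcl_sc _ _ _ _ hne, lcl_sc _ _ _ _ hδ, hrh, scm_sc]
    · rfl
    · exact (map_ne_zero _).2 hδ
  rw [hlcl, hlcl] at h1
  exact hx _ _ h1

end H88AB
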