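import Pool.Agent.H88.AB.Cd
import Pool.Agent.H30.MG.Lq
import Pool.Agent.H36.MX.Bc

/-!
Project MP_78d38b_ABX/MG: from the interface `LocCl` to `CondX` (no row).
-/

set_option autoImplicit false
set_option linter.unusedSectionVars false
open scoped Classical

open WithZero NumberField IsDedekindDomain H38RT
open H38T1 (SC sc scu rep eo la si Pri OddP tp unif ka)
open H76PP H36MX H76MX

namespace H88AB

/-- **The local condition over `K`.** -/
theorem condX_of_loc {K M : Type} [Field K] [NumberField K] [Field M] [NumberField M] [Algebra K M]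
    {r : ℕ} (hr : Module.finrank K M = 2 ^ r) {u : HeightOneSpectrum (𝓞 K)}
    {A B : 𝓞 K} {e : Fin 3 → Kv u} {μ : 𝓞 M} (hμ : μ ≠ 0) {x : SC (Kv u)}
    (hc : H30MG.LocCl u e (μ : M) x) : CondX K M u A B e μ x := by
  intro hs L _ _ _ θ h D hD0 hDsq E hE δ hδ hsq hLC
  obtain ⟨W, hw, hc⟩ := hc
  have hW : dn K W = u := by
    apply HeightOneSpectrum.ext
    have hmax : u.asIdeal.IsMaximal := u.isMaximal
    exact (hmax.eq_of_le (Ideal.comap_ne_top _ W.isPrime.ne_top) fun y hy => hw y hy).symm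
  have hj : ∀ x : K, hw.map (algebraMap K (Kv u) x) = algebraMap M (Kv W) (algebraMap K M x) :=
    fun x => hw.map_algebraMap x
  obtain ⟨w, hw0, hwD⟩ := Bc_sq hDsq
  have hirr : ∀ t : K, t ^ 3 + (A : K) * t + (B : K) ≠ 0 := by
    intro t ht
    have h1 : (θ - algebraMap K L t) * (algebraMap K L ((A : K) + t ^ 2) + algebraMap K L t * θ +
        algebraMap K L 1 * θ ^ 2) = 0 := by
      have h2 := congrArg (algebraMap K L) ht
      simp only [map_add, map_mul, map_pow, map_zero, map_one] at h2 ⊢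
      linear_combination h.root - h2
    rcases mul_eq_zero.1 h1 with h2 | h2
    · have h3 := h.li (-t) 1 0 (by
        simp only [map_neg, map_one, map_zero]
        linear_combination h2)
      exact one_ne_zero h3.2.1
    · exact one_ne_zero (h.li _ _ _ h2).2.2
  obtain ⟨LM, _, _, _, θM, hM⟩ := H24PD.exists_cub (K := M)
    (H73P2.noroot (K := K) (N := M) (k := M) hr hirr)
  have hsM : Spl (algebraMap M (Kv W) (algebraMap K M (A : K)))
      (algebraMap M (Kv W) (algebraMap K M (B : K))) (fun i => hw.map (e i)) := by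
    have h1 := spl_map hw.map hs
    rw [hj, hj] at h1
    exact h1
  have hDK : (D : K) ≠ 0 := fun h0 => hD0 (RingOfIntegers.coe_eq_zero_iff.1 h0)
  have hμM : (μ : M) ≠ 0 := fun h0 => hμ (RingOfIntegers.coe_eq_zero_iff.1 h0)
  have hDM : algebraMap K M (D : K) ≠ 0 := (map_ne_zero _).2 hDK
  have hE0 : E ≠ 0 := by
    rw [hE]
    exact mul_ne_zero hDM hμM
  have hEL : algebraMap M LM E ≠ 0 := (map_ne_zero _).2 hE0
  obtain ⟨δM, hδM⟩ : ∃ δM : Fin 3 → M, δM = fun i => algebraMap K M (δ i) / E ^ (i : ℕ) := ⟨_, rfl⟩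
  have hev : ev (algebraMap M LM E * θM) δM = ev θM (fun i => algebraMap K M (δ i)) := by
    rw [hδM]
    unfold ev
    simp only [Fin.val_zero, Fin.val_one, Fin.val_two, pow_zero, div_one, pow_one, map_div₀, map_pow]
    field_simp
  have hne : ev θM (fun i => algebraMap K M (δ i)) ≠ 0 := ev_ne hM hδ
  obtain ⟨z, hz, hzsq, hl⟩ := kum_Z hM (algebraMap M (Kv W)) hsM hE0 (d := δM)
    (by rw [hev]; exact hne) (by
      rw [hδM]
      exact hLC W hW)
  rw [hev] at hl
  have hrh : ∀ k : Fin 3, rh hM (algebraMap M (Kv W)) (hsM.root k)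
      (ev θM (fun i => algebraMap K M (δ i))) =
      hw.map (rh h (algebraMap K (Kv u)) (hs.root k) (ev θ δ)) := by
    intro k
    unfold ev
    simp only [map_add, map_mul, map_pow, rh_algebraMap, rh_theta, hj]
  have hl' : ∀ k : Fin 3, sc (hw.map (rh h (algebraMap K (Kv u)) (hs.root k) (ev θ δ))) =
      sc (algebraMap M (Kv W) E * (z - hw.map (e k))) := by
    intro k
    rw [← hl k, lcl_sc _ _ _ _ hne, hrh]
  have h0 : ∀ k : Fin 3, rh h (algebraMap K (Kv u)) (hs.root k) (ev θ δ) ≠ 0 := fun k =>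
    (map_ne_zero _).2 hδ
  rw [lcl_sc _ _ _ _ hδ, lcl_sc _ _ _ _ hδ]
  refine hc (algebraMap M (Kv W) E) z ((map_ne_zero _).2 hE0) ?_ hz hzsq _ _ (h0 0) (h0 2) (hl' 0)
    (hl' 2)
  refine ⟨hw.map w * algebraMap M (Kv W) (μ : M), ?_⟩
  rw [hE, map_mul, ← hj, hwD, map_pow]
  ring

end H88AB
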