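import Pool.Agent.H88.AB.Gs
import Pool.Agent.H76.MX.Rl
import Pool.Agent.H73.P2.Rl
import Pool.Agent.H36.MT.Eq
import Pool.Agent.H76.MQ.Sc
import Pool.Agent.H73.P2.Os
import Pool.Agent.H36.AB.Ev

/-!
Project MP_78d38b_ABX/MG: the condition `SelHyp.main` for a pair `(M, μ)` (no row).
-/

set_option autoImplicit false
set_option linter.unusedSectionVars false
open scoped Classical

open WithZero NumberField IsDedekindDomain H38RT
open H38T1 (SC sc scu rep eo la si Pri OddP tp unif ka)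
open H76PP H36MX H76MQ H76MX H73P2

namespace H88AB

/-- `NiceAt` for the twist by an element of even order. -/
theorem nice_mul {K : Type} [Field K] [NumberField K] {a b : K} {v : HeightOneSpectrum (𝓞 K)}
    (h : NiceAt v a b) {D : K} (hDne : D ≠ 0) (he : Even (ord (v.valuation K) D)) :
    NiceAt v (D ^ 2 * a) (D ^ 3 * b) := by
  obtain ⟨c₁, a', b', hc₁, ha, hb, ha', hb', hΔ⟩ := h
  obtain ⟨j, hj⟩ := he
  have hvD : v.valuation K D = exp (-(j + j)) := by
    rw [Ta_V_eq (V := v.valuation K) hDne, hj]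
  have hπ := H38T1.unif_spec (K := K) v
  have hπ0 : H38T1.unif (K := K) v ≠ 0 := by
    intro h
    rw [h, map_zero] at hπ
    exact exp_ne_zero hπ.symm
  have hc0 : (H38T1.unif (K := K) v) ^ j ≠ 0 := zpow_ne_zero _ hπ0
  have hvc : v.valuation K ((H38T1.unif (K := K) v) ^ j) = exp (-j) := by
    rw [map_zpow₀, hπ, ← exp_zsmul]
    congr 1
    simp
  obtain ⟨c, hc⟩ : ∃ c : K, c = (H38T1.unif (K := K) v) ^ j := ⟨_, rfl⟩
  rw [← hc] at hc0 hvc
  obtain ⟨u, hu⟩ : ∃ u : K, u = D / c ^ 2 := ⟨_, rfl⟩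
  have hDu : D = c ^ 2 * u := by
    rw [hu]
    field_simp
  have hvu : v.valuation K u = 1 := by
    rw [hu, map_div₀, map_pow, hvD, hvc, ← exp_nsmul, ← exp_sub, ← exp_zero]
    congr 1
    simp
    ring
  refine ⟨c * c₁, u ^ 2 * a', u ^ 3 * b', mul_ne_zero hc0 hc₁, ?_, ?_, ?_, ?_, ?_⟩
  · rw [hDu, ha]; ring
  · rw [hDu, hb]; ring
  · rw [map_mul, map_pow, hvu, one_pow, one_mul]; exact ha'
  · rw [map_mul, map_pow, hvu, one_pow, one_mul]; exact hb'
  · have h1 : 4 * (u ^ 2 * a') ^ 3 + 27 * (u ^ 3 * b') ^ 2 =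
        u ^ 6 * (4 * a' ^ 3 + 27 * b' ^ 2) := by
      ring
    rw [h1, map_mul, map_pow, hvu, one_pow, one_mul]
    exact hΔ

/-- Evenness over `M` at an unramified place at which the order of `μ` is even. -/
theorem even_M {K M LM : Type} [Field K] [NumberField K] [Field M] [NumberField M] [Algebra K M]
    [Field LM] [NumberField LM] [Algebra M LM] {a b : K} {θM : LM}
    (hM : Cub M LM (algebraMap K M a) (algebraMap K M b) θM) (W' : HeightOneSpectrum (𝓞 LM))
    (hnr : ¬ H73P2.Ram K (dn M W')) (hN : NiceAt (dn K (dn M W')) a b) {μ : M} (hμ : μ ≠ 0)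
    (hμe : Even (ord ((dn M W').valuation M) μ)) {δ : Fin 3 → M} (hδ : ev θM δ ≠ 0)
    (hLC : LC (algebraMap M ((dn M W').adicCompletion M)) (μ ^ 2 * algebraMap K M a)
      (μ ^ 3 * algebraMap K M b) (fun i => δ i / μ ^ (i : ℕ))) : eo W' (sc (ev θM δ)) = 0 := by
  have hμL : algebraMap M LM μ ≠ 0 := (map_ne_zero _).2 hμ
  have h1 := hM.twist (D := μ) hμ
  have h2 : NiceAt (dn M W') (algebraMap K M a) (algebraMap K M b) :=
    NiceAt.up (fun x hx => unram_ord hnr hx) hN
  have hev : ev (algebraMap M LM μ * θM) (fun i => δ i / μ ^ (i : ℕ)) = ev θM δ := by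
    unfold ev
    simp only [Fin.val_zero, Fin.val_one, Fin.val_two, pow_zero, div_one, pow_one, map_div₀, map_pow]
    field_simp
  rw [← hev]
  exact even_nice ordSub h1 W' (nice_mul h2 hμ hμe) (by rw [hev]; exact hδ) hLC

/-- The local condition at a place of `K` at which `M` splits and `μ` becomes a square. -/
theorem lc_T {K M : Type} [Field K] [NumberField K] [Field M] [NumberField M] [Algebra K M] {a b : K}
    {μ : M} (hμ : μ ≠ 0) {δ : Fin 3 → K}
    (hL : LCE M (algebraMap K M a) (algebraMap K M b) μ (fun i => algebraMap K M (δ i)))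
    (v : HeightOneSpectrum (𝓞 K)) {ι : M →+* v.adicCompletion K}
    (hι : ∀ x : K, ι (algebraMap K M x) = algebraMap K (v.adicCompletion K) x)
    (hsq : IsSquare (ι μ)) : LC (algebraMap K (v.adicCompletion K)) a b δ := by
  obtain ⟨s, hs⟩ := hsq
  have hs0 : s ≠ 0 := by
    rintro rfl
    rw [mul_zero] at hs
    exact ((map_ne_zero ι).2 hμ) hs
  have h1 := LC_of_places hL.1 v ι hι
  refine LC_sc ι (algebraMap K (v.adicCompletion K)) (c := s⁻¹) (inv_ne_zero hs0) ?_ ?_ ?_ h1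
  · rw [map_mul, map_pow, hι, hs]
    field_simp
  · rw [map_mul, map_pow, hι, hs]
    field_simp
  · intro j
    rw [map_div₀, map_pow, hι, hs, inv_pow]
    field_simp
    ring

theorem Cub_irr {K L : Type} [Field K] [Field L] [Algebra K L] {a b : K} {θ : L}
    (h : Cub K L a b θ) (t : K) : t ^ 3 + a * t + b ≠ 0 := by
  intro ht
  have h1 : (θ - algebraMap K L t) * (algebraMap K L (a + t ^ 2) + algebraMap K L t * θ +
      algebraMap K L 1 * θ ^ 2) = 0 := by
    have h2 := congrArg (algebraMap K L) ht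
    simp only [map_add, map_mul, map_pow, map_zero, map_one] at h2 ⊢
    linear_combination h.root - h2
  rcases mul_eq_zero.1 h1 with h2 | h2
  · have h3 := h.li (-t) 1 0 (by
      simp only [map_neg, map_one, map_zero]
      linear_combination h2)
    exact one_ne_zero h3.2.1
  · exact one_ne_zero (h.li _ _ _ h2).2.2

/-- **The conditions of a pair `(M, μ)`** (`SelHyp.main`). -/
theorem selX {K M : Type} [Field K] [NumberField K] [Field M] [NumberField M] [Algebra K M]
    [IsGalois K M] {r : ℕ} (hr : Module.finrank K M = 2 ^ r) {μ : 𝓞 M} (hμ : μ ≠ 0)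
    {C : CfgX K} (hC : C.Ok) {q₀ : HeightOneSpectrum (𝓞 K)} (hq : q₀ ∉ C.S)
    {T : Finset (HeightOneSpectrum (𝓞 K))} (hT : ∀ v ∈ T, v ∉ C.S ∧ v ≠ q₀)
    {A B : 𝓞 K} {e : (u : HeightOneSpectrum (𝓞 K)) → Fin 3 → Kv u} (hF : FamX C q₀ T A B e)
    {L : Type} [Field L] [NumberField L] [Algebra K L] {θ : L} (hR : HR2 K L A B θ)
    (Dt : XData C T A B e θ) {J : Finset (HeightOneSpectrum (𝓞 K))} (hJT : J ⊆ T) {D : 𝓞 K}
    (hD : H36MT.TwS C.S q₀ J (D : K))
    (hbad : ∀ V : HeightOneSpectrum (𝓞 M), dn K V ∉ C.S → (Ram K V ∨ eo V (sc (μ : M)) ≠ 0) →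
      NoRootAt (dn K V) ((D : K) ^ 2 * A) ((D : K) ^ 3 * B))
    (hJs : ∀ v ∈ J, ∃ ι : M →+* v.adicCompletion K,
      (∀ x : K, ι (algebraMap K M x) = algebraMap K (v.adicCompletion K) x) ∧ IsSquare (ι (μ : M)))
    {x : (u : HeightOneSpectrum (𝓞 K)) → SC (Kv u)} (hx : ∀ u ∈ C.Z, CondX K M u A B (e u) μ (x u))
    {δ : Fin 3 → K} (hδ : ev (algebraMap K L (D : K) * θ) δ ≠ 0)
    (hsq : IsSquare (Algebra.norm K (ev (algebraMap K L (D : K) * θ) δ)))
    (hL : LCE M (algebraMap K M ((D : K) ^ 2 * A)) (algebraMap K M ((D : K) ^ 3 * B)) (μ : M)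
      (fun i => algebraMap K M (δ i))) :
    Dt.X J (sc (ev (algebraMap K L (D : K) * θ) δ)) ∧
      ∀ u : {u // u ∈ C.Z}, LW (x u.1) (Dt.loc (sc (ev (algebraMap K L (D : K) * θ) δ)) u).1
        (Dt.loc (sc (ev (algebraMap K L (D : K) * θ) δ)) u).2 := by
  have h := Dt.h
  have hDK : (D : K) ≠ 0 := hD.ne
  have hDd : D ≠ 0 := fun h0 => hDK (RingOfIntegers.coe_eq_zero_iff.2 h0)
  have hμM : (μ : M) ≠ 0 := fun h0 => hμ (RingOfIntegers.coe_eq_zero_iff.1 h0)
  have hDL : algebraMap K L (D : K) ≠ 0 := (map_ne_zero _).2 hDK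
  have hDM : algebraMap K M (D : K) ≠ 0 := (map_ne_zero _).2 hDK
  have hDh : Cub K L ((D : K) ^ 2 * A) ((D : K) ^ 3 * B) (algebraMap K L (D : K) * θ) :=
    Cub.twist h hDK
  have hirr : ∀ t : K, t ^ 3 + ((D : K) ^ 2 * (A : K)) * t + (D : K) ^ 3 * (B : K) ≠ 0 :=
    Cub_irr hDh
  refine ⟨⟨mem_HH.2 ⟨?_, ?_⟩, ?_⟩, ?_⟩
  · rw [scm_sc _ hδ]
    exact (H38T1.sc_eq_zero (scm_ne _ hδ)).2 hsq
  · intro w hw
    have hwS : dn K w ∉ C.S := fun h1 => hw (Finset.mem_union_left _ h1)
    have hwJ : dn K w ∉ J := fun h1 => hw (Finset.mem_union_right _ h1)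
    by_cases hwq : dn K w = q₀
    · refine even_unique h w (noRootAt_of ?_) hδ hsq
      rw [hwq]
      exact hF.irr
    · by_cases hb : ∃ V : HeightOneSpectrum (𝓞 M), dn K V = dn K w ∧
        (Ram K V ∨ eo V (sc (μ : M)) ≠ 0)
      · obtain ⟨V, hV, hVb⟩ := hb
        refine even_unique hDh w ?_ hδ hsq
        rw [← hV]
        exact hbad V (by rw [hV]; exact hwS) hVb
      · push Not at hb
        obtain ⟨LM, _, _, _, θM, hM⟩ := H24PD.exists_cub (K := M)
          (noroot (K := K) (N := M) (k := M) hr hirr)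
        refine even_down hr hirr (v := dn K w) (Sb_odd (Rl_six hC hwS)) (fun V hV => (hb V hV).1) hDh
          hM hδ (fun W' hW' => ?_) w rfl
        refine even_M hM W' (hb _ hW').1 ?_ hμM ?_ ?_ (hL.1 _)
        · rw [hW']
          exact Sc_nice (hF.sqf _ hwS) hDK (hD.even _ hwS hwJ hwq)
        · have h1 := (hb _ hW').2
          rw [H38T1.eo_sc hμM] at h1
          exact (ZMod.intCast_eq_zero_iff_even).1 h1
        · intro h0
          apply hδ
          obtain ⟨e0, e1, e2⟩ := hM.li _ _ _ h0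
          have hinj : ∀ y : K, algebraMap K M y = 0 → y = 0 := fun y hy =>
            (map_eq_zero (algebraMap K M)).1 hy
          unfold ev
          rw [hinj _ e0, hinj _ e1, hinj _ e2]
          simp
  · intro v hv
    obtain ⟨hvS, hvq⟩ := hT v (hJT hv)
    obtain ⟨ι, hι, hιs⟩ := hJs v hv
    refine kum_T h hR (Sb_odd (Rl_six hC hvS)) (hF.sqf v hvS) (Dt.hT v (hJT hv)) hDd ?_
      hδ hsq (lc_T hμM hL v hι hιs)
    exact Sb_eo_odd hDK (hD.odd v hv)
  · intro u
    rw [Dt.loc_apply]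
    have hev : ev θ (fun i => δ i * (D : K) ^ (i : ℕ)) = ev (algebraMap K L (D : K) * θ) δ := by
      unfold ev
      simp only [Fin.val_zero, Fin.val_one, Fin.val_two, pow_zero, mul_one, pow_one, map_mul, map_pow]
      ring
    have h1 := hx u.1 u.2 (Dt.hs u.1 u.2) L θ Dt.h D hDd (hD.loc u.1 (Finset.mem_union_left _ u.2))
      (algebraMap K M (D : K) * (μ : M)) rfl (fun i => δ i * (D : K) ^ (i : ℕ))
      (by rw [hev]; exact hδ) (by rw [hev]; exact hsq) (fun W _ => ?_)
    · rw [hev] at h1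
      exact h1
    · have h2 := hL.1 W
      have e1 : (algebraMap K M (D : K) * (μ : M)) ^ 2 * algebraMap K M (A : K) =
          (μ : M) ^ 2 * algebraMap K M ((D : K) ^ 2 * A) := by
        rw [map_mul, map_pow]
        ring
      have e2 : (algebraMap K M (D : K) * (μ : M)) ^ 3 * algebraMap K M (B : K) =
          (μ : M) ^ 3 * algebraMap K M ((D : K) ^ 3 * B) := by
        rw [map_mul, map_pow]
        ring
      have e3 : (fun i : Fin 3 => algebraMap K M (δ i * (D : K) ^ (i : ℕ)) /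
          (algebraMap K M (D : K) * (μ : M)) ^ (i : ℕ)) =
          fun i : Fin 3 => algebraMap K M (δ i) / (μ : M) ^ (i : ℕ) := by
        funext i
        rw [map_mul, map_pow, mul_pow]
        field_simp
      rw [e1, e2, e3]
      exact h2

end H88AB
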