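import Pool.Agent.H88.AB.Ce
import Pool.Agent.H88.AB.Sx

/-!
Project MP_78d38b_ABX/MG: `SelHyp.main` for a pair `(M, μ)` with the interface `LocCl` (no row).
-/

set_option autoImplicit false
set_option linter.unusedSectionVars false
open scoped Classical

open WithZero NumberField IsDedekindDomain H38RT
open H38T1 (SC sc scu rep eo la si Pri OddP tp unif ka)
open H76PP H36MX H76MQ H76MX H73P2

namespace H88AB

/-- The local conditions of the twist by `μ` in terms of an integral multiple `c^2 μ`. -/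
theorem lce_scale {M : Type} [Field M] [NumberField M] {A B μ c : M} (hc : c ≠ 0) {δ : Fin 3 → M}
    (h : LCE M A B μ δ) : LCE M A B (c ^ 2 * μ) δ := by
  have key : ∀ {F : Type} [Field F] (i : M →+* F),
      LC i (μ ^ 2 * A) (μ ^ 3 * B) (fun j => δ j / μ ^ (j : ℕ)) →
      LC i ((c ^ 2 * μ) ^ 2 * A) ((c ^ 2 * μ) ^ 3 * B) (fun j => δ j / (c ^ 2 * μ) ^ (j : ℕ)) := by
    intro F _ i hL
    have hc0 : i c ≠ 0 := (map_ne_zero i).2 hc
    refine LC_sc i i (c := i c) hc0 ?_ ?_ ?_ hL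
    · simp only [map_mul, map_pow]
      ring
    · simp only [map_mul, map_pow]
      ring
    · intro j
      simp only [map_div₀, map_mul, map_pow, mul_pow]
      rw [← pow_mul, div_div, mul_comm (i μ ^ (j : ℕ))]
  exact ⟨fun W => key _ (h.1 W), fun s => key s (h.2 s)⟩

/-- **The conditions of a pair `(M, μ)`**, with the interface `LocCl`. -/
theorem selL {K M : Type} [Field K] [NumberField K] [Field M] [NumberField M] [Algebra K M]
    [IsGalois K M] {r : ℕ} (hr : Module.finrank K M = 2 ^ r) {μ : M} (hμ : μ ≠ 0)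
    {C : CfgX K} (hC : C.Ok) {q₀ : HeightOneSpectrum (𝓞 K)} (hq : q₀ ∉ C.S)
    {T : Finset (HeightOneSpectrum (𝓞 K))} (hT : ∀ v ∈ T, v ∉ C.S ∧ v ≠ q₀)
    {A B : 𝓞 K} {e : (u : HeightOneSpectrum (𝓞 K)) → Fin 3 → Kv u} (hF : FamX C q₀ T A B e)
    {L : Type} [Field L] [NumberField L] [Algebra K L] {θ : L} (hR : HR2 K L A B θ)
    (Dt : XData C T A B e θ) {J : Finset (HeightOneSpectrum (𝓞 K))} (hJT : J ⊆ T) {D : 𝓞 K}
    (hD : H36MT.TwS C.S q₀ J (D : K))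
    (hbad : ∀ V : HeightOneSpectrum (𝓞 M), dn K V ∉ C.S → (Ram K V ∨ eo V (sc μ) ≠ 0) →
      ∀ t : 𝓞 K, t ^ 3 + D ^ 2 * A * t + D ^ 3 * B ∉ (dn K V).asIdeal)
    (hJs : ∀ v ∈ J, ∃ ι : M →+* v.adicCompletion K,
      (∀ x : K, ι (algebraMap K M x) = algebraMap K (v.adicCompletion K) x) ∧ IsSquare (ι μ))
    {x : (u : HeightOneSpectrum (𝓞 K)) → SC (Kv u)}
    (hx : ∀ u ∈ C.Z, H30MG.LocCl u (e u) μ (x u))
    {δ : Fin 3 → K} (hδ : ev (algebraMap K L (D : K) * θ) δ ≠ 0)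
    (hsq : IsSquare (Algebra.norm K (ev (algebraMap K L (D : K) * θ) δ)))
    (hL : LCE M (algebraMap K M ((D ^ 2 * A : 𝓞 K) : K)) (algebraMap K M ((D ^ 3 * B : 𝓞 K) : K)) μ
      (fun i => algebraMap K M (δ i))) :
    Dt.X J (sc (ev (algebraMap K L (D : K) * θ) δ)) ∧
      ∀ u : {u // u ∈ C.Z}, LW (x u.1) (Dt.loc (sc (ev (algebraMap K L (D : K) * θ) δ)) u).1
        (Dt.loc (sc (ev (algebraMap K L (D : K) * θ) δ)) u).2 := by
  -- an integral multiple of `μ`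
  obtain ⟨c, μ', hc, hμ'⟩ : ∃ (c : M) (μ' : 𝓞 M), c ≠ 0 ∧ (μ' : M) = c ^ 2 * μ := by
    obtain ⟨a, b, hb, hab⟩ := IsFractionRing.div_surjective (A := 𝓞 M) μ
    have hb0 : (b : M) ≠ 0 := fun h0 => nonZeroDivisors.ne_zero hb (RingOfIntegers.coe_eq_zero_iff.1 h0)
    refine ⟨(b : M), a * b, hb0, ?_⟩
    rw [← hab]
    have e1 : ((a * b : 𝓞 M) : M) = (a : M) * (b : M) := map_mul _ _ _
    rw [e1]
    change (a : M) * (b : M) = (b : M) ^ 2 * ((a : M) / (b : M))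
    field_simp
  have hμ'0 : μ' ≠ 0 := by
    rintro rfl
    have h1 : ((0 : 𝓞 M) : M) = 0 := map_zero _
    rw [h1] at hμ'
    exact (mul_ne_zero (pow_ne_zero 2 hc) hμ) hμ'.symm
  have hsc : (sc (μ' : M) : SC M) = sc μ := by
    rw [hμ', H38T1.sc_mul (pow_ne_zero 2 hc) hμ,
      (H38T1.sc_eq_zero (pow_ne_zero 2 hc)).2 ⟨c, sq c⟩, zero_add]
  have e1 : ((D ^ 2 * A : 𝓞 K) : K) = (D : K) ^ 2 * (A : K) := by push_cast; rfl
  have e2 : ((D ^ 3 * B : 𝓞 K) : K) = (D : K) ^ 3 * (B : K) := by push_cast; rfl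
  refine selX hr hμ'0 hC hq hT hF hR Dt hJT hD ?_ ?_ ?_ hδ hsq ?_
  · intro V hV hb
    rw [hsc] at hb
    rw [← e1, ← e2]
    exact noRootAt_of (hbad V hV hb)
  · intro v hv
    obtain ⟨ι, hι, s, hs⟩ := hJs v hv
    refine ⟨ι, hι, ι c * s, ?_⟩
    rw [hμ', map_mul, map_pow, hs]
    ring
  · intro u hu
    refine condX_of_loc hr hμ'0 ?_
    obtain ⟨w, hw, h⟩ := hx u hu
    refine ⟨w, hw, fun E z hE hsE => h E z hE ?_⟩
    obtain ⟨s, hs⟩ := hsE
    have hc0 : algebraMap M (Kv w) c ≠ 0 := (map_ne_zero _).2 hc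
    refine ⟨s / algebraMap M (Kv w) c, ?_⟩
    rw [hμ', map_mul, map_pow] at hs
    field_simp
    linear_combination hs
  · rw [← e1, ← e2, hμ']
    exact lce_scale hc hL

end H88AB
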