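import Pool.Agent.H76.MX.Df
import Pool.Agent.H36.O2.Df

/-!
Definitions for the project MP_78d38b_ABX (/team-store/H88_ABX.md; no row).
-/

set_option autoImplicit false
set_option linter.unusedSectionVars false
open scoped Classical

open WithZero NumberField IsDedekindDomain H38RT
open H38T1 (SC sc scu rep eo la si Pri OddP tp unif ka)
open H76PP H36MX H76MX

namespace H88AB

/-- The local conditions descend along `j`. -/
def Dsc {F F' : Type} [Field F] [Field F'] (j : F →+* F') (x' : SC F') (x : SC F) : Prop :=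
  ∀ y0 y2 : SC F, LW x' (scm (j : F →* F') y0) (scm (j : F →* F') y2) → LW x y0 y2

/-- The Hilbert symbols of all completions are bilinear and nondegenerate (proved in H36/MX). -/
def AllHF : Prop :=
  ∀ (k : Type) [Field k] [NumberField k] (v : HeightOneSpectrum (𝓞 k)), HF (v.adicCompletion k)

/-- The local conditions of the twist by `E`, for coordinates with respect to `θ`, at all places. -/
def LCE (M : Type) [Field M] [NumberField M] (A B E : M) (δ : Fin 3 → M) : Prop :=
  (∀ W : HeightOneSpectrum (𝓞 M), LC (algebraMap M (W.adicCompletion M)) (E ^ 2 * A) (E ^ 3 * B)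
    (fun i => δ i / E ^ (i : ℕ))) ∧
  ∀ s : M →+* ℝ, LC s (E ^ 2 * A) (E ^ 3 * B) (fun i => δ i / E ^ (i : ℕ))

/-- For a class over `K`: the local conditions of the twist by `D * d` at the places of `M` above `u`, where `D` is
a local square at `u`, are contained in `LW x`. -/
def CondX (K M : Type) [Field K] [NumberField K] [Field M] [NumberField M] [Algebra K M]
    (u : HeightOneSpectrum (𝓞 K)) (A B : 𝓞 K) (e : Fin 3 → Kv u) (d : 𝓞 M) (x : SC (Kv u)) : Prop :=
  ∀ (hs : Spl (algebraMap K (Kv u) (A : K)) (algebraMap K (Kv u) (B : K)) e)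
    (L : Type) [Field L] [NumberField L] [Algebra K L] (θ : L) (h : Cub K L (A : K) (B : K) θ)
    (D : 𝓞 K), D ≠ 0 →
    (∃ m : K, m ≠ 0 ∧ u.valuation K ((D : K) * m ^ 2 - 1) < u.valuation K 4) →
    ∀ (E : M), E = algebraMap K M (D : K) * (d : M) →
    ∀ δ : Fin 3 → K, ev θ δ ≠ 0 → IsSquare (Algebra.norm K (ev θ δ)) →
      (∀ W : HeightOneSpectrum (𝓞 M), dn K W = u →
        LC (algebraMap M (W.adicCompletion M)) (E ^ 2 * algebraMap K M (A : K))
          (E ^ 3 * algebraMap K M (B : K)) (fun i => algebraMap K M (δ i) / E ^ (i : ℕ))) →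
      LW x (lcl h (algebraMap K (Kv u)) hs 0 (sc (ev θ δ)))
        (lcl h (algebraMap K (Kv u)) hs 2 (sc (ev θ δ)))

/-- The class of `d` modulo squares is fixed by the automorphisms of `M / K`. -/
def Stw (K : Type) {M : Type} [Field K] [Field M] [Algebra K M] (d : M) : Prop :=
  ∀ g : M ≃ₐ[K] M, ∃ z : M, z ≠ 0 ∧ g d = d * z ^ 2

end H88AB
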