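import Pool.Agent.H73.P2.Ch

/-!
Project MP_78d38b_ABX: fixed classes for a Galois extension `M / K` of two-power degree, for an abstract
predicate (compare `H73P2.chain` and `H73P2.quad_step`).
-/

set_option autoImplicit false
set_option linter.unusedSectionVars false
open scoped Classical

open WithZero NumberField IsDedekindDomain H38RT
open H38T1 (SC sc scu rep eo la si Pri OddP tp unif)
open H76PP H73P2

namespace H88AB

section Step

variable {K k k' M : Type} [Field K] [NumberField K] [Field k] [NumberField k] [Field k']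
  [NumberField k'] [Field M] [NumberField M] [Algebra K k] [Algebra K k'] [Algebra k k']
  [IsScalarTower K k k'] [Algebra K M] [Algebra k M] [Algebra k' M] [IsScalarTower K k M]
  [IsScalarTower K k' M] [IsScalarTower k k' M] [IsGalois K M]

/-- An automorphism of the intermediate field extends. -/
theorem ext_aut (τ : k' ≃ₐ[k] k') : ∃ g : M ≃ₐ[K] M, ∀ x : k', g (algebraMap k' M x) =
    algebraMap k' M (τ x) := by
  have _ : FiniteDimensional K M := Module.Finite.of_restrictScalars_finite ℚ K M
  obtain ⟨J, hJ⟩ := exists_ext (K := K) (N := M) (F := M) (k := k') (AlgHom.id K M)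
    ((IsScalarTower.toAlgHom K k' M).comp ((τ.restrictScalars K : k' ≃ₐ[K] k') : k' →ₐ[K] k'))
  exact ⟨AlgEquiv.ofBijective J (Algebra.IsAlgebraic.algHom_bijective J), hJ⟩

theorem fd_step (two : Module.finrank k k' = 2) {a b : K} (P : (Fin 3 → M) → Prop)
    (hmul : ∀ d₁ d₂, P d₁ → P d₂ → P (m3 (algebraMap K M a) (algebraMap K M b) d₁ d₂))
    (hsq : ∀ d z, P d → P (m3 (algebraMap K M a) (algebraMap K M b) d
      (m3 (algebraMap K M a) (algebraMap K M b) z z)))
    (hgal : ∀ (g : M ≃ₐ[K] M) (d : Fin 3 → M), P d → P (fun i => g (d i)))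
    (hT : ∀ (L : Type) [Field L] [NumberField L] [Algebra k L] (θ : L),
      Cub k L (algebraMap K k a) (algebraMap K k b) θ → ∀ d : Fin 3 → k, ev θ d ≠ 0 →
      IsSquare (Algebra.norm k (ev θ d)) → P (fun i => algebraMap k M (d i)) → IsSquare (ev θ d))
    (L' : Type) [Field L'] [NumberField L'] [Algebra k' L'] (θ' : L')
    (h' : Cub k' L' (algebraMap K k' a) (algebraMap K k' b) θ') (d : Fin 3 → k')
    (hd0 : ev θ' d ≠ 0) (hN : IsSquare (Algebra.norm k' (ev θ' d)))
    (hP : P (fun i => algebraMap k' M (d i))) : IsSquare (ev θ' d) := by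
  have hab : ∀ x : K, algebraMap K k' x = algebraMap k k' (algebraMap K k x) :=
    IsScalarTower.algebraMap_apply K k k'
  have hM : ∀ x : k, algebraMap k' M (algebraMap k k' x) = algebraMap k M x := fun x =>
    (IsScalarTower.algebraMap_apply k k' M x).symm
  have hMK : ∀ x : K, algebraMap k' M (algebraMap K k' x) = algebraMap K M x := fun x =>
    (IsScalarTower.algebraMap_apply K k' M x).symm
  let _ : Algebra k L' := ((algebraMap k' L').comp (algebraMap k k')).toAlgebra
  have _ : IsScalarTower k k' L' := IsScalarTower.of_algebraMap_eq fun _ => rfl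
  have h'' : Cub k' L' (algebraMap k k' (algebraMap K k a)) (algebraMap k k' (algebraMap K k b)) θ' := by
    rw [← hab, ← hab]
    exact h'
  obtain ⟨L, _, _, _, _, _, θ, hc, hθ⟩ := exists_sub h''
  have Q : QS k L k' L' (algebraMap K k a) (algebraMap K k b) θ θ' := ⟨two, hc, h'', hθ⟩
  have f2 := Q.fin2
  obtain ⟨τ, σ, hσ, hτ⟩ := Q.sigma f2
  obtain ⟨g, hg⟩ := ext_aut (K := K) (M := M) τ
  set x : L' := ev θ' d with hx
  have hn0 : Algebra.norm L x ≠ 0 := by
    rw [Ne, Algebra.norm_eq_zero_iff]
    exact hd0
  -- multiplication of coordinates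
  have hm3 : ∀ d₁ d₂ : Fin 3 → k', (fun i => algebraMap k' M (m3 (algebraMap K k' a)
      (algebraMap K k' b) d₁ d₂ i)) = m3 (algebraMap K M a) (algebraMap K M b)
      (fun i => algebraMap k' M (d₁ i)) (fun i => algebraMap k' M (d₂ i)) := by
    intro d₁ d₂
    funext i
    have h1 := Te_m3_map (algebraMap k' M) (algebraMap K k' a) (algebraMap K k' b) d₁ d₂ i
    rw [hMK, hMK] at h1
    exact h1.symm
  -- first descent
  have hsq1 : IsSquare (Algebra.norm L x) := by
    obtain ⟨e, he⟩ : ∃ e : Fin 3 → k, ev θ e = Algebra.norm L x :=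
      ⟨fun i => hc.co i (Algebra.norm L x), (hc.eq_co _).symm⟩
    have he2 := hτ d e he
    rw [← he]
    refine hT L θ hc e (by rw [he]; exact hn0) (by rw [he]; exact Q.norm_sq f2 hN) ?_
    have h1 : (fun i => algebraMap k M (e i)) = m3 (algebraMap K M a) (algebraMap K M b)
        (fun i => algebraMap k' M (d i)) (fun i => g (algebraMap k' M (d i))) := by
      have h2 : (fun i => algebraMap k M (e i)) = fun i => algebraMap k' M
          ((fun i => algebraMap k k' (e i)) i) := by
        funext i
        rw [hM]
      rw [h2, he2, ← hab, ← hab, hm3]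
      congr 1
      funext i
      exact (hg (d i)).symm
    rw [h1]
    exact hmul _ _ hP (hgal g _ hP)
  -- second descent
  obtain ⟨t, z, ht, hz, hxt, hNt⟩ := Q.core f2 hd0 hN hsq1
  have hsq2 : IsSquare t := by
    obtain ⟨e, he⟩ : ∃ e : Fin 3 → k, ev θ e = t := ⟨fun i => hc.co i t, (hc.eq_co _).symm⟩
    obtain ⟨u, hu⟩ : ∃ u : Fin 3 → k', ev θ' u = z⁻¹ := ⟨fun i => h''.co i z⁻¹, (h''.eq_co z⁻¹).symm⟩
    have he2 : (fun i => algebraMap k k' (e i)) = m3 (algebraMap K k' a) (algebraMap K k' b) d
        (m3 (algebraMap K k' a) (algebraMap K k' b) u u) := by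
      have h1 : ev θ' (fun i => algebraMap k k' (e i)) = ev θ' (m3 (algebraMap K k' a)
        (algebraMap K k' b) d (m3 (algebraMap K k' a) (algebraMap K k' b) u u)) := by
        rw [← Q.coord, he, ← Te_ev_mul h', ← Te_ev_mul h', hu, ← hx, hxt]
        field_simp
      funext i
      have h2 := h'.co_mk (fun i => algebraMap k k' (e i)) i
      have h3 := h'.co_mk (m3 (algebraMap K k' a) (algebraMap K k' b) d
        (m3 (algebraMap K k' a) (algebraMap K k' b) u u)) i
      unfold ev at h1
      rw [← h2, ← h3, h1]
    rw [← he]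
    refine hT L θ hc e (by rw [he]; exact ht) (by rw [he]; exact hNt) ?_
    have h1 : (fun i => algebraMap k M (e i)) = m3 (algebraMap K M a) (algebraMap K M b)
        (fun i => algebraMap k' M (d i)) (m3 (algebraMap K M a) (algebraMap K M b)
          (fun i => algebraMap k' M (u i)) (fun i => algebraMap k' M (u i))) := by
      have h2 : (fun i => algebraMap k M (e i)) = fun i => algebraMap k' M
          ((fun i => algebraMap k k' (e i)) i) := by
        funext i
        rw [hM]
      rw [h2, he2, hm3, hm3]
    rw [h1]
    exact hsq _ _ hP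
  rw [hxt]
  obtain ⟨c, rfl⟩ := hsq2
  exact ⟨algebraMap L L' c * z, by rw [map_mul]; ring⟩

end Step

/-- If no class over `K` which satisfies the stable condition `P` over `M` is nontrivial, then no class
over `M` is. -/
theorem fixed_class {K M : Type} [Field K] [NumberField K] [Field M] [NumberField M] [Algebra K M]
    [IsGalois K M] {r : ℕ} (hr : Module.finrank K M = 2 ^ r) {a b : K} (P : (Fin 3 → M) → Prop)
    (hmul : ∀ d₁ d₂, P d₁ → P d₂ → P (m3 (algebraMap K M a) (algebraMap K M b) d₁ d₂))
    (hsq : ∀ d z, P d → P (m3 (algebraMap K M a) (algebraMap K M b) d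
      (m3 (algebraMap K M a) (algebraMap K M b) z z)))
    (hgal : ∀ (g : M ≃ₐ[K] M) (d : Fin 3 → M), P d → P (fun i => g (d i)))
    (hT : ∀ (L : Type) [Field L] [NumberField L] [Algebra K L] (θ : L), Cub K L a b θ →
      ∀ d : Fin 3 → K, ev θ d ≠ 0 → IsSquare (Algebra.norm K (ev θ d)) →
      P (fun i => algebraMap K M (d i)) → IsSquare (ev θ d))
    (L : Type) [Field L] [NumberField L] [Algebra M L] (θ : L)
    (h : Cub M L (algebraMap K M a) (algebraMap K M b) θ) (d : Fin 3 → M)
    (hd0 : ev θ d ≠ 0) (hN : IsSquare (Algebra.norm M (ev θ d))) (hP : P d) :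
    IsSquare (ev θ d) := by
  have _ : FiniteDimensional K M := Module.Finite.of_restrictScalars_finite ℚ K M
  have key : ∀ (n : ℕ) (k : Type) [Field k] [NumberField k] [Algebra K k] [Algebra k M]
      [IsScalarTower K k M], Module.finrank K k = n →
      ∀ (L : Type) [Field L] [NumberField L] [Algebra k L] (θ : L),
      Cub k L (algebraMap K k a) (algebraMap K k b) θ → ∀ d : Fin 3 → k, ev θ d ≠ 0 →
      IsSquare (Algebra.norm k (ev θ d)) → P (fun i => algebraMap k M (d i)) →
      IsSquare (ev θ d) := by
    intro n
    induction n using Nat.strong_induction_on with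
    | _ n ih =>
      intro k _ _ _ _ _ hn
      by_cases h1 : Module.finrank K k = 1
      · -- `K → k` is bijective
        intro L _ _ _ θ h d hd0 hN hP
        have hbij : Function.Surjective (algebraMap K k) := by
          have h2 := (finrank_eq_one_iff_of_nonzero' (1 : k) one_ne_zero).1 h1
          intro y
          obtain ⟨c, hc⟩ := h2 y
          exact ⟨c, by rw [← hc, Algebra.smul_def, mul_one]⟩
        have hinj : Function.Injective (algebraMap K k) := (algebraMap K k).injective
        obtain ⟨e, he⟩ : ∃ e : Fin 3 → K, ∀ i, algebraMap K k (e i) = d i :=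
          ⟨fun i => (hbij (d i)).choose, fun i => (hbij (d i)).choose_spec⟩
        let _ : Algebra K L := ((algebraMap k L).comp (algebraMap K k)).toAlgebra
        have _ : IsScalarTower K k L := IsScalarTower.of_algebraMap_eq fun _ => rfl
        have hev : ev θ e = ev θ d := by
          unfold ev
          rw [← he, ← he, ← he, ← IsScalarTower.algebraMap_apply, ← IsScalarTower.algebraMap_apply,
            ← IsScalarTower.algebraMap_apply]
        have hcub : Cub K L a b θ := by
          refine ⟨?_, ?_, ?_⟩
          · rw [IsScalarTower.algebraMap_apply K k L, IsScalarTower.algebraMap_apply K k L b]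
            exact h.root
          · intro c₀ c₁ c₂ hc
            rw [IsScalarTower.algebraMap_apply K k L, IsScalarTower.algebraMap_apply K k L c₁,
              IsScalarTower.algebraMap_apply K k L c₂] at hc
            obtain ⟨e0, e1, e2⟩ := h.li _ _ _ hc
            exact ⟨(map_eq_zero _).1 e0, (map_eq_zero _).1 e1, (map_eq_zero _).1 e2⟩
          · intro x
            obtain ⟨c₀, c₁, c₂, hx⟩ := h.sp x
            obtain ⟨d₀, rfl⟩ := hbij c₀
            obtain ⟨d₁, rfl⟩ := hbij c₁
            obtain ⟨d₂, rfl⟩ := hbij c₂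
            refine ⟨d₀, d₁, d₂, ?_⟩
            rw [IsScalarTower.algebraMap_apply K k L, IsScalarTower.algebraMap_apply K k L d₁,
              IsScalarTower.algebraMap_apply K k L d₂]
            exact hx
        rw [← hev]
        refine hT L θ hcub e (by rw [hev]; exact hd0) ?_ ?_
        · rw [Te_norm hcub]
          obtain rfl : d = fun i => algebraMap K k (e i) := funext fun i => (he i).symm
          rw [Te_norm h, Te_nf_map] at hN
          obtain ⟨r, hr⟩ := hN
          obtain ⟨r₀, rfl⟩ := hbij r
          refine ⟨r₀, hinj ?_⟩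
          rw [hr, map_mul]
        · have h2 : (fun i => algebraMap K M (e i)) = fun i => algebraMap k M (d i) := by
            funext i
            rw [← he, ← IsScalarTower.algebraMap_apply]
          rw [h2]
          exact hP
      · obtain ⟨k₀, hk₀⟩ := exists_half (K := K) (N := M) (k' := k) hr h1
        have _ : FiniteDimensional K k := Module.Finite.of_restrictScalars_finite ℚ K k
        have _ : NumberField k₀ := NumberField.of_module_finite K k₀
        have _ : IsScalarTower k₀ k M := inferInstance
        have _ : IsScalarTower K k₀ M := IsScalarTower.of_algebraMap_eq fun x => by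
          rw [IsScalarTower.algebraMap_apply K k M, IsScalarTower.algebraMap_apply K k₀ k]
          rfl
        have hmul' := Module.finrank_mul_finrank K k₀ k
        rw [hk₀] at hmul'
        have hpos : 0 < Module.finrank K k₀ := Module.finrank_pos
        intro L _ _ _ θ h d hd0 hN hP
        exact fd_step hk₀ P hmul hsq hgal (ih (Module.finrank K k₀) (by omega) k₀ rfl) L θ h d hd0
          hN hP
  exact key (Module.finrank K M) M rfl L θ h d hd0 hN hP

end H88AB
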