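import Pool.Agent.H88.AB.Sr

/-!
Project MP_78d38b_ABX/MG: the Selmer conditions of all pairs `(M, μ)` and of the twists by elements of `K`, and their
consequences (no row).
-/

set_option autoImplicit false
set_option linter.unusedSectionVars false
open scoped Classical

open WithZero NumberField IsDedekindDomain H38RT
open H38T1 (SC sc scu rep eo la si Pri OddP tp unif ka)
open H76PP H36MX H76MQ H76MX H73P2 H76AB

namespace H88AB

variable {K : Type} [Field K] [NumberField K]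

/-- The pair `(M, μ)` has the local classes `x` at `C.Z` and is admissible for the set `P` and `(A, B)`; `Z` is the
set of the places which are allowed for twisting. -/
structure PairOk (C : CfgX K) (Lp : LPred K) (x : (u : HeightOneSpectrum (𝓞 K)) → SC (Kv u))
    (Z : Set (HeightOneSpectrum (𝓞 K))) (P : Finset (HeightOneSpectrum (𝓞 K))) (A B : 𝓞 K)
    (M : Type) [Field M] [NumberField M] [Algebra K M] (μ : M) : Prop where
  gal : IsGalois K M
  deg : ∃ r : ℕ, Module.finrank K M = 2 ^ r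
  ne : μ ≠ 0
  bad : ∀ V : HeightOneSpectrum (𝓞 M), dn K V ∉ C.S → (Ram K V ∨ eo V (sc μ) ≠ 0) →
    ∀ t : 𝓞 K, t ^ 3 + A * t + B ∉ (dn K V).asIdeal
  spl : ∀ v ∈ P, v ∈ Z → v ∉ C.S → (∀ t : 𝓞 K, t ^ 3 + A * t + B ∉ v.asIdeal) ∨
    ∃ ι : M →+* v.adicCompletion K,
      (∀ x : K, ι (algebraMap K M x) = algebraMap K (v.adicCompletion K) x) ∧ IsSquare (ι μ)
  loc : ∀ u ∈ C.Z, ∀ (A B : 𝓞 K) (e : Fin 3 → Kv u),
    Spl (algebraMap K (Kv u) (A : K)) (algebraMap K (Kv u) (B : K)) e → Lp u A B e →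
      H30MG.LocCl u e μ (x u)

/-- The element `d` of `K` has the local classes `x` at `C.Z` and even orders outside `C.S`. -/
structure ElOk (C : CfgX K) (Lp : LPred K) (x : (u : HeightOneSpectrum (𝓞 K)) → SC (Kv u))
    (d : 𝓞 K) : Prop where
  ne : d ≠ 0
  even : ∀ v : HeightOneSpectrum (𝓞 K), v ∉ C.S → eo v (sc (d : K)) = 0
  loc : ∀ u ∈ C.Z, ∀ (A B : 𝓞 K) (e : Fin 3 → Kv u),
    Spl (algebraMap K (Kv u) (A : K)) (algebraMap K (Kv u) (B : K)) e → Lp u A B e →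
      H30MG.LocCl u e (d : K) (x u)

/-- The conditions of the classes over `K`. -/
def SelG (C : CfgX K) (Lp : LPred K) {ι : Type*} (x : (u : HeightOneSpectrum (𝓞 K)) → ι → SC (Kv u))
    (Z : Set (HeightOneSpectrum (𝓞 K))) : SPred K ι := fun P i A B δ =>
  (∃ (M : Type) (_ : Field M) (_ : NumberField M) (_ : Algebra K M) (μ : M),
    PairOk C Lp (fun u => x u i) Z P A B M μ ∧
      LCE M (algebraMap K M (A : K)) (algebraMap K M (B : K)) μ (fun i => algebraMap K M (δ i))) ∨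
  ∃ d : 𝓞 K, ElOk C Lp (fun u => x u i) d ∧ SelR P d A B δ

theorem selHyp_G {C : CfgX K} (hC : C.Ok) {Lp : LPred K} {ι : Type*}
    {x : (u : HeightOneSpectrum (𝓞 K)) → ι → SC (Kv u)} {Z : Set (HeightOneSpectrum (𝓞 K))} :
    SelHyp C x Lp (SelG C Lp x Z) Z := by
  refine ⟨fun q₀ T A B e hq hqZ hT hF hLp L _ _ _ θ hR Dt J hJT D hD P hSP hTP hqP i δ hδ hsq hS => ?_⟩
  have hT' : ∀ v ∈ T, v ∉ C.S ∧ v ≠ q₀ := fun v hv => ⟨(hT v hv).1, (hT v hv).2.1⟩
  rcases hS with ⟨M, _, _, _, μ, hM, hL⟩ | ⟨d, hd, hS⟩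
  · have _ := hM.gal
    obtain ⟨r, hr⟩ := hM.deg
    refine selL hr hM.ne hC hq hT' hF hR Dt hJT hD hM.bad ?_ (x := fun u => x u i)
      (fun u hu => hM.loc u hu A B (e u) (hF.spl u hu) (hLp u hu)) hδ hsq hL
    intro v hv
    have hvT := hJT hv
    rcases hM.spl v (hTP hvT) (hT v hvT).2.2 (hT v hvT).1 with h1 | h1
    · exfalso
      obtain ⟨t, ht, -⟩ := hF.typ v hvT
      apply h1 (D * t)
      have e1 : (D * t) ^ 3 + D ^ 2 * A * (D * t) + D ^ 3 * B = D ^ 3 * (t ^ 3 + A * t + B) := by ring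
      rw [e1]
      exact Ideal.mul_mem_left _ _ ht
    · exact h1
  · exact selR hC hT' hF hR Dt hJT hD hd.ne hd.even (x := fun u => x u i)
      (fun u hu => hd.loc u hu A B (e u) (hF.spl u hu) (hLp u hu)) hSP (hJT.trans hTP) hδ hsq hS

/-- The relative conditions over `K` for the twist by `d`. -/
theorem relG_G {C : CfgX K} {Lp : LPred K} {ι : Type*}
    {x : (u : HeightOneSpectrum (𝓞 K)) → ι → SC (Kv u)} {Z : Set (HeightOneSpectrum (𝓞 K))}
    {P : Finset (HeightOneSpectrum (𝓞 K))} (hSP : C.S ⊆ P) {A B : 𝓞 K}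
    (hG : SelGood (SelG C Lp x Z) P A B) {i : ι} {d : 𝓞 K} (hd : ElOk C Lp (fun u => x u i) d) :
    H36MT.RelG K P (d ^ 2 * A) (d ^ 3 * B) := by
  have hdK : (d : K) ≠ 0 := fun h0 => hd.ne (RingOfIntegers.coe_eq_zero_iff.1 h0)
  refine relG_of hG (i := i) hd.ne (fun v hv => ?_) fun δ hδ => Or.inr ⟨d, hd, hδ⟩
  have h1 := hd.even v fun h => hv (hSP h)
  rw [H38T1.eo_sc hdK] at h1
  exact (ZMod.intCast_eq_zero_iff_even).1 h1

/-- **The pairs.** The twist by `μ` over `M` has finitely many points and trivial two-primary part. -/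
theorem triv_G {C : CfgX K} {Lp : LPred K} {ι : Type*}
    {x : (u : HeightOneSpectrum (𝓞 K)) → ι → SC (Kv u)} {Z : Set (HeightOneSpectrum (𝓞 K))}
    {P : Finset (HeightOneSpectrum (𝓞 K))} {A B : 𝓞 K}
    (hG : SelGood (SelG C Lp x Z) P A B) {i : ι}
    {M : Type} [Field M] [NumberField M] [Algebra K M] {μ : M}
    (hM : PairOk C Lp (fun u => x u i) Z P A B M μ) (hst : Stw K μ) :
    Finite (⟨0, 0, 0, μ ^ 2 * algebraMap K M (A : K), μ ^ 3 * algebraMap K M (B : K)⟩ :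
      WeierstrassCurve M).toAffine.Point ∧
    Pool.Agent.H10.Sha2Trivial M
      (⟨0, 0, 0, μ ^ 2 * algebraMap K M (A : K), μ ^ 3 * algebraMap K M (B : K)⟩ :
        WeierstrassCurve M) := by
  have _ := hM.gal
  obtain ⟨r, hr⟩ := hM.deg
  have hne : 4 * (A : K) ^ 3 + 27 * (B : K) ^ 2 ≠ 0 := by
    intro h
    apply hG.ne
    apply RingOfIntegers.coe_injective
    rw [map_zero, ← h]
    simp only [map_add, map_mul, map_pow, map_ofNat]
  have hirr : ∀ t : M, t ^ 3 + (μ ^ 2 * algebraMap K M (A : K)) * t +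
      μ ^ 3 * algebraMap K M (B : K) ≠ 0 := by
    intro t ht
    apply noroot (K := K) (N := M) (k := M) hr hG.irr (t / μ)
    have h7 : μ ^ 3 * ((t / μ) ^ 3 + algebraMap K M (A : K) * (t / μ) + algebraMap K M (B : K)) = 0 := by
      have := hM.ne
      field_simp
      linear_combination ht
    exact (mul_eq_zero.1 h7).resolve_left (pow_ne_zero 3 hM.ne)
  obtain ⟨L', _, _, _, θ', hL'⟩ := H24PD.exists_cub (K := M) hirr
  refine H24PD.descent hL' (selTriv_of hr hne hM.ne hst ?_ L' θ' hL')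
  intro L _ _ _ θ h δ hδ hsq hL
  exact hG.rel i L θ h δ hδ hsq (Or.inl ⟨M, _, _, _, μ, hM, hL⟩)

end H88AB
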