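import Pool.Agent.H88.AB.Fm
import Pool.Agent.H30.PN.Sp

/-!
Project MP_78d38b_ABX/MG: the main theorem from the configuration (no row).
-/

set_option autoImplicit false
set_option linter.unusedSectionVars false
open scoped Classical

open WithZero NumberField IsDedekindDomain H38RT
open H38T1 (SC sc scu rep eo la si Pri OddP tp unif ka)
open H76PP H36MX H76MQ H76MX H73P2 H76AB

namespace H88AB

section Fin

variable {K : Type} [Field K] [NumberField K] {F₀ : Type} [Field F₀] [NumberField F₀]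
  [Algebra K F₀] [IsGalois K F₀] {C : CfgX K} {Lp : LPred K} {ι : Type*}
  {x : (u : HeightOneSpectrum (𝓞 K)) → ι → SC (Kv u)}

/-- All number fields in `L F₀`. -/
theorem fin_layer (hc : Conf F₀ C Lp x) (hdegF : ∃ r : ℕ, Module.finrank K F₀ = 2 ^ r)
    {S : Finset (HeightOneSpectrum (𝓞 K))} (hCS : C.S ⊆ S) {p : 𝓞 K × 𝓞 K}
    (hspl : ∀ u ∈ C.Z, ∃ e : Fin 3 → Kv u,
      Spl (algebraMap K (Kv u) (p.1 : K)) (algebraMap K (Kv u) (p.2 : K)) e)
    (hG : SelGood (SelG C Lp x {v | Sp K F₀ v}) S p.1 p.2) {L F' : Type} [Field L] [Field F']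
    [Algebra K L] [Algebra K F'] [Algebra L F'] [Algebra F₀ F'] [IsScalarTower K L F']
    [IsScalarTower K F₀ F'] (hL : H30MQ.AdmM K L S p)
    (hgen : IntermediateField.adjoin L (Set.range (algebraMap F₀ F')) = ⊤) {d : 𝓞 K} (hd : d ≠ 0)
    (hs : IsSquare (algebraMap K F₀ (d : K))) (M : IntermediateField K F') [NumberField M] :
    Finite (⟨0, 0, 0, algebraMap K M ((d ^ 2 * p.1 : 𝓞 K) : K),
      algebraMap K M ((d ^ 3 * p.2 : 𝓞 K) : K)⟩ : WeierstrassCurve M).toAffine.Point ∧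
    H14T1.TwoPartFinite M (⟨0, 0, 0, algebraMap K M ((d ^ 2 * p.1 : 𝓞 K) : K),
      algebraMap K M ((d ^ 3 * p.2 : 𝓞 K) : K)⟩ : WeierstrassCurve M) := by
  have hgalL := hL.gal
  have _ : FiniteDimensional K F₀ := Module.Finite.of_restrictScalars_finite ℚ K F₀
  have _ : FiniteDimensional K M := Module.Finite.of_restrictScalars_finite ℚ K M
  obtain ⟨L0, N, hL0f, hL0n, hNf, hNn, hMN, hLN, hFN, hNle⟩ := exists_layer (K := K) hgen M
  have _ : NumberField L0 := NumberField.of_module_finite K L0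
  have _ : NumberField N := NumberField.of_module_finite K N
  have _ : IsGalois K L0 := ⟨⟩
  have _ : IsGalois K N := ⟨⟩
  let iL : L0 →+* N := ((algebraMap L F').comp (algebraMap L0 L)).codRestrict N.toSubfield
    fun y => hLN _ y.2
  let iF : F₀ →+* N := (algebraMap F₀ F').codRestrict N.toSubfield fun y => hFN y
  let iM : M →+* N := (algebraMap M F').codRestrict N.toSubfield fun y => hMN y.2
  let _ : Algebra L0 N := iL.toAlgebra
  let _ : Algebra F₀ N := iF.toAlgebra
  let _ : Algebra M N := iM.toAlgebra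
  have hLc : ∀ y : L0, ((algebraMap L0 N y : N) : F') = algebraMap L F' (y : L) := fun _ => rfl
  have hFc : ∀ y : F₀, ((algebraMap F₀ N y : N) : F') = algebraMap F₀ F' y := fun _ => rfl
  have hMc : ∀ y : M, ((algebraMap M N y : N) : F') = (y : F') := fun _ => rfl
  have hKc : ∀ y : K, ((algebraMap K N y : N) : F') = algebraMap K F' y := fun _ => rfl
  have _ : IsScalarTower K L0 N := IsScalarTower.of_algebraMap_eq fun y => Subtype.ext (by
    rw [hLc, hKc, IsScalarTower.algebraMap_apply K L F']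
    rfl)
  have _ : IsScalarTower K F₀ N := IsScalarTower.of_algebraMap_eq fun y => Subtype.ext (by
    rw [hFc, hKc, IsScalarTower.algebraMap_apply K F₀ F'])
  have _ : IsScalarTower K M N := IsScalarTower.of_algebraMap_eq fun y => Subtype.ext (by
    rw [hMc, hKc]
    rfl)
  have hg : ∀ g : N ≃ₐ[K] N, (∀ x : L0, g (algebraMap L0 N x) = algebraMap L0 N x) →
      (∀ y : F₀, g (algebraMap F₀ N y) = algebraMap F₀ N y) → g = 1 := by
    intro g h1 h2
    let E : IntermediateField K F' := (IntermediateField.fixedField (Subgroup.zpowers g)).map N.val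
    have hE : IntermediateField.adjoin K
        ((algebraMap L F') '' (L0 : Set L) ∪ Set.range (algebraMap F₀ F')) ≤ E := by
      rw [IntermediateField.adjoin_le_iff]
      have hfix : ∀ w : N, g w = w → w ∈ IntermediateField.fixedField (Subgroup.zpowers g) := by
        intro w hw
        rw [IntermediateField.mem_fixedField_iff]
        rintro f hf
        obtain ⟨n, rfl⟩ := Subgroup.mem_zpowers_iff.1 hf
        have h3 : g ∈ MulAction.stabilizer (N ≃ₐ[K] N) w := hw
        exact Subgroup.zpow_mem _ h3 n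
      rintro w (⟨y, hy, rfl⟩ | ⟨y, rfl⟩)
      · exact ⟨algebraMap L0 N ⟨y, hy⟩, hfix _ (h1 _), rfl⟩
      · exact ⟨algebraMap F₀ N y, hfix _ (h2 _), rfl⟩
    ext w
    obtain ⟨w', hw', hww⟩ := hE (hNle w.2)
    have h3 : w' = w := Subtype.ext hww
    subst h3
    rw [AlgEquiv.one_apply]
    exact congrArg Subtype.val
      ((IntermediateField.mem_fixedField_iff (Subgroup.zpowers g) w').1 hw' g
        (Subgroup.mem_zpowers g))
  obtain ⟨a, ha⟩ := hL.deg L0 inferInstance
  obtain ⟨b, hb⟩ := hdegF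
  have hN := pg_layer hc hCS hspl hG hL (L0 := L0) (N := N) hg (layer_deg ha hb hg)
  have hne : 4 * (p.1 : K) ^ 3 + 27 * (p.2 : K) ^ 2 ≠ 0 := by
    intro h
    apply hG.ne
    apply RingOfIntegers.coe_injective
    rw [map_zero, ← h]
    simp only [map_add, map_mul, map_pow, map_ofNat]
  have hdK : (d : K) ≠ 0 := fun h0 => hd (RingOfIntegers.coe_eq_zero_iff.1 h0)
  have h2 := H36MG.pg_down hne hN M (d := algebraMap K M (d : K)) ((map_ne_zero _).2 hdK) (by
    obtain ⟨s, hs⟩ := hs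
    refine ⟨algebraMap F₀ N s, ?_⟩
    rw [← IsScalarTower.algebraMap_apply K M N, IsScalarTower.algebraMap_apply K F₀ N, hs, map_mul])
  have e3 : H36MG.twM K (p.1 : K) (p.2 : K) (algebraMap K M (d : K)) =
      (⟨0, 0, 0, algebraMap K M ((d ^ 2 * p.1 : 𝓞 K) : K),
        algebraMap K M ((d ^ 3 * p.2 : 𝓞 K) : K)⟩ : WeierstrassCurve M) := by
    have e1 : ((d ^ 2 * p.1 : 𝓞 K) : K) = (d : K) ^ 2 * (p.1 : K) := by push_cast; rfl
    have e2 : ((d ^ 3 * p.2 : 𝓞 K) : K) = (d : K) ^ 3 * (p.2 : K) := by push_cast; rfl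
    unfold H36MG.twM
    rw [e1, e2, map_mul, map_mul, map_pow, map_pow]
  rw [e3] at h2
  exact h2

end Fin

/-- **The main theorem** from a configuration. -/
theorem main_conf (K : Type) [Field K] [NumberField K] (hH : Hilb K) (hcs : ConicSplit K)
    (F₀ : Type) [Field F₀] [NumberField F₀] [Algebra K F₀] (hgal : IsGalois K F₀)
    (hdeg : ∃ r : ℕ, Module.finrank K F₀ = 2 ^ r) {C : CfgX K} {Lp : LPred K} {ι : Type*}
    {x : (u : HeightOneSpectrum (𝓞 K)) → ι → SC (Kv u)} (hc : Conf F₀ C Lp x)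
    {W : Submodule (ZMod 2) C.V} (hW : TargetG C x W) {m : Ideal (𝓞 K)} {E : ℕ} {A₀ B₀ : 𝓞 K}
    (hcl : ClassG C Lp m E A₀ B₀) :
    ∃ (S : Finset (HeightOneSpectrum (𝓞 K))) (c X₀ : ℝ), 0 < c ∧ ∀ X : ℝ, X₀ ≤ X →
      ∃ G : Finset (𝓞 K × 𝓞 K),
        (∀ p ∈ G, p ∈ Bx K X ∧ 4 * p.1 ^ 3 + 27 * p.2 ^ 2 ≠ 0 ∧
          (∀ (N : IntermediateField K F₀), IsGalois K N →
            (∀ v : HeightOneSpectrum (𝓞 K), (2 : 𝓞 K) ∈ v.asIdeal → Sp K N v) →
              H30MQ.AdmM K N S p) ∧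
          (∀ (L : Type) [Field L] [Algebra K L], H30MQ.AdmM K L S p → ∀ d : 𝓞 K, d ≠ 0 →
            IsSquare (algebraMap K F₀ (d : K)) → H30ZO.PF K L (d ^ 2 * p.1, d ^ 3 * p.2)) ∧
          ∀ (L F' : Type) [Field L] [Field F'] [Algebra K L] [Algebra K F'] [Algebra L F']
            [Algebra F₀ F'] [IsScalarTower K L F'] [IsScalarTower K F₀ F'],
            H30MQ.AdmM K L S p →
            IntermediateField.adjoin L (Set.range (algebraMap F₀ F')) = ⊤ → ∀ d : 𝓞 K, d ≠ 0 →
            IsSquare (algebraMap K F₀ (d : K)) → ∀ (M : IntermediateField K F') [NumberField M],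
            Finite (⟨0, 0, 0, algebraMap K M ((d ^ 2 * p.1 : 𝓞 K) : K),
              algebraMap K M ((d ^ 3 * p.2 : 𝓞 K) : K)⟩ : WeierstrassCurve M).toAffine.Point ∧
            H14T1.TwoPartFinite M (⟨0, 0, 0, algebraMap K M ((d ^ 2 * p.1 : 𝓞 K) : K),
              algebraMap K M ((d ^ 3 * p.2 : 𝓞 K) : K)⟩ : WeierstrassCurve M)) ∧
        (∀ p ∈ G, ∀ q ∈ G, p.1 ^ 3 * q.2 ^ 2 = q.1 ^ 3 * p.2 ^ 2 → p = q) ∧
        c * ((Bx K X).ncard : ℝ) ≤ (G.card : ℝ) := by
  have hZinf : {v : HeightOneSpectrum (𝓞 K) | Sp K F₀ v}.Infinite := H30PN.split_inf K F₀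
  obtain ⟨S, c, X₀, hCS, hSZ, hc0, h⟩ := final_countG2 K hc.ok hH hcs hW hcl hZinf
    (selHyp_G hc.ok (Lp := Lp) (x := x))
  refine ⟨S, c, X₀, hc0, fun X hX => ?_⟩
  obtain ⟨G, h1, h3, h4⟩ := h X hX
  refine ⟨G, fun p hp => ?_, h3, h4⟩
  obtain ⟨g1, g2, g3, g5, g4⟩ := h1 p hp
  have hG := g4 S subset_rfl
  refine ⟨g1, hG.ne, ?_, ?_, ?_⟩
  · intro N hN hN2
    have _ : FiniteDimensional K F₀ := Module.Finite.of_restrictScalars_finite ℚ K F₀
    have _ : NumberField N := NumberField.of_module_finite K N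
    refine ⟨hN, ?_, ?_⟩
    · intro N' _ _
      obtain ⟨r, hr⟩ := hdeg
      have h5 := Module.finrank_mul_finrank K N' N
      have h6 := Module.finrank_mul_finrank K N F₀
      rw [hr] at h6
      have h7 : Module.finrank K N' ∣ 2 ^ r := by
        rw [← h6, ← h5, mul_assoc]
        exact Dvd.intro _ rfl
      obtain ⟨s, -, hs⟩ := (Nat.dvd_prime_pow Nat.prime_two).1 h7
      exact ⟨s, hs⟩
    · intro v
      by_cases hv2 : (2 : 𝓞 K) ∈ v.asIdeal
      · exact Or.inl (hN2 v hv2)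
      by_cases hvR : v ∈ C.R
      · exact Or.inr (Or.inl ⟨hv2, g3 v hvR⟩)
      by_cases hvS : v ∈ S
      · left
        rcases hSZ v hvS with h5 | h5
        · rcases Finset.mem_union.1 h5 with h6 | h6
          · exact hc.low N hN hN2 v h6
          · exact absurd h6 hvR
        · obtain ⟨ι, hι⟩ := h5
          exact ⟨ι.comp (algebraMap N F₀), fun y => by
            rw [RingHom.comp_apply, ← IsScalarTower.algebraMap_apply K N F₀, hι]⟩
      · refine Or.inr (Or.inr ⟨hvS, ?_⟩)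
        rintro ⟨N', hN', V, hV, hr⟩
        have _ : IsScalarTower K N' F₀ := IsScalarTower.of_algebraMap_eq fun y => rfl
        obtain ⟨W, hW⟩ := exists_above (L := F₀) V
        have h5 : dn K W = v := by
          rw [← hV, ← hW]
          exact (dn_dn W).symm
        refine hc.ram W (by rw [h5]; exact fun h6 => hvS (hCS h6)) (H30ZO.ram_up (M := N') ?_)
        rw [hW]
        exact hr
  · intro L _ _ hL d hd hs
    obtain ⟨i, hi⟩ := hc.elOk hd hs
    exact H30MQ.pf_of_adm g2 hd (fun P hP => relG_G (hCS.trans hP) (g4 P hP) hi) hL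
  · intro L F' _ _ _ _ _ _ _ _ hL hgen d hd hs M _
    exact fin_layer hc hdeg hCS g5 hG hL hgen hd hs M

end H88AB
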