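import Pool.Agent.H88.AB.Fx
import Pool.Agent.H30.MG.Ck

/-!
Project MP_78d38b_MG: the main theorem for a finite extension `F / K` from the configuration theorem (no row).
-/

set_option autoImplicit false
set_option linter.unusedSectionVars false
open scoped Classical

open WithZero NumberField IsDedekindDomain H38RT
open H38T1 (SC sc scu rep eo la si Pri OddP tp unif ka)
open H76PP H36MX H76MQ H76MX H73P2 H76AB H30MG

namespace H88AB

theorem conf_of_cfg {K : Type} [Field K] [NumberField K] {F₀ : Type} [Field F₀] [NumberField F₀]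
    [Algebra K F₀] [IsGalois K F₀] {C : CfgX K} {Lp : LPred K} {ι : Type}
    {x : (u : HeightOneSpectrum (𝓞 K)) → ι → SC (Kv u)} (hC : C.Ok)
    (h : H30MG.CfgMG K F₀ C Lp x) : Conf F₀ C Lp x := by
  refine ⟨hC, h.unr, ?_, ?_, ?_⟩
  · intro N _ hN h2 v hv
    exact h.split N h2 v hv
  · intro d hd hs
    obtain ⟨i, hi⟩ := h.el d hd hs
    exact ⟨i, hi.loc⟩
  · intro L0 N _ _ _ _ _ _ _ _ _ _ _ _ hr hg hZ U _ z _ hz2 _ hmono M _ hM ρ hρ0 hρ hz μ hμ
    obtain ⟨r, hr⟩ := hr
    exact h.pair L0 N r hr hg hZ U z hz2 hmono M hM ρ hρ0 hρ hz μ hμ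

/-- The condition at two does not change under isomorphisms. -/
theorem hypH_iso {K F F₁ : Type} [Field K] [NumberField K] [Field F] [NumberField F] [Field F₁]
    [NumberField F₁] [Algebra K F] [Algebra K F₁] (e : F ≃ₐ[K] F₁) (h : HypH K F) : HypH K F₁ := by
  let _ : Algebra F F₁ := (e : F →+* F₁).toAlgebra
  have he : ∀ y : F, algebraMap F F₁ y = e y := fun _ => rfl
  have _ : IsScalarTower K F F₁ := IsScalarTower.of_algebraMap_eq fun y => by
    rw [he, AlgEquiv.commutes]
  let c : (F₁ ≃ₐ[K] F₁) →* (F ≃ₐ[K] F) :=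
    { toFun := fun g => e.trans (g.trans e.symm)
      map_one' := by
        ext y
        simp
      map_mul' := fun g g' => by
        ext y
        simp }
  have hc : ∀ (g : F₁ ≃ₐ[K] F₁) (y : F), e (c g y) = g (e y) := fun g y => by
    change e (e.symm (g (e y))) = _
    rw [AlgEquiv.apply_symm_apply]
  have hcinj : Function.Injective c := by
    intro g g' hgg
    ext y
    obtain ⟨z, rfl⟩ := e.surjective y
    rw [← hc, ← hc, hgg]
  have hdec : ∀ (w : HeightOneSpectrum (𝓞 F₁)) (g : F₁ ≃ₐ[K] F₁), g ∈ Dec K w →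
      c g ∈ Dec K (dn F w) := by
    intro w g hg
    apply stb_of_mem
    intro x
    have h1 : ∀ y : 𝓞 F, y ∈ (dn F w).asIdeal ↔ algebraMap (𝓞 F) (𝓞 F₁) y ∈ w.asIdeal :=
      fun y => Iff.rfl
    have h2 : algebraMap (𝓞 F) (𝓞 F₁) (c g • x) = g • algebraMap (𝓞 F) (𝓞 F₁) x := by
      apply RingOfIntegers.coe_injective
      change algebraMap F F₁ (c g (x : F)) = g (algebraMap F F₁ (x : F))
      rw [he, he, hc]
    rw [h1, h1, h2]
    exact mem_of_dec hg _
  intro w hw
  have hw' : (2 : 𝓞 K) ∈ (dn K (dn F w)).asIdeal := by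
    rw [dn_dn]
    exact hw
  obtain ⟨h1, h2⟩ := h (dn F w) hw'
  refine ⟨fun x hx y hy => hcinj ?_, fun x hx y => ?_⟩
  · rw [map_mul, map_mul]
    exact h1 _ (hdec w x hx) _ (hdec w y hy)
  · obtain ⟨n, hn⟩ := Subgroup.mem_zpowers_iff.1 (h2 _ (hdec w x hx) (c y))
    rw [Subgroup.mem_zpowers_iff]
    refine ⟨n, hcinj ?_⟩
    rw [map_zpow, hn, map_mul, map_mul, map_inv]

/-- **The main theorem** for finite extensions, from the configuration theorem. -/
theorem posP_fin (h : ExistsCfgMG) (K : Type) [Field K] [NumberField K] (hH : Hilb K)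
    (hcs : ConicSplit K) (F : Type) [Field F] [NumberField F] [Algebra K F] [IsGalois K F]
    (hdeg : ∃ r : ℕ, Module.finrank K F = 2 ^ r) (hF : HypH K F) : PosP K F := by
  have _ : FiniteDimensional K F := Module.Finite.of_restrictScalars_finite ℚ K F
  have _ : NumberField (⊤ : IntermediateField K F) := NumberField.of_module_finite K _
  have _ : IsGalois K (⊤ : IntermediateField K F) :=
    IsGalois.of_algEquiv IntermediateField.topEquiv.symm
  obtain ⟨r, hr⟩ := hdeg
  obtain ⟨ι, C, Lp, x, W, n, E, A₀, B₀, hok, -, hW, hcl, hcfg⟩ := h K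
    (⊤ : IntermediateField K F) r (by rw [IntermediateField.finrank_top', hr])
    (hypH_iso IntermediateField.topEquiv.symm hF) hH.hf ∅ (fun v hv => absurd hv (Finset.notMem_empty v))
  refine main_L (F := F) hH hcs hok (fun T hT => ⟨⊤, le_top, inferInstance, inferInstance,
    conf_of_cfg hok hcfg⟩) ?_ (H30PN.split_inf K F) hW hcl
  intro M _ _
  have h6 := Module.finrank_mul_finrank K M F
  rw [hr] at h6
  obtain ⟨s, -, hs⟩ := (Nat.dvd_prime_pow Nat.prime_two).1 (Dvd.intro _ h6)
  exact ⟨s, hs⟩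

end H88AB
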