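import Pool.Agent.H88.AB.Fd
import Pool.Agent.H88.AB.Df
import Pool.Agent.H73.P2.Lb
import Pool.Agent.H73.IS.Cnj

/-!
Project MP_78d38b_ABX: the Selmer conditions of the twist by `μ` over `M` are stable under the automorphisms of
`M / K` if the class of `μ` is; reduction to classes over `K` (no row).
-/

set_option autoImplicit false
set_option linter.unusedSectionVars false
open scoped Classical

open WithZero NumberField IsDedekindDomain H38RT
open H38T1 (SC sc scu rep eo la si Pri OddP tp unif ka)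
open H76PP H73P2

namespace H88AB

/-- Change of variables in the local condition. -/
theorem LC_sc {k k' F : Type} [Field k] [Field k'] [Field F] (i : k →+* F) (i' : k' →+* F) {a b : k}
    {a' b' : k'} {δ : Fin 3 → k} {δ' : Fin 3 → k'} {c : F} (hc : c ≠ 0) (ha : i' a' = c ^ 4 * i a)
    (hb : i' b' = c ^ 6 * i b) (hδ : ∀ j : Fin 3, i' (δ' j) = i (δ j) / c ^ (2 * (j : ℕ)))
    (h : LC i a b δ) : LC i' a' b' δ' := by
  obtain ⟨x, y, z, hy, h1, h2⟩ := h
  refine ⟨c ^ 2 * x, c ^ 3 * y, fun j => c * z j / c ^ (2 * (j : ℕ)), mul_ne_zero (pow_ne_zero 3 hc) hy,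
    ?_, ?_⟩
  · rw [ha, hb]
    linear_combination c ^ 6 * h1
  · have e0 := congrFun h2 0
    have e1 := congrFun h2 1
    have e2 := congrFun h2 2
    simp only [m3, Matrix.cons_val_zero, Matrix.cons_val_one, Matrix.cons_val_two, Matrix.head_cons,
      Matrix.tail_cons, Matrix.cons_val] at e0 e1 e2
    have hδ0 := hδ 0
    have hδ1 := hδ 1
    have hδ2 := hδ 2
    simp only [Fin.val_zero, Fin.val_one, Fin.val_two, mul_zero, pow_zero, div_one, mul_one] at hδ0 hδ1 hδ2
    funext j
    fin_cases j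
    · simp only [m3, ha, hb, hδ0, hδ1, hδ2, Fin.zero_eta, Matrix.cons_val_zero, Matrix.cons_val_one,
        Matrix.cons_val_two, Matrix.head_cons, Matrix.tail_cons, Matrix.cons_val, Fin.val_zero,
        Fin.val_one, Fin.val_two, mul_zero, pow_zero, div_one, mul_one]
      field_simp
      linear_combination c ^ 4 * e0
    · simp only [m3, ha, hb, hδ0, hδ1, hδ2, Fin.mk_one, Matrix.cons_val_zero, Matrix.cons_val_one,
        Matrix.cons_val_two, Matrix.head_cons, Matrix.tail_cons, Matrix.cons_val, Fin.val_zero,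
        Fin.val_one, Fin.val_two, mul_zero, pow_zero, div_one, mul_one]
      field_simp
      linear_combination c ^ 8 * e1
    · simp only [m3, ha, hb, hδ0, hδ1, hδ2, Fin.reduceFinMk, Matrix.cons_val_zero, Matrix.cons_val_one,
        Matrix.cons_val_two, Matrix.head_cons, Matrix.tail_cons, Matrix.cons_val, Fin.val_zero,
        Fin.val_one, Fin.val_two, mul_zero, pow_zero, div_one, mul_one]
      field_simp
      linear_combination c ^ 8 * e2

/-- Products in twisted coordinates. -/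
theorem m3_tw {M : Type} [Field M] {A B E : M} (hE : E ≠ 0) (δ₁ δ₂ : Fin 3 → M) :
    m3 (E ^ 2 * A) (E ^ 3 * B) (fun i => δ₁ i / E ^ (i : ℕ)) (fun i => δ₂ i / E ^ (i : ℕ)) =
      fun i => m3 A B δ₁ δ₂ i / E ^ (i : ℕ) := by
  funext j
  fin_cases j
  · simp only [m3, Fin.zero_eta, Matrix.cons_val_zero, Matrix.cons_val_one,
      Matrix.cons_val_two, Matrix.head_cons, Matrix.tail_cons, Matrix.cons_val, Fin.val_zero,
      Fin.val_one, Fin.val_two, pow_zero, div_one, pow_one]
    field_simp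
  · simp only [m3, Fin.mk_one, Matrix.cons_val_zero, Matrix.cons_val_one,
      Matrix.cons_val_two, Matrix.head_cons, Matrix.tail_cons, Matrix.cons_val, Fin.val_zero,
      Fin.val_one, Fin.val_two, pow_zero, div_one, pow_one]
    field_simp
  · simp only [m3, Fin.reduceFinMk, Matrix.cons_val_zero, Matrix.cons_val_one,
      Matrix.cons_val_two, Matrix.head_cons, Matrix.tail_cons, Matrix.cons_val, Fin.val_zero,
      Fin.val_one, Fin.val_two, pow_zero, div_one, pow_one]
    field_simp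

section Lce

variable {M : Type} [Field M] [NumberField M] {A B E : M}

theorem disc_tw (hE : E ≠ 0) (hd : 4 * A ^ 3 + 27 * B ^ 2 ≠ 0) :
    4 * (E ^ 2 * A) ^ 3 + 27 * (E ^ 3 * B) ^ 2 ≠ 0 := by
  have e : 4 * (E ^ 2 * A) ^ 3 + 27 * (E ^ 3 * B) ^ 2 = E ^ 6 * (4 * A ^ 3 + 27 * B ^ 2) := by ring
  rw [e]
  exact mul_ne_zero (pow_ne_zero 6 hE) hd

theorem lce_mul (hE : E ≠ 0) (hd : 4 * A ^ 3 + 27 * B ^ 2 ≠ 0) {δ₁ δ₂ : Fin 3 → M}
    (h₁ : LCE M A B E δ₁) (h₂ : LCE M A B E δ₂) : LCE M A B E (m3 A B δ₁ δ₂) := by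
  have hd' := disc_tw hE hd
  refine ⟨fun W => ?_, fun s => ?_⟩
  · have hc : CharZero (W.adicCompletion M) :=
      charZero_of_injective_algebraMap (algebraMap M (W.adicCompletion M)).injective
    rw [← m3_tw hE]
    refine LC_mul _ ?_ ?_ (h₁.1 W) (h₂.1 W)
    · have h1 := (map_ne_zero (algebraMap M (W.adicCompletion M))).2 hd'
      simpa only [map_add, map_mul, map_pow, map_ofNat] using h1
    · exact H24PD.inf_fin W _ _
  · rw [← m3_tw hE]
    refine LC_mul _ ?_ ?_ (h₁.2 s) (h₂.2 s)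
    · have h1 := (map_ne_zero s).2 hd'
      simpa only [map_add, map_mul, map_pow, map_ofNat] using h1
    · exact H24PD.inf_real _ _

theorem lce_sq (hE : E ≠ 0) {δ : Fin 3 → M} (u : Fin 3 → M) (h : LCE M A B E δ) :
    LCE M A B E (m3 A B δ (m3 A B u u)) := by
  refine ⟨fun W => ?_, fun s => ?_⟩
  · rw [← m3_tw hE, ← m3_tw hE]
    exact LC_sq _ _ (h.1 W)
  · rw [← m3_tw hE, ← m3_tw hE]
    exact LC_sq _ _ (h.2 s)

theorem lce_gal {K : Type} [Field K] [Algebra K M] {a b : K} (hE : E ≠ 0) (hst : Stw K E)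
    (g : M ≃ₐ[K] M) {δ : Fin 3 → M} (h : LCE M (algebraMap K M a) (algebraMap K M b) E δ) :
    LCE M (algebraMap K M a) (algebraMap K M b) E (fun i => g (δ i)) := by
  obtain ⟨z, hz, hgz⟩ := hst g
  have hzi : ∀ {F : Type} [Field F] (i : M →+* F), i z ≠ 0 := fun i => (map_ne_zero i).2 hz
  have key : ∀ {F : Type} [Field F] (i i' : M →+* F), (∀ x, i' x = i (g x)) →
      LC i' (E ^ 2 * algebraMap K M a) (E ^ 3 * algebraMap K M b) (fun j => δ j / E ^ (j : ℕ)) →
      LC i (E ^ 2 * algebraMap K M a) (E ^ 3 * algebraMap K M b) (fun j => g (δ j) / E ^ (j : ℕ)) := by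
    intro F _ i i' hi hL
    have hz0 : i z ≠ 0 := (map_ne_zero i).2 hz
    have hE0 : i E ≠ 0 := (map_ne_zero i).2 hE
    refine LC_sc i' i (c := (i z)⁻¹) (inv_ne_zero hz0) ?_ ?_ ?_ hL
    · rw [hi, map_mul g, map_pow g, hgz, g.commutes]
      simp only [map_mul, map_pow]
      field_simp
    · rw [hi, map_mul g, map_pow g, hgz, g.commutes]
      simp only [map_mul, map_pow]
      field_simp
    · intro j
      rw [hi, map_div₀ g, map_pow g, hgz]
      simp only [map_div₀, map_mul, map_pow, inv_pow]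
      field_simp
      ring
  refine ⟨fun W => ?_, fun s => ?_⟩
  · obtain ⟨v, ψ, hψ⟩ := H73IS.place_conj (g : M →+* M) W
    refine key (algebraMap M (W.adicCompletion M)) (ψ.comp (algebraMap M (v.adicCompletion M)))
      (fun x => hψ x) ?_
    obtain ⟨x, y, w, hy, h1, h2⟩ := h.1 v
    refine ⟨ψ x, ψ y, fun i => ψ (w i), (map_ne_zero ψ).2 hy, ?_, ?_⟩
    · simp only [RingHom.comp_apply]
      rw [← map_pow, h1]
      simp only [map_add, map_mul, map_pow]
    · have e1 : (fun i => ψ ((![x, -1, 0] : Fin 3 → v.adicCompletion M) i)) = ![ψ x, -1, 0] := by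
        funext i
        fin_cases i <;> simp
      funext i
      have h3 := Te_m3_map ψ (algebraMap M (v.adicCompletion M) (E ^ 2 * algebraMap K M a))
        (algebraMap M (v.adicCompletion M) (E ^ 3 * algebraMap K M b))
        (fun i => algebraMap M (v.adicCompletion M) (δ i / E ^ (i : ℕ))) ![x, -1, 0] i
      have h4 := Te_m3_map ψ (algebraMap M (v.adicCompletion M) (E ^ 2 * algebraMap K M a))
        (algebraMap M (v.adicCompletion M) (E ^ 3 * algebraMap K M b)) w w i
      rw [e1] at h3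
      simp only [RingHom.comp_apply]
      rw [h3, h4, h2]
  · exact key s (s.comp (g : M →+* M)) (fun x => rfl) (h.2 (s.comp (g : M →+* M)))

end Lce

/-- Reduction to the classes over `K`. -/
theorem selTriv_of {K M : Type} [Field K] [NumberField K] [Field M] [NumberField M] [Algebra K M]
    [IsGalois K M] {r : ℕ} (hr : Module.finrank K M = 2 ^ r) {a b : K}
    (hd : 4 * a ^ 3 + 27 * b ^ 2 ≠ 0) {μ : M} (hμ : μ ≠ 0) (hst : Stw K μ)
    (hT : ∀ (L : Type) [Field L] [NumberField L] [Algebra K L] (θ : L), Cub K L a b θ →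
      ∀ δ : Fin 3 → K, ev θ δ ≠ 0 → IsSquare (Algebra.norm K (ev θ δ)) →
      LCE M (algebraMap K M a) (algebraMap K M b) μ (fun i => algebraMap K M (δ i)) →
      IsSquare (ev θ δ))
    (L' : Type) [Field L'] [NumberField L'] [Algebra M L'] (θ' : L')
    (h' : Cub M L' (μ ^ 2 * algebraMap K M a) (μ ^ 3 * algebraMap K M b) θ') :
    SelTriv M L' (μ ^ 2 * algebraMap K M a) (μ ^ 3 * algebraMap K M b) θ' := by
  have hdM : 4 * (algebraMap K M a) ^ 3 + 27 * (algebraMap K M b) ^ 2 ≠ 0 := by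
    have h1 := (map_ne_zero (algebraMap K M)).2 hd
    simpa only [map_add, map_mul, map_pow, map_ofNat] using h1
  have hμL : algebraMap M L' μ ≠ 0 := (map_ne_zero _).2 hμ
  -- the root of the untwisted cubic
  have h0 : Cub M L' (algebraMap K M a) (algebraMap K M b) (θ' / algebraMap M L' μ) := by
    have h1 := h'.twist (D := μ⁻¹) (inv_ne_zero hμ)
    have e1 : μ⁻¹ ^ 2 * (μ ^ 2 * algebraMap K M a) = algebraMap K M a := by field_simp
    have e2 : μ⁻¹ ^ 3 * (μ ^ 3 * algebraMap K M b) = algebraMap K M b := by field_simp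
    have e3 : algebraMap M L' μ⁻¹ * θ' = θ' / algebraMap M L' μ := by
      rw [map_inv₀, div_eq_inv_mul]
    rw [e1, e2, e3] at h1
    exact h1
  intro d hd0 hN hfin hre
  have hev : ev (θ' / algebraMap M L' μ) (fun i => d i * μ ^ (i : ℕ)) = ev θ' d := by
    unfold ev
    simp only [Fin.val_zero, Fin.val_one, Fin.val_two, pow_zero, mul_one, pow_one, map_mul, map_pow]
    field_simp
  have hco : ∀ i : Fin 3, d i * μ ^ (i : ℕ) / μ ^ (i : ℕ) = d i := fun i => by
    rw [mul_div_cancel_right₀ _ (pow_ne_zero _ hμ)]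
  rw [← hev]
  refine fixed_class hr (LCE M (algebraMap K M a) (algebraMap K M b) μ)
    (fun d₁ d₂ => lce_mul hμ hdM) (fun d z h => lce_sq hμ z h) (fun g d h => lce_gal hμ hst g h) hT L' _ h0 _
    (by rw [hev]; exact hd0) (by rw [hev]; exact hN) ⟨fun W => ?_, fun s => ?_⟩
  · simp only [hco]
    exact hfin W
  · simp only [hco]
    exact hre s

end H88AB
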