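import Pool.Agent.H88.AB.Fy
import Pool.Agent.H36.MX.Fi

/-!
Let `K` be a number field and `F / K` a finite Galois extension of two-power degree such that the
decomposition groups of the primes of `F` above `2` are abelian and all their subgroups are normal in
`Gal(F / K)`; for example, any abelian extension of two-power degree, or any Galois extension of
two-power degree in which the primes above `2` split completely.  Then for a positive proportion of the
elliptic curves `E` over `K` the groups `E(M)` and the two-primary parts of the Tate-Shafarevich groups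
of `E` over `M` are finite for all fields `M` between `K` and `F`; the same curves work for all fields
between `K` and `L F` and all twists by elements of `M` with a square root in `L F`, for all admissible
extensions `L / K`, finite or infinite.
-/

set_option autoImplicit false
open scoped Classical

namespace Pool.Agent.Results.MP_78d38b_nt.TwoPowerExtensions

open NumberField WeierstrassCurve IsDedekindDomain Pool.Agent.H10

/-- The pairs `(A, B)` of algebraic integers of `K` of height at most `X`: the absolute values of all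
complex conjugates of `A` are at most `X²` and those of `B` are at most `X³`. -/
def Box (K : Type) [Field K] [NumberField K] (X : ℝ) : Set (𝓞 K × 𝓞 K) :=
  {p | ∀ s : K →+* ℂ, ‖s (p.1 : K)‖ ≤ X ^ 2 ∧ ‖s (p.2 : K)‖ ≤ X ^ 3}

/-- The decomposition group over `K` of a prime `w` of the number field `F`. -/
def Dec (K : Type) {F : Type} [Field K] [Field F] [NumberField F] [Algebra K F]
    (w : HeightOneSpectrum (𝓞 F)) : Subgroup (F ≃ₐ[K] F) where
  carrier := {σ | ∀ x : F, w.valuation F (σ x) = w.valuation F x}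
  mul_mem' := fun {σ τ} hσ hτ x => (hσ (τ x)).trans (hτ x)
  one_mem' := fun _ => rfl
  inv_mem' := fun {σ} hσ x => by
    have h := hσ (σ⁻¹ x)
    have h2 : σ (σ⁻¹ x) = x := σ.apply_symm_apply x
    rw [h2] at h
    exact h.symm

variable {K : Type} [Field K] [NumberField K]

/-- The quadratic twist `E_m : y² = x³ + m² A x + m³ B` over the extension `M` of `K` by an element `m`
of `M`, where `p = (A, B)`. -/
def twist (p : 𝓞 K × 𝓞 K) (M : Type) [Field M] [Algebra K M] (m : M) : WeierstrassCurve M :=
  ⟨0, 0, 0, m ^ 2 * algebraMap K M (p.1 : K), m ^ 3 * algebraMap K M (p.2 : K)⟩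

/-- The group `E_d(M)` is finite of odd order and the Tate-Shafarevich group of `E_d` over `M` has no
nontrivial element of two-power order. -/
def Triv (p : 𝓞 K × 𝓞 K) (d : 𝓞 K) (M : Type) [Field M] [NumberField M] [Algebra K M] : Prop :=
  Finite (twist p M (algebraMap K M (d : K))).toAffine.Point ∧
    Odd (Nat.card (twist p M (algebraMap K M (d : K))).toAffine.Point) ∧
    Sha2Trivial M (twist p M (algebraMap K M (d : K)))

/-- The two-primary part of the Tate-Shafarevich group of `W` over `M` is finite: the locally constant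
cocycles which are coboundaries at all places and of which a multiple by a power of two is a coboundary
fall into finitely many classes modulo coboundaries. -/
def TwoPartFinite (M : Type) [Field M] [NumberField M] (W : WeierstrassCurve M) : Prop :=
  ∃ S : Set ((AlgebraicClosure M ≃ₐ[M] AlgebraicClosure M) →
      (W.baseChange (AlgebraicClosure M)).toAffine.Point), S.Finite ∧
    ∀ f : (AlgebraicClosure M ≃ₐ[M] AlgebraicClosure M) →
        (W.baseChange (AlgebraicClosure M)).toAffine.Point,
      IsCocycle M W f → IsLocTriv M W f → (∃ m : ℕ, IsCobound M W (fun σ => (2 ^ m) • f σ)) →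
      ∃ g ∈ S, IsCobound M W (fun σ => f σ - g σ)

variable (K) in
/-- The primes of `K` which split completely in the Galois extension `L`. -/
def Split (L : Type) [Field L] [Algebra K L] : Set (HeightOneSpectrum (𝓞 K)) :=
  {v | ∃ i : L →+* v.adicCompletion K, ∀ x : K,
    i (algebraMap K L x) = algebraMap K (v.adicCompletion K) x}

variable (K) in
/-- The primes of `K` which are ramified in some number field between `K` and `L`. -/
def Ramified (L : Type) [Field L] [Algebra K L] : Set (HeightOneSpectrum (𝓞 K)) :=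
  {v | ∃ (M : IntermediateField K L) (_ : NumberField M) (V : HeightOneSpectrum (𝓞 M)),
    V.asIdeal.under (𝓞 K) = v.asIdeal ∧ v.asIdeal.map (algebraMap (𝓞 K) (𝓞 M)) ≤ V.asIdeal ^ 2}

/-- The extension `L / K`, finite or infinite, is admissible for the set `S` of primes and the curve of
`p = (A, B)`: it is Galois, the finite Galois extensions of `K` inside `L` have two-power degree, and
every prime `v` of `K` splits completely in `L`, or `v` does not divide `2` and `x³ + A x + B` has no root
modulo `v`, or `v` is not in `S` and is unramified in `L`. -/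
structure Admissible (S : Finset (HeightOneSpectrum (𝓞 K))) (p : 𝓞 K × 𝓞 K) (L : Type) [Field L]
    [Algebra K L] : Prop where
  gal : IsGalois K L
  deg : ∀ (M : IntermediateField K L) [NumberField M], IsGalois K M →
    ∃ r : ℕ, Module.finrank K M = 2 ^ r
  loc : ∀ v : HeightOneSpectrum (𝓞 K), v ∈ Split K L ∨
    ((2 : 𝓞 K) ∉ v.asIdeal ∧ ∀ t : 𝓞 K, t ^ 3 + p.1 * t + p.2 ∉ v.asIdeal) ∨
    (v ∉ S ∧ v ∉ Ramified K L)

/-- The curve `E` of `p` is an elliptic curve; the Galois extensions of `K` inside `F` in which the primes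
above `2` split completely are admissible; for every admissible `L / K` the twists `E_d` of `E` by the
elements `d` of `K` with a square root in `F` satisfy `Triv` over all number fields between `K` and `L`;
and if `F'` is a compositum of `L` and `F`, then for all number fields `M` between `K` and `F'` and all
`m ≠ 0` in `M` with a square root in `F'` (for example, `m = 1`), `E_m(M)` and the two-primary part of the
Tate-Shafarevich group of `E_m` over `M` are finite. -/
structure Good (F : Type) [Field F] [Algebra K F] (S : Finset (HeightOneSpectrum (𝓞 K)))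
    (p : 𝓞 K × 𝓞 K) : Prop where
  ell : 4 * p.1 ^ 3 + 27 * p.2 ^ 2 ≠ 0
  adm : ∀ N : IntermediateField K F, IsGalois K N →
    (∀ v : HeightOneSpectrum (𝓞 K), (2 : 𝓞 K) ∈ v.asIdeal → v ∈ Split K N) → Admissible S p N
  triv : ∀ (L : Type) [Field L] [Algebra K L], Admissible S p L →
    ∀ d : 𝓞 K, d ≠ 0 → IsSquare (algebraMap K F (d : K)) →
      ∀ (M : IntermediateField K L) [NumberField M], Triv p d M
  fin : ∀ (L F' : Type) [Field L] [Field F'] [Algebra K L] [Algebra K F'] [Algebra L F']
    [Algebra F F'] [IsScalarTower K L F'] [IsScalarTower K F F'], Admissible S p L →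
    IntermediateField.adjoin L (Set.range (algebraMap F F')) = ⊤ →
    ∀ (M : IntermediateField K F') [NumberField M] (m : M), m ≠ 0 → IsSquare (m : F') →
      Finite (twist p M m).toAffine.Point ∧ TwoPartFinite M (twist p M m)

/-- Finite abelian groups of odd order. -/
private theorem odd_iff {G : Type} [AddCommGroup G] [Finite G] :
    Odd (Nat.card G) ↔ ∀ P : G, P + P = 0 → P = 0 := by
  constructor
  · intro h P hP
    have h1 : addOrderOf P ∣ 2 := addOrderOf_dvd_of_nsmul_eq_zero (by rw [two_nsmul, hP])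
    rcases (Nat.dvd_prime Nat.prime_two).1 h1 with h2 | h2
    · exact AddMonoid.addOrderOf_eq_one_iff.1 h2
    · exfalso
      have h3 := addOrderOf_dvd_natCard P
      rw [h2] at h3
      exact (Nat.not_even_iff_odd.2 h) (even_iff_two_dvd.2 h3)
  · intro h
    rw [← Nat.not_even_iff_odd, even_iff_two_dvd]
    intro h2
    obtain ⟨P, hP⟩ := exists_prime_addOrderOf_dvd_card' 2 h2
    have h3 : P + P = 0 := by
      rw [← two_nsmul, ← hP]
      exact addOrderOf_nsmul_eq_zero P
    rw [h P h3, addOrderOf_zero] at hP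
    norm_num at hP

omit [NumberField K] in
private theorem triv_iff {p : 𝓞 K × 𝓞 K} {d : 𝓞 K} {M : Type} [Field M] [NumberField M]
    [Algebra K M] : Triv p d M ↔ H30ZO.Tv M (algebraMap K M ((d ^ 2 * p.1 : 𝓞 K) : K))
      (algebraMap K M ((d ^ 3 * p.2 : 𝓞 K) : K)) := by
  have e : twist p M (algebraMap K M (d : K)) =
      ⟨0, 0, 0, algebraMap K M ((d ^ 2 * p.1 : 𝓞 K) : K),
        algebraMap K M ((d ^ 3 * p.2 : 𝓞 K) : K)⟩ := by
    have e1 : ((d ^ 2 * p.1 : 𝓞 K) : K) = (d : K) ^ 2 * (p.1 : K) := by push_cast; rfl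
    have e2 : ((d ^ 3 * p.2 : 𝓞 K) : K) = (d : K) ^ 3 * (p.2 : K) := by push_cast; rfl
    unfold twist
    rw [e1, e2, map_mul, map_mul, map_pow, map_pow]
  unfold Triv
  rw [e]
  constructor
  · rintro ⟨h1, h2, h3⟩
    exact ⟨h1, (@odd_iff _ _ h1).1 h2, h3⟩
  · rintro ⟨h1, h2, h3⟩
    exact ⟨h1, (@odd_iff _ _ h1).2 h2, h3⟩

omit [NumberField K] in
private theorem under_iff {L : Type} [Field L] [NumberField L] [Algebra K L]
    {v : HeightOneSpectrum (𝓞 K)} {w : HeightOneSpectrum (𝓞 L)} :
    w.asIdeal.under (𝓞 K) = v.asIdeal ↔ H76PP.dn K w = v :=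
  ⟨fun h => HeightOneSpectrum.ext h, fun h => by rw [← h]; rfl⟩

private theorem ram_iff {F : Type} [Field F] [Algebra K F] {v : HeightOneSpectrum (𝓞 K)} :
    v ∈ Ramified K F ↔ H30ZO.RamF K F v := by
  refine exists_congr fun N => exists_congr fun hN => exists_congr fun V => ?_
  rw [under_iff]
  constructor
  · rintro ⟨h1, h2⟩
    refine ⟨h1, ?_⟩
    rw [← h1] at h2
    exact h2
  · rintro ⟨h1, h2⟩
    refine ⟨h1, ?_⟩
    rw [← h1]
    exact h2

private theorem adm_iff {S : Finset (HeightOneSpectrum (𝓞 K))} {p : 𝓞 K × 𝓞 K} {L : Type} [Field L]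
    [Algebra K L] : Admissible S p L ↔ H30MQ.AdmM K L S p := by
  constructor
  · rintro ⟨h1, h2, h3⟩
    exact ⟨h1, h2, fun v => (h3 v).imp_right fun h => h.imp_right fun h =>
      ⟨h.1, fun h4 => h.2 (ram_iff.2 h4)⟩⟩
  · rintro ⟨h1, h2, h3⟩
    exact ⟨h1, h2, fun v => (h3 v).imp_right fun h => h.imp_right fun h =>
      ⟨h.1, fun h4 => h.2 (ram_iff.1 h4)⟩⟩

private theorem good_of {F : Type} [Field F] [Algebra K F] {S : Finset (HeightOneSpectrum (𝓞 K))}
    {p : 𝓞 K × 𝓞 K} (h : H88AB.Cnc K F S p) : Good F S p := by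
  refine ⟨h.ne, ?_, ?_, ?_⟩
  · intro N hN h2
    exact adm_iff.2 (h.adm N hN h2)
  · intro L _ _ hL d hd hs M _
    exact triv_iff.2 (h.triv L (adm_iff.1 hL) d hd hs M)
  · intro L F' _ _ _ _ _ _ _ _ hL hgen M _ m hm hs
    exact h.fin L F' (adm_iff.1 hL) hgen M m hm hs

/-- Let `K` be a number field and `F / K` a finite Galois extension of two-power degree such that for all
primes `w` of `F` above `2` the decomposition group of `w` is abelian and all its subgroups are normal in
`Gal(F / K)`.  There are a finite set `S` of primes of `K` and `c > 0` such that for all large `X` at least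
`c * #(Box K X)` of the curves `y² = x³ + A x + B`, `(A, B) ∈ Box K X`, with pairwise different
`j`-invariants, satisfy `Good F S`. -/
theorem result (hx : H30MG.ExistsCfgMG) (K : Type) [Field K] [NumberField K] (F : Type) [Field F] [NumberField F] [Algebra K F]
    [IsGalois K F] (hdeg : ∃ r : ℕ, Module.finrank K F = 2 ^ r)
    (hdec : ∀ w : HeightOneSpectrum (𝓞 F), (2 : 𝓞 F) ∈ w.asIdeal →
      (∀ σ ∈ Dec K w, ∀ τ ∈ Dec K w, σ * τ = τ * σ) ∧
      ∀ H : Subgroup (F ≃ₐ[K] F), H ≤ Dec K w → H.Normal) :
    ∃ (S : Finset (HeightOneSpectrum (𝓞 K))) (c X₀ : ℝ), 0 < c ∧ ∀ X : ℝ, X₀ ≤ X →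
      ∃ G : Finset (𝓞 K × 𝓞 K), c * ((Box K X).ncard : ℝ) ≤ (G.card : ℝ) ∧
        (∀ p ∈ G, p ∈ Box K X ∧ Good F S p) ∧
        ∀ p ∈ G, ∀ q ∈ G, p ≠ q → p.1 ^ 3 * q.2 ^ 2 ≠ q.1 ^ 3 * p.2 ^ 2 := by
  have hbox : ∀ X : ℝ, Box K X = H76PP.Bx K X := by
    intro X
    ext p
    exact ⟨fun h => ⟨fun s => (h s).1, fun s => (h s).2⟩, fun h s => ⟨h.1 s, h.2 s⟩⟩
  have hF : H30MG.HypH K F := by
    intro w hw
    obtain ⟨h1, h2⟩ := hdec w (by
      have h3 : algebraMap (𝓞 K) (𝓞 F) 2 ∈ w.asIdeal := hw
      rwa [map_ofNat] at h3)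
    refine ⟨h1, fun x hx y => ?_⟩
    have h3 : Subgroup.zpowers x ≤ Dec K w := (Subgroup.zpowers_le).2 hx
    exact (h2 _ h3).conj_mem x (Subgroup.mem_zpowers x) y
  obtain ⟨S, c, X₀, hc, h⟩ := H88AB.posP_fin hx K (H36MX.hilb K) (H36MX.conicSplit K) F hdeg hF
  refine ⟨S, c, X₀, hc, fun X hX => ?_⟩
  obtain ⟨G, h1, h3, h4⟩ := h X hX
  rw [hbox X]
  exact ⟨G, h4, fun p hp => ⟨(h1 p hp).1, good_of (h1 p hp).2⟩,
    fun p hp q hq hne h5 => hne (h3 p hp q hq h5)⟩

end Pool.Agent.Results.MP_78d38b_nt.TwoPowerExtensions
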